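import Pool.Agent.MP_a9d3bd_yy.St

/-! Values of functions and of projective points at a place. -/

namespace Pool.Agent.MP_a9d3bd_yy

open Polynomial IntermediateField Pool.Agent.MP_a9d3bd_q

section
variable {K E : Type} [Field K] [Field E] [Algebra K E] {V : ValuationSubring E}

theorem sCtr_cle (hV : ∀ c : K, algebraMap K E c ∈ V) (c : K) :
    V.valuation (algebraMap K E c) ≤ 1 := (V.valuation_le_one_iff _).2 (hV c)

theorem sCtr_one (hV : ∀ c : K, algebraMap K E c ∈ V) {c : K} (hc : c ≠ 0) :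
    V.valuation (algebraMap K E c) = 1 := by
  refine le_antisymm (sCtr_cle hV c) ?_
  have h1 : V.valuation (algebraMap K E c) * V.valuation (algebraMap K E c⁻¹) = 1 := by
    rw [← map_mul, ← map_mul, mul_inv_cancel₀ hc, map_one, map_one]
  calc (1 : V.ValueGroup) = V.valuation (algebraMap K E c) * V.valuation (algebraMap K E c⁻¹) :=
        h1.symm
    _ ≤ V.valuation (algebraMap K E c) * 1 := mul_le_mul_right (sCtr_cle hV _) _
    _ = _ := mul_one _

theorem sCtr_le (hV : ∀ c : K, algebraMap K E c ∈ V) {z : E} {a : K} (h : Near V z a) :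
    V.valuation z ≤ 1 := by
  have h1 : z = (z - algebraMap K E a) + algebraMap K E a := by ring
  rw [h1]
  exact Valuation.map_add_le _ (le_of_lt h) (sCtr_cle hV a)

theorem sCtr_const (a : K) : Near V (algebraMap K E a) a := by
  unfold Near
  rw [sub_self, map_zero]
  exact zero_lt_one

theorem sCtr_lt {x y : V.ValueGroup} (hx : x ≤ 1) (hy : y < 1) : x * y < 1 :=
  lt_of_le_of_lt (by simpa using mul_le_mul_left hx y) hy

theorem sCtr_add {z w : E} {a b : K} (h1 : Near V z a) (h2 : Near V w b) :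
    Near V (z + w) (a + b) := by
  unfold Near at *
  have h : z + w - algebraMap K E (a + b) = (z - algebraMap K E a) + (w - algebraMap K E b) := by
    rw [map_add]; ring
  rw [h]
  exact Valuation.map_add_lt _ h1 h2

theorem sCtr_mul (hV : ∀ c : K, algebraMap K E c ∈ V) {z w : E} {a b : K} (h1 : Near V z a)
    (h2 : Near V w b) : Near V (z * w) (a * b) := by
  have h0 := sCtr_le hV h1
  unfold Near at *
  have h : z * w - algebraMap K E (a * b) =
      z * (w - algebraMap K E b) + algebraMap K E b * (z - algebraMap K E a) := by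
    rw [map_mul]; ring
  rw [h]
  refine Valuation.map_add_lt _ ?_ ?_
  · rw [map_mul]; exact sCtr_lt h0 h2
  · rw [map_mul]; exact sCtr_lt (sCtr_cle hV b) h1

theorem sCtr_uniq (hV : ∀ c : K, algebraMap K E c ∈ V) {z : E} {a b : K} (h1 : Near V z a)
    (h2 : Near V z b) : a = b := by
  by_contra hne
  have h3 := sCtr_one hV (sub_ne_zero.2 hne)
  unfold Near at *
  have h : algebraMap K E (a - b) = (z - algebraMap K E b) - (z - algebraMap K E a) := by
    rw [map_sub]; ring
  rw [h] at h3
  exact absurd h3 (ne_of_lt (Valuation.map_sub_lt _ h2 h1))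

theorem sCtr_unit (hV : ∀ c : K, algebraMap K E c ∈ V) {z : E} {a : K} (h : Near V z a)
    (ha : a ≠ 0) : V.valuation z = 1 := by
  refine le_antisymm (sCtr_le hV h) (not_lt.1 fun hz => ha ?_)
  refine sCtr_uniq hV h ?_
  unfold Near
  rwa [map_zero, sub_zero]

theorem sCtr_div (hV : ∀ c : K, algebraMap K E c ∈ V) {z w : E} {a b : K} (h1 : Near V z a)
    (h2 : Near V w b) (hb : b ≠ 0) : w ≠ 0 ∧ Near V (z / w) (a / b) := by
  have hw := sCtr_unit hV h2 hb
  have hw0 : w ≠ 0 := by
    rintro rfl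
    rw [map_zero] at hw
    exact zero_ne_one hw
  have hb' : algebraMap K E b ≠ 0 := (_root_.map_ne_zero _).2 hb
  refine ⟨hw0, ?_⟩
  have h3 : Near V w⁻¹ b⁻¹ := by
    unfold Near at *
    have h : w⁻¹ - algebraMap K E b⁻¹ = (w * algebraMap K E b)⁻¹ * (-(w - algebraMap K E b)) := by
      rw [map_inv₀]; field_simp; ring
    rw [h, map_mul, map_inv₀, map_mul, hw, sCtr_one hV hb, Valuation.map_neg]
    simpa using h2
  rw [div_eq_mul_inv, div_eq_mul_inv]
  exact sCtr_mul hV h1 h3

theorem sCtr_sum {ι : Type} (s : Finset ι) (z : ι → E) (a : ι → K)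
    (h : ∀ i, Near V (z i) (a i)) : Near V (∑ i ∈ s, z i) (∑ i ∈ s, a i) := by
  classical
  induction s using Finset.induction_on with
  | empty => simpa using (sCtr_const (V := V) (0 : K))
  | insert i s hi ih =>
    rw [Finset.sum_insert hi, Finset.sum_insert hi]
    exact sCtr_add (h i) ih

theorem sCtr_aeval (hV : ∀ c : K, algebraMap K E c ∈ V) {ι : Type} (z : ι → E) (a : ι → K)
    (F : MvPolynomial ι K) (h : ∀ i, Near V (z i) (a i)) :
    Near V (MvPolynomial.aeval z F) (MvPolynomial.eval a F) := by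
  induction F using MvPolynomial.induction_on with
  | C c => rw [MvPolynomial.aeval_C, MvPolynomial.eval_C]; exact sCtr_const c
  | add p q hp hq => rw [map_add, map_add]; exact sCtr_add hp hq
  | mul_X p i hp =>
    rw [map_mul, map_mul, MvPolynomial.aeval_X, MvPolynomial.eval_X]
    exact sCtr_mul hV hp (h i)

theorem sCtr_hom {ι : Type} [Fintype ι] {P : MvPolynomial ι K} {d : ℕ} (hP : P.IsHomogeneous d)
    (c : E) (y : ι → E) :
    MvPolynomial.aeval (fun i => c * y i) P = c ^ d * MvPolynomial.aeval y P := by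
  rw [MvPolynomial.aeval_def, MvPolynomial.aeval_def, MvPolynomial.eval₂_eq',
    MvPolynomial.eval₂_eq', Finset.mul_sum]
  refine Finset.sum_congr rfl fun m hm => ?_
  have h1 : ∑ i, m i = d := by
    have h2 := hP (MvPolynomial.mem_support_iff.1 hm)
    rw [← h2, Finsupp.weight_apply, Finsupp.sum_fintype _ _ (by simp)]
    simp
  simp_rw [mul_pow]
  rw [Finset.prod_mul_distrib, Finset.prod_pow_eq_pow_sum, h1]
  ring

theorem sCtr_quot (hV : ∀ c : K, algebraMap K E c ∈ V) (y : Fin 4 → E) (p : Fin 4 → K)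
    (h : Ctr V y p) (hp : p 0 ≠ 0) : y 0 ≠ 0 ∧ ∀ i, Near V (y i / y 0) (p i / p 0) := by
  obtain ⟨c, hc⟩ := h
  have h0 := (sCtr_div hV (hc 0) (hc 0) hp).1
  refine ⟨right_ne_zero_of_mul h0, fun i => ?_⟩
  rw [← mul_div_mul_left (y i) (y 0) (left_ne_zero_of_mul h0)]
  exact (sCtr_div hV (hc i) (hc 0) hp).2

theorem sCtr_res [IsAlgClosed K] (hE : FF K E 1) (O : DV K E) (z : E) (hz : z ∈ O.O) :
    ∃ a : K, Near O.O z a := by
  have h0 : FF K O.K 0 := O.ff_K hE
  have h1 : Algebra.trdeg K O.K = 0 := by simpa using h0.tr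
  have : Algebra.IsAlgebraic K O.K := trdeg_eq_zero_iff.1 h1
  obtain ⟨a, ha⟩ := (IsAlgClosed.algebraMap_bijective_of_isIntegral (k := K) (K := O.K)).2
    (IsLocalRing.residue O.O ⟨z, hz⟩)
  refine ⟨a, ?_⟩
  have h2 : IsLocalRing.residue O.O ⟨algebraMap K E a, O.const a⟩ =
      IsLocalRing.residue O.O ⟨z, hz⟩ := ha
  have h3 : IsLocalRing.residue O.O (⟨z, hz⟩ - ⟨algebraMap K E a, O.const a⟩) = 0 := by
    rw [map_sub, h2, sub_self]
  exact (O.O.valuation_lt_one_iff _).1 ((IsLocalRing.residue_eq_zero_iff _).1 h3)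

end

theorem sCtr {K : Type} [Field K] [IsAlgClosed K] : SCtr K := by
  intro E _ _ hE O
  have hV := O.const
  refine ⟨sCtr_res hE O, fun z a h => (O.O.valuation_le_one_iff _).1 (sCtr_le hV h),
    fun z a b h1 h2 => sCtr_uniq hV h1 h2, fun n z a F h => sCtr_aeval hV z a F h, ?_, ?_, ?_,
    sCtr_quot hV, ?_, ?_⟩
  · intro y hy
    obtain ⟨i, hi⟩ := Finite.exists_max fun i => O.O.valuation (y i)
    have hi0 : y i ≠ 0 := by
      intro h
      apply hy
      funext j
      have h1 := hi j
      rw [h, map_zero, le_zero_iff] at h1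
      exact (Valuation.zero_iff _).1 h1
    have hv : O.O.valuation (y i) ≠ 0 := (Valuation.ne_zero_iff _).2 hi0
    have hm : ∀ j, (y i)⁻¹ * y j ∈ O.O := by
      intro j
      rw [← O.O.valuation_le_one_iff, map_mul, map_inv₀, inv_mul_le_one₀ (zero_lt_iff.2 hv)]
      exact hi j
    choose p hp using fun j => sCtr_res hE O _ (hm j)
    refine ⟨p, fun h => ?_, _, hp⟩
    have h1 := hp i
    rw [inv_mul_cancel₀ hi0, ← map_one (algebraMap K E)] at h1
    have h2 := sCtr_uniq hV h1 (sCtr_const 1)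
    rw [h] at h2
    exact zero_ne_one h2
  · rintro y p P d hP h0 ⟨c, hc⟩
    have h1 := sCtr_aeval hV _ p P hc
    rw [sCtr_hom hP, h0, mul_zero, ← map_zero (algebraMap K E)] at h1
    exact sCtr_uniq hV h1 (sCtr_const 0)
  · rintro y p M ⟨c, hc⟩
    refine ⟨c, fun i => ?_⟩
    have h1 : c * mv M y i = ∑ j, algebraMap K E (M i j) * (c * y j) := by
      unfold mv
      rw [Finset.mul_sum]
      exact Finset.sum_congr rfl fun j _ => by ring
    rw [h1]
    exact sCtr_sum Finset.univ _ (fun j => M i j * p j) fun j =>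
      sCtr_mul hV (sCtr_const _) (hc j)
  · rintro y p i ⟨c, hc⟩ hy h0 hi hm
    have h1 := sCtr_unit hV (hc i) hi
    have h2 := hc 0
    unfold Near at h2
    rw [h0, map_zero, sub_zero] at h2
    have h3 : c * y i = y i / y 0 * (c * y 0) := by field_simp
    rw [h3, map_mul] at h1
    exact absurd h1 (ne_of_lt (sCtr_lt ((O.O.valuation_le_one_iff _).2 hm) h2))
  · intro y x0 t0 w0 hy
    constructor
    · intro h
      have h1 := (sCtr_quot hV y _ h (by simp)).2
      exact ⟨by simpa using h1 1, by simpa using h1 2, by simpa using h1 3⟩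
    · rintro ⟨h1, h2, h3⟩
      refine ⟨(y 0)⁻¹, fun i => ?_⟩
      rw [inv_mul_eq_div]
      fin_cases i
      · have h4 := sCtr_const (V := O.O) (1 : K)
        rw [map_one] at h4
        simpa [div_self hy] using h4
      · simpa using h1
      · simpa using h2
      · simpa using h3

end Pool.Agent.MP_a9d3bd_yy
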