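import Pool.Agent.MP_a9d3bd_yy.St

/-! The divisor of a function. -/

namespace Pool.Agent.MP_a9d3bd_yy

open Polynomial IntermediateField Pool.Agent.MP_a9d3bd_q

theorem sDv_one {L : Type} [Field L] (V : ValuationSubring L) [IsDiscreteValuationRing V] {u : L}
    (hu : u ≠ 0) (h : ord V u = 0) : V.valuation u = 1 := by
  obtain ⟨h1, h2⟩ := (ord_eq_zero_iff V u).1 h
  have h3 := (V.valuation_le_one_iff _).2 h2
  rw [map_inv₀, inv_le_one₀ (zero_lt_iff.2 ((_root_.map_ne_zero _).2 hu))] at h3
  exact le_antisymm ((V.valuation_le_one_iff _).2 h1) h3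

theorem sDv_pow {L : Type} [Field L] (V : ValuationSubring L) [IsDiscreteValuationRing V]
    {u π : L} (hu : u ≠ 0) (hπ : π ≠ 0) (h : ord V π = 1) :
    V.valuation u = V.valuation π ^ ord V u := by
  have h0 : π ^ ord V u ≠ 0 := zpow_ne_zero _ hπ
  have h1 := sDv_one V (div_ne_zero hu h0) (by rw [ord_div V hu h0, ord_zpow, h, mul_one, sub_self])
  rw [map_div₀, div_eq_one_iff_eq ((_root_.map_ne_zero _).2 h0), map_zpow₀] at h1
  exact h1

theorem sDv_rank {K E : Type} [Field K] [IsAlgClosed K] [Field E] [Algebra K E] (hE : FF K E 1)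
    (O : DV K E) : Module.finrank K O.K = 1 := by
  have h := (O.ff_K (j := 0) hE).tr
  have : Algebra.IsAlgebraic K O.K := trdeg_eq_zero_iff.1 (by simpa using h)
  have hb : Function.Bijective (algebraMap K O.K) := IsAlgClosed.algebraMap_bijective_of_isIntegral
  rw [← (LinearEquiv.ofBijective (Algebra.linearMap K O.K) hb).finrank_eq, Module.finrank_self]

theorem sDv {K : Type} [Field K] [IsAlgClosed K] (h1 : SPl K) (h2 : SCtr K) : SDv K := by
  intro A _ _ _ _ _ _ _ hE u hu hinf
  classical
  obtain ⟨p1, p2, p3, p4, -, -⟩ := h1 A hE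
  choose O hO using p1
  have hinj : Function.Injective O := fun β β' e => p4 β β' (O β) (hO β) (e ▸ hO β')
  have hfin : (Function.support fun β => (O β).ord u).Finite :=
    (fs_one hE u).preimage hinj.injOn
  let ν : (A →ₐ[K] K) →₀ ℤ := Finsupp.ofSupportFinite _ hfin
  have hν0 : ∀ β, ν β = (O β).ord u := fun _ => rfl
  have hν : ∀ β O', Pl β O' → ν β = O'.ord u := fun β O' h => by
    rw [hν0, p3 β _ _ (hO β) h]
  have last : ∀ (Q : (A →ₐ[K] K) → Prop) (Q' : DV K (FractionRing A) → Prop),
      (∀ β O, Pl β O → (Q β ↔ Q' O)) →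
      (ν.sum fun β z => (open Classical in if Q β then (z : ℚ) else 0)) =
        ∑ᶠ O, (open Classical in if Q' O then (O.ord u : ℚ) else 0) := by
    intro Q Q' hQ
    rw [finsum_eq_sum_of_support_subset (s := ν.support.image O), Finset.sum_image hinj.injOn]
    · refine Finset.sum_congr rfl fun β _ => ?_
      simp only [hν0, hQ β _ (hO β)]
    · intro O' hO'
      have h0 : O'.ord u ≠ 0 := fun h0 => hO' (by simp [h0])
      obtain ⟨β, hβ⟩ := p2 O' (by
        by_contra hc
        exact h0 (hinf O' hc))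
      rw [Finset.coe_image]
      exact ⟨β, Finsupp.mem_support_iff.2 (by rwa [hν β O' hβ]), p3 β _ _ (hO β) hβ⟩
  refine ⟨ν, ⟨hu, fun V hV => ⟨fun hx => ?_, fun β hβ π hπ hπ2 => ?_⟩⟩, ?_, hν, last⟩
  · obtain ⟨O', rfl⟩ := exists_dv_of_val hE V (by rintro rfl; exact hx trivial) hV
    exact sDv_one O'.O hu (hinf O' hx)
  · have hπ0 : π ≠ 0 := by
      rintro rfl
      exact hπ2 (zero_mem _)
    have hπL : algebraMap A (FractionRing A) π ≠ 0 :=
      (map_ne_zero_iff _ (IsFractionRing.injective A _)).2 hπ0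
    have hlt : ∀ b : A, β b = 0 → algebraMap A (FractionRing A) b ∈ V.nonunits := fun b hb => by
      have := hβ b
      rw [hb, map_zero, sub_zero] at this
      exact (V.mem_nonunits_iff).2 this
    have htop : V ≠ ⊤ := by
      rintro rfl
      rcases (ValuationSubring.mem_nonunits_iff_or _).1 (hlt π hπ) with h | h
      · exact hπL h
      · exact h trivial
    obtain ⟨O', rfl⟩ := exists_dv_of_val hE V htop hV
    have hP : Pl β O' := fun a => by
      have := hβ a
      rwa [map_sub, ← IsScalarTower.algebraMap_apply] at this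
    obtain ⟨-, c2, c3, -⟩ := h2 _ hE O'
    obtain ⟨v, hv⟩ := exists_heightOne (B := A) O'.O htop fun b => c2 _ _ (hP b)
    have hs := (heightOne_spec (L := FractionRing A) v).2.2.1
    rw [← hv] at hs
    have hk : v.asIdeal = RingHom.ker β := by
      ext b
      rw [← hs, RingHom.mem_ker]
      refine ⟨fun h => c3 _ _ _ (hP b) ?_, hlt b⟩
      rw [Near, map_zero, sub_zero]
      exact (O'.O.mem_nonunits_iff).1 h
    have ho : ord O'.O (algebraMap A (FractionRing A) π) = 1 := by
      have h3 := ord_eq_multiplicity (L := FractionRing A) v hπ0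
      rw [← hv, hk, multiplicity_eq_of_dvd_of_not_dvd (k := 1)
        (by rw [pow_one]; exact Ideal.dvd_span_singleton.2 hπ)
        fun h => hπ2 (Ideal.dvd_span_singleton.1 h)] at h3
      exact_mod_cast h3
    rw [hν β O' hP]
    exact sDv_pow O'.O hu hπL ho
  · have h3 := last (fun _ => True) (fun _ => True) fun _ _ _ => Iff.rfl
    have h4 := prod_formula hE u
    simp only [sDv_rank hE, Nat.cast_one, mul_one] at h4
    simp only [if_true, h4] at h3
    have h5 : ((ν.sum fun _ z => z : ℤ) : ℚ) = 0 := by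
      rw [← h3, Finsupp.sum, Finsupp.sum, Int.cast_sum]
    exact_mod_cast h5

end Pool.Agent.MP_a9d3bd_yy
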