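import Pool.Agent.MP_a9d3bd_yy.St

/-! Points and places. -/

namespace Pool.Agent.MP_a9d3bd_yy

open Polynomial IntermediateField Pool.Agent.MP_a9d3bd_q

theorem sPl_ne_top {E : Type} [Field E] (U : ValuationSubring E)
    (h : IsDiscreteValuationRing U) : U ≠ ⊤ := by
  intro hU
  obtain ⟨π, hπ⟩ := IsDiscreteValuationRing.exists_irreducible U
  have h0 : (π : E) ≠ 0 := fun h0 => hπ.ne_zero (Subtype.ext h0)
  have hi : (π : E)⁻¹ ∈ U := hU.ge (ValuationSubring.mem_top _)
  exact hπ.not_isUnit (IsUnit.of_mul_eq_one ⟨_, hi⟩ (Subtype.ext (mul_inv_cancel₀ h0)))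

theorem sPl_add {K E : Type} [Field K] [Field E] [Algebra K E] {O : ValuationSubring E}
    {z w : E} {a b : K} (h : Near O z a) (h' : Near O w b) : Near O (z + w) (a + b) := by
  unfold Near at *
  rw [map_add, add_sub_add_comm]
  exact O.valuation.map_add_lt h h'

theorem sPl_mul {K E : Type} [Field K] [Field E] [Algebra K E] {O : ValuationSubring E}
    {z w : E} {a b : K} (hz : z ∈ O) (hb : algebraMap K E b ∈ O) (h : Near O z a)
    (h' : Near O w b) : Near O (z * w) (a * b) := by
  unfold Near at *
  have e : z * w - algebraMap K E (a * b) =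
      (w - algebraMap K E b) * z + (z - algebraMap K E a) * algebraMap K E b := by
    rw [map_mul]; ring
  rw [e]
  refine O.valuation.map_add_lt ?_ ?_
  · rw [map_mul]
    exact mul_lt_one_of_lt_of_le h' ((O.valuation_le_one_iff _).2 hz)
  · rw [map_mul]
    exact mul_lt_one_of_lt_of_le h ((O.valuation_le_one_iff _).2 hb)

theorem sPl_const {K E : Type} [Field K] [Field E] [Algebra K E] (O : ValuationSubring E)
    (a : K) : Near O (algebraMap K E a) a := by
  unfold Near
  rw [sub_self, map_zero]
  exact zero_lt_one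

section
variable {K : Type} [Field K] {A : Type} [CommRing A] [IsDedekindDomain A] [Algebra K A]
  [Algebra K[X] A] [IsScalarTower K K[X] A]

omit [IsDedekindDomain A] [Algebra K[X] A] [IsScalarTower K K[X] A] in
theorem sPl_c (c : K) :
    algebraMap K (FractionRing A) c = algebraMap A (FractionRing A) (algebraMap K A c) :=
  IsScalarTower.algebraMap_apply K A (FractionRing A) c

omit [IsDedekindDomain A] in
theorem sPl_C (c : K) : algebraMap K[X] A (C c) = algebraMap K A c :=
  (IsScalarTower.algebraMap_apply K K[X] A c).symm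

theorem sPl_int [Module.Finite K[X] A] (O : DV K (FractionRing A)) (hx : xL K A ∈ O.O) (a : A) :
    algebraMap A (FractionRing A) a ∈ O.O := by
  have hp : ∀ p : K[X],
      ((algebraMap A (FractionRing A)).comp (algebraMap K[X] A)) p ∈ O.O := by
    intro p
    induction p using Polynomial.induction_on with
    | C c =>
      rw [RingHom.comp_apply, sPl_C, ← sPl_c]
      exact O.const c
    | add p q hp hq => rw [map_add]; exact add_mem hp hq
    | monomial n c h => rw [pow_succ, ← mul_assoc, map_mul]; exact mul_mem h hx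
  have h' : IsIntegral K[X] a := Algebra.IsIntegral.isIntegral a
  have h'' : IsIntegral O.O (algebraMap A (FractionRing A) a) := by
    obtain ⟨p, hm, hp0⟩ := h'
    refine ⟨p.map (((algebraMap A (FractionRing A)).comp (algebraMap K[X] A)).codRestrict O.O hp),
      hm.map _, ?_⟩
    rw [Polynomial.eval₂_map]
    have := congrArg (algebraMap A (FractionRing A)) hp0
    rw [Polynomial.hom_eval₂, map_zero] at this
    exact this
  obtain ⟨y, hy⟩ := IsIntegrallyClosed.algebraMap_eq_of_integral h''
  exact hy ▸ y.2

omit [Algebra K[X] A] [IsScalarTower K K[X] A] in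
theorem sPl_dv (hE : FF K (FractionRing A) 1) (v : IsDedekindDomain.HeightOneSpectrum A) :
    ∃ O : DV K (FractionRing A), O.O = (v.valuation (FractionRing A)).valuationSubring := by
  obtain ⟨h1, h2, -⟩ := heightOne_spec (L := FractionRing A) v
  refine exists_dv_of_val hE _ (sPl_ne_top _ h1) fun c => ?_
  rw [sPl_c]
  exact h2 _

end

theorem sPl {K : Type} [Field K] [IsAlgClosed K] (h1 : SCtr K) : SPl K := by
  intro A _ _ _ _ _ _ _ hE
  have hc := h1 (FractionRing A) hE
  have key : ∀ (β : A →ₐ[K] K) (O : DV K (FractionRing A)), Pl β O →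
      ∃ v : IsDedekindDomain.HeightOneSpectrum A,
        O.O = (v.valuation (FractionRing A)).valuationSubring ∧
          ∀ b, b ∈ v.asIdeal ↔ β b = 0 := by
    intro β O h
    obtain ⟨v, hv⟩ := exists_heightOne (B := A) O.O (sPl_ne_top _ O.dvr)
      fun b => (hc O).2.1 _ _ (h b)
    refine ⟨v, hv, fun b => ?_⟩
    obtain ⟨-, -, h3, -⟩ := heightOne_spec (L := FractionRing A) v
    rw [← h3, ← hv, ValuationSubring.mem_nonunits_iff]
    have e : O.O.valuation (algebraMap A (FractionRing A) b) < 1 ↔
        Near O.O (algebraMap A (FractionRing A) b) (0 : K) := by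
      unfold Near
      rw [map_zero, sub_zero]
    rw [e]
    exact ⟨fun h0 => (hc O).2.2.1 _ _ _ (h b) h0, fun h0 => h0 ▸ h b⟩
  refine ⟨fun β => ?_, fun O hx => ?_, fun β O O' h h' => ?_, fun β β' O h h' => ?_,
    fun β O h => (hc O).2.1 _ _ (h _), fun z hz => ?_⟩
  · have hinj : Function.Injective (algebraMap K[X] A) :=
      Module.isTorsionFree_iff_algebraMap_injective.1 inferInstance
    have hk : ∀ a : A, a - algebraMap K A (β a) ∈ RingHom.ker β := fun a => by
      rw [RingHom.mem_ker, map_sub, AlgHom.commutes]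
      exact sub_self _
    have hne : RingHom.ker β ≠ ⊥ := by
      intro h0
      have h2 := hk (xA K A)
      rw [h0, Ideal.mem_bot, ← sPl_C, ← map_sub, map_eq_zero_iff _ hinj] at h2
      exact X_sub_C_ne_zero _ h2
    let v : IsDedekindDomain.HeightOneSpectrum A := ⟨RingHom.ker β, RingHom.ker_isPrime _, hne⟩
    obtain ⟨O, hO⟩ := sPl_dv hE v
    obtain ⟨-, -, h3, -⟩ := heightOne_spec (L := FractionRing A) v
    refine ⟨O, fun a => ?_⟩
    have h4 := (h3 _).2 (hk a)
    rw [← hO, ValuationSubring.mem_nonunits_iff, map_sub, ← sPl_c] at h4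
    exact h4
  · have hA := sPl_int O hx
    choose f hf using fun a : A => (hc O).1 _ (hA a)
    have hu := (hc O).2.2.1
    have hf0 : ∀ c : K, f (algebraMap K A c) = c := fun c =>
      hu _ _ _ (hf _) (by rw [← sPl_c]; exact sPl_const _ c)
    let β : A →ₐ[K] K :=
      { toFun := f
        map_one' := by simpa using hf0 1
        map_zero' := by simpa using hf0 0
        map_mul' := fun a b => hu _ _ _ (hf _)
          (by rw [map_mul]; exact sPl_mul (hA a) (O.const _) (hf a) (hf b))
        map_add' := fun a b => hu _ _ _ (hf _) (by rw [map_add]; exact sPl_add (hf a) (hf b))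
        commutes' := hf0 }
    exact ⟨β, hf⟩
  · obtain ⟨v, hv, hb⟩ := key β O h
    obtain ⟨v', hv', hb'⟩ := key β O' h'
    have : v = v' := IsDedekindDomain.HeightOneSpectrum.ext
      (Ideal.ext fun b => (hb b).trans (hb' b).symm)
    exact DV.ext (by rw [hv, hv', this])
  · exact AlgHom.ext fun a => (hc O).2.2.1 _ _ _ (h a) (h' a)
  · refine IsDedekindDomain.HeightOneSpectrum.mem_integers_of_valuation_le_one
      (FractionRing A) z fun v => ?_
    obtain ⟨O, hO⟩ := sPl_dv hE v
    obtain ⟨-, h2, -⟩ := heightOne_spec (L := FractionRing A) v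
    have := hz O (by rw [hO]; exact h2 _)
    rw [hO] at this
    exact this

end Pool.Agent.MP_a9d3bd_yy
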