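import Pool.Agent.MP_a9d3bd_yy.St

/-! Almost every member of a pencil is a separating element. -/

namespace Pool.Agent.MP_a9d3bd_yy

open Polynomial IntermediateField Pool.Agent.MP_a9d3bd_q

/-- a relation with a derivative that does not vanish -/
theorem sSep_rel {K E ι : Type} [Field K] [PerfectField K] [Field E] [Algebra K E] (a : ι → E)
    (h : ¬ AlgebraicIndependent K a) : ∃ F : MvPolynomial ι K, MvPolynomial.aeval a F = 0 ∧
      ∃ i, MvPolynomial.aeval a (MvPolynomial.pderiv i F) ≠ 0 := by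
  classical
  have hex : ∃ n, ∃ F : MvPolynomial ι K, F ≠ 0 ∧ MvPolynomial.aeval a F = 0 ∧
      F.totalDegree = n := by
    rw [algebraicIndependent_iff] at h
    push Not at h
    obtain ⟨F, h1, h2⟩ := h
    exact ⟨_, F, h2, h1, rfl⟩
  obtain ⟨F, hF0, hFa, hFd⟩ := Nat.find_spec hex
  have hmin : ∀ G : MvPolynomial ι K, G ≠ 0 → MvPolynomial.aeval a G = 0 →
      F.totalDegree ≤ G.totalDegree := fun G h1 h2 => hFd ▸ Nat.find_min' hex ⟨G, h1, h2, rfl⟩
  obtain ⟨i, σ, hσ, hi⟩ : ∃ i, ∃ σ ∈ F.support, ((σ i : ℕ) : K) ≠ 0 := by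
    obtain _ | ⟨p, hp, hpk⟩ := CharP.exists' K
    · by_contra hn
      push Not at hn
      have h1 : F.totalDegree = 0 := by
        rw [MvPolynomial.totalDegree_eq_zero_iff]
        intro σ hσ i
        exact_mod_cast hn i σ hσ
      rw [MvPolynomial.totalDegree_eq_zero_iff_eq_C.mp h1, MvPolynomial.aeval_C,
        map_eq_zero] at hFa
      rw [MvPolynomial.totalDegree_eq_zero_iff_eq_C.mp h1, hFa, map_zero] at hF0
      exact hF0 rfl
    · have : ExpChar K p := .prime hp.out
      have : CharP E p := .of_ringHom_of_ne_zero (algebraMap K E) p hp.out.ne_zero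
      obtain ⟨i, σ, hσ, hi⟩ := MvPolynomial.exists_mem_support_not_dvd_of_forall_totalDegree_le
        p hp.out (fun s hs => by
          apply hs.map_of_injective_injective (frobeniusEquiv K p).symm
            (frobenius E p).toAddMonoidHom <;>
          simp [frobenius, Algebra.smul_def, mul_pow, ← map_pow, frobeniusEquiv_symm_pow])
        hmin hF0 hFa
      exact ⟨i, σ, hσ, fun e => hi ((CharP.cast_eq_zero_iff K p _).1 e)⟩
  refine ⟨F, hFa, i, fun e => ?_⟩
  have hi0 : σ i ≠ 0 := by
    intro e0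
    rw [e0] at hi
    exact hi Nat.cast_zero
  have h1 : σ - Finsupp.single i 1 + Finsupp.single i 1 = σ :=
    tsub_add_cancel_of_le (Finsupp.single_le_iff.2 (Nat.one_le_iff_ne_zero.2 hi0))
  have h2 : MvPolynomial.pderiv i F ≠ 0 := by
    intro e0
    have h3 := MvPolynomial.coeff_pderiv (i := i) F (σ - Finsupp.single i 1)
    have h4 := congrArg (fun m : ι →₀ ℕ => ((m i : ℕ) : K)) h1
    simp only [Finsupp.add_apply, Finsupp.single_eq_same, Nat.cast_add, Nat.cast_one] at h4
    rw [e0, h1, h4, MvPolynomial.coeff_zero] at h3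
    exact mul_ne_zero (MvPolynomial.mem_support_iff.1 hσ) hi h3.symm
  refine absurd (hmin _ h2 e) (not_le.2 ?_)
  obtain ⟨m, hm, hd⟩ := Finset.exists_mem_eq_sup (MvPolynomial.pderiv i F).support
    (MvPolynomial.support_nonempty.2 h2) fun s => s.sum fun _ e => e
  have h5 : m + Finsupp.single i 1 ∈ F.support := by
    rw [MvPolynomial.mem_support_iff] at hm ⊢
    rw [MvPolynomial.coeff_pderiv] at hm
    exact left_ne_zero_of_mul hm
  have h6 := MvPolynomial.le_totalDegree h5
  rw [Finsupp.sum_add_index' (fun _ => rfl) (fun _ _ _ => rfl),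
    Finsupp.sum_single_index rfl] at h6
  rw [MvPolynomial.totalDegree, hd]
  exact h6

theorem sSep_der {K L E : Type} [Field K] [Field L] [Field E] [Algebra K L] [Algebra L E]
    [Algebra K E] [IsScalarTower K L E] (ξ ζ : E) (x s : L)
    (hx : algebraMap L E x = ξ + algebraMap L E s * ζ) (F : MvPolynomial (Fin 2) K) :
    aeval ζ (MvPolynomial.aeval ![C x - C s * X, X] F : L[X]) = MvPolynomial.aeval ![ξ, ζ] F ∧
    aeval ζ (derivative (MvPolynomial.aeval ![C x - C s * X, X] F : L[X])) =
      MvPolynomial.aeval ![ξ, ζ] (MvPolynomial.pderiv 1 F) -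
        algebraMap L E s * MvPolynomial.aeval ![ξ, ζ] (MvPolynomial.pderiv 0 F) := by
  induction F using MvPolynomial.induction_on with
  | C c =>
    constructor
    · rw [MvPolynomial.aeval_C, MvPolynomial.aeval_C, Polynomial.algebraMap_apply, aeval_C,
        ← IsScalarTower.algebraMap_apply]
    · simp [Polynomial.algebraMap_apply]
  | add p q hp hq =>
    simp only [map_add, hp.1, hp.2, hq.1, hq.2, true_and]
    ring
  | mul_X p i hp =>
    simp only [map_mul, derivative_mul, map_add, hp.1, hp.2, Derivation.leibniz, smul_eq_mul,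
      MvPolynomial.aeval_X]
    fin_cases i
    · simp [hx]
      ring
    · simp
      ring

theorem sSep {K : Type} [Field K] [IsAlgClosed K] : SSep K := by
  intro E _ _ hE ξ ζ hna
  have hdep : ¬ AlgebraicIndependent K ![ξ, ζ] := fun h => by
    have := h.cardinalMk_le_trdeg
    rw [hE.tr] at this
    simp at this
  obtain ⟨F, hF, i, hi⟩ := sSep_rel _ hdep
  refine Set.Finite.subset (s := {s : K | MvPolynomial.aeval ![ξ, ζ] (MvPolynomial.pderiv 1 F) -
    algebraMap K E s * MvPolynomial.aeval ![ξ, ζ] (MvPolynomial.pderiv 0 F) = 0})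
    (Set.Subsingleton.finite fun s hs t ht => ?_) fun s hs => ?_
  · rw [Set.mem_ofPred_eq, sub_eq_zero] at hs ht
    have h0 : MvPolynomial.aeval ![ξ, ζ] (MvPolynomial.pderiv 0 F) ≠ 0 := by
      intro e
      rw [e, mul_zero] at hs
      fin_cases i
      exacts [hi e, hi hs]
    exact (algebraMap K E).injective (mul_right_cancel₀ h0 (hs.symm.trans ht))
  · by_contra hn
    refine hs ?_
    obtain ⟨x, hx⟩ : ∃ x, x = ξ + algebraMap K E s * ζ := ⟨_, rfl⟩
    rw [← hx]
    have e0 : algebraMap K⟮x⟯ E (algebraMap K K⟮x⟯ s) = algebraMap K E s :=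
      (IsScalarTower.algebraMap_apply K K⟮x⟯ E s).symm
    obtain ⟨h1, h2⟩ := sSep_der (K := K) ξ ζ (AdjoinSimple.gen K x) (algebraMap K K⟮x⟯ s)
      (by rw [e0]; exact hx) F
    rw [hF] at h1
    rw [e0] at h2
    generalize (MvPolynomial.aeval _ F : K⟮x⟯[X]) = G at h1 h2
    have h3 : aeval ζ (derivative G) ≠ 0 := fun e => hn (h2.symm.trans e)
    have hG : G ≠ 0 := by
      rintro rfl
      simp at h3
    have hint : IsIntegral K⟮x⟯ ζ := IsAlgebraic.isIntegral ⟨G, hG, h1⟩
    constructor
    · intro ha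
      have := (adjoin.finiteDimensional ha.isIntegral : FiniteDimensional K K⟮x⟯)
      have h4 : IsIntegral K ζ := isIntegral_trans ζ hint
      refine hna ⟨?_, h4.isAlgebraic⟩
      rw [show ξ = x - algebraMap K E s * ζ by rw [hx]; ring]
      exact (ha.isIntegral.sub (isIntegral_algebraMap.mul h4)).isAlgebraic
    · refine (separable_iff_derivative_ne_zero (minpoly.irreducible hint)).2 fun e => h3 ?_
      obtain ⟨q, rfl⟩ := minpoly.dvd _ _ h1
      rw [derivative_mul, e, zero_mul, zero_add, map_mul, minpoly.aeval, zero_mul]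

end Pool.Agent.MP_a9d3bd_yy
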