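import Pool.Agent.MP_a9d3bd_yy.St

/-! Averaging over the Galois group. -/

namespace Pool.Agent.MP_a9d3bd_yy

open Polynomial IntermediateField Pool.Agent.MP_a9d3bd_q

theorem sBA_avg {B Γ : Type} [Group Γ] [Fintype Γ] (e : Γ → B ≃ B) (O : Finset B) (c : B → ℚ)
    (β : B) (hβ : β ∈ O) (h1 : ∀ g b, b ∈ O ↔ e g b ∈ O)
    (h2 : ∀ b ∈ O, ∃ h, ∀ g, e g b = e (h * g) β) (h3 : ∑ b ∈ O, c b = 0) :
    ∑ g, c (e g β) = 0 := by
  have k1 : ∀ b ∈ O, ∑ g, c (e g b) = ∑ g, c (e g β) := by
    intro b hb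
    obtain ⟨h, hh⟩ := h2 b hb
    simp only [hh]
    exact Equiv.sum_comp (Equiv.mulLeft h) fun g => c (e g β)
  have k2 : ∑ b ∈ O, ∑ g, c (e g b) = 0 := by
    rw [Finset.sum_comm]
    refine Finset.sum_eq_zero fun g _ => ?_
    rw [← h3]
    exact Finset.sum_equiv (e g) (h1 g) fun _ _ => rfl
  rw [Finset.sum_congr rfl k1, Finset.sum_const, nsmul_eq_mul] at k2
  refine (mul_eq_zero.1 k2).resolve_left ?_
  exact_mod_cast Finset.card_ne_zero_of_mem hβ

theorem sBA {K : Type} [Field K] [IsAlgClosed K] (h1 : SConj K) : SBA K := by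
  classical
  intro P Λ hΛ hA A _ _ _ _ _ _ _ hG hF J _ t w u ν r a1 a2 a3 a4 a5 a6
  obtain ⟨b1, b2, b3⟩ := h1 A hG
  choose G e c1 c2 c3 using b3
  have := hG.fin
  let _ := Fintype.ofFinite (A ≃ₐ[K[X]] A)
  have gx : ∀ g : A ≃ₐ[K[X]] A, g (xA K A) = xA K A := fun g => g.commutes X
  have ex : ∀ g β, e g β (xA K A) = β (xA K A) := fun g β => by rw [c2, gx]
  have key := hA A hG hF (J × (A ≃ₐ[K[X]] A)) (fun p => p.2 (t p.1)) (fun p => p.2 (w p.1))
    (fun p => G p.2 (u p.1)) (fun p => Finsupp.equivMapDomain (e p.2).symm (ν p.1))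
    (fun p => r p.1)
    (fun p => by
      have := congrArg (p.2.toAlgHom.restrictScalars K) (a1 p.1)
      rw [map_zero, MvPolynomial.comp_aeval_apply] at this
      rw [← this]
      congr 2
      funext i
      fin_cases i <;> simp)
    (fun p => c3 _ _ _ (a2 p.1))
    (fun p => by rw [Finsupp.sum_equivMapDomain]; exact a3 p.1)
    (fun p => by
      obtain ⟨β, hβ⟩ := a4 p.1
      refine ⟨(e p.2).symm β, ?_⟩
      rwa [← ex p.2, ← c2, Equiv.apply_symm_apply])
    (fun p β hβ => by
      have := a5 p.1 (e p.2 β) (by simpa using hβ)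
      rwa [ex, c2] at this)
    (fun β t0 w0 => by
      have h := sBA_avg e (b2 (β (xA K A))).toFinset
        (fun b => ∑ j, if b (t j) = t0 ∧ b (w j) = w0 then r j * (ν j b : ℚ) else 0) β (by simp)
        (fun g b => by simp [ex])
        (fun b hb => by
          obtain ⟨h, hh⟩ := b1 β b (by simpa [eq_comm] using hb)
          exact ⟨h, fun g => AlgHom.ext fun a => by rw [c2, c2, hh]; rfl⟩)
        (by
          rw [Finset.sum_comm]
          refine Eq.trans (Finset.sum_congr rfl fun j _ => ?_) (a6 (β (xA K A)) t0 w0)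
          rw [Finsupp.sum, Finset.mul_sum]
          refine Finset.sum_congr_of_eq_on_inter (fun b _ hb => ?_) (fun b _ hb => ?_)
            fun b hb _ => ?_
          · simp [Finsupp.notMem_support_iff.1 hb]
          · rw [if_neg, mul_zero]
            exact fun k => hb (by simpa using k.1)
          · have hb' : b (xA K A) = β (xA K A) := by simpa using hb
            simp [hb'])
      rw [Fintype.sum_prod_type_right]
      refine Eq.trans (Finset.sum_congr rfl fun g _ => Finset.sum_congr rfl fun j _ => ?_) h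
      simp [c2])
  have e1 : ∀ (g : A ≃ₐ[K[X]] A) (j : J), Λ (FractionRing A)
      ![1, xL K A, algebraMap A _ (g (t j)), algebraMap A _ (g (w j))] (G g (u j)) =
      Λ (FractionRing A) ![1, xL K A, algebraMap A _ (t j), algebraMap A _ (w j)] (u j) := by
    intro g j
    have := hΛ.ext _ _ hF hF (G g).toAlgHom
      ![1, xL K A, algebraMap A _ (t j), algebraMap A _ (w j)] (u j)
    rw [hdeg_eq_one (AlgHom.fieldRange_eq_top.2 (G g).surjective)] at this
    simp only [Nat.cast_one, one_mul] at this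
    rw [← this]
    congr 1
    funext i
    fin_cases i <;> simp [c1, gx]
  rw [Fintype.sum_prod_type_right] at key
  simp only [e1] at key
  rw [Finset.sum_const, nsmul_eq_mul] at key
  refine (mul_eq_zero.1 key).resolve_left ?_
  exact_mod_cast Finset.card_ne_zero_of_mem (Finset.mem_univ (1 : A ≃ₐ[K[X]] A))

end Pool.Agent.MP_a9d3bd_yy
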