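import Pool.Agent.MP_a9d3bd_yy.St

/-! Conjugation of points and of divisors by the Galois group. -/

namespace Pool.Agent.MP_a9d3bd_yy

open Polynomial IntermediateField Pool.Agent.MP_a9d3bd_q

section
variable {K : Type} [Field K] {A : Type} [CommRing A] [Algebra K A] [Algebra K[X] A]
  [IsScalarTower K K[X] A]

theorem sConj_fix (g : A ≃ₐ[K[X]] A) (c : K) : g (algebraMap K A c) = algebraMap K A c := by
  rw [IsScalarTower.algebraMap_apply K K[X] A, g.commutes]

open scoped Pointwise in
theorem sConj_tr (hG : Gal K A) (β β' : A →ₐ[K] K) (h : β (xA K A) = β' (xA K A)) :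
    ∃ g : A ≃ₐ[K[X]] A, ∀ a, β' a = β (g a) := by
  have := hG.fin
  have : Algebra.IsInvariant K[X] A (A ≃ₐ[K[X]] A) := ⟨fun b hb => hG.inv b hb⟩
  have := RingHom.ker_isPrime β
  have := RingHom.ker_isPrime β'
  have e : β.comp (IsScalarTower.toAlgHom K K[X] A) = β'.comp (IsScalarTower.toAlgHom K K[X] A) :=
    Polynomial.algHom_ext h
  obtain ⟨g, hg⟩ := Algebra.IsInvariant.exists_smul_of_under_eq K[X] A (A ≃ₐ[K[X]] A)
    (RingHom.ker β) (RingHom.ker β') (by
      ext p
      have := DFunLike.congr_fun e p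
      simp only [AlgHom.comp_apply, IsScalarTower.toAlgHom_apply] at this
      simp only [Ideal.under, Ideal.mem_comap, RingHom.mem_ker, this])
  refine ⟨g⁻¹, fun a => ?_⟩
  have h1 : a - algebraMap K A (β' a) ∈ RingHom.ker β' := by
    rw [RingHom.mem_ker, map_sub, AlgHom.commutes]
    exact sub_self _
  rw [hg, Ideal.mem_pointwise_smul_iff_inv_smul_mem, RingHom.mem_ker, AlgEquiv.smul_def, map_sub,
    sConj_fix, map_sub, AlgHom.commutes, sub_eq_zero] at h1
  exact h1.symm

/-- Composition with `g`. -/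
noncomputable def sConj_e (g : A ≃ₐ[K[X]] A) : (A →ₐ[K] K) ≃ (A →ₐ[K] K) where
  toFun β := β.comp (g.restrictScalars K : A →ₐ[K] A)
  invFun β := β.comp (g.symm.restrictScalars K : A →ₐ[K] A)
  left_inv β := AlgHom.ext fun a => congrArg β (g.apply_symm_apply a)
  right_inv β := AlgHom.ext fun a => congrArg β (g.symm_apply_apply a)

end

theorem sConj_eqv {E : Type} [Field E] (G : E →+* E) (O : ValuationSubring E) :
    (O.comap G).valuation.IsEquiv (O.valuation.comap G) := by
  rw [Valuation.isEquiv_iff_val_le_one]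
  intro x
  rw [ValuationSubring.valuation_le_one_iff, Valuation.comap_apply,
    ValuationSubring.valuation_le_one_iff, ValuationSubring.mem_comap]

theorem sConj {K : Type} [Field K] [IsAlgClosed K] : SConj K := by
  intro A _ _ _ _ _ _ _ hG
  refine ⟨sConj_tr hG, fun x0 => ?_, fun g => ?_⟩
  · have := hG.fin
    rcases Set.eq_empty_or_nonempty {β : A →ₐ[K] K | β (xA K A) = x0} with h | ⟨β0, h0⟩
    · rw [h]
      exact Set.finite_empty
    · refine (Set.finite_range fun g : A ≃ₐ[K[X]] A => sConj_e g β0).subset fun β hβ => ?_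
      obtain ⟨g, hg⟩ := sConj_tr hG β0 β (h0.trans hβ.symm)
      exact ⟨g, AlgHom.ext fun a => (hg a).symm⟩
  · let G : FractionRing A ≃ₐ[K] FractionRing A :=
      IsFractionRing.algEquivOfAlgEquiv (g.restrictScalars K)
    have hGa : ∀ a : A, G (algebraMap A _ a) = algebraMap A _ (g a) := fun a =>
      IsFractionRing.algEquivOfAlgEquiv_algebraMap (g.restrictScalars K) a
    refine ⟨G, sConj_e g, hGa, fun _ _ => rfl, fun u ν hu => ⟨?_, fun O hO => ?_⟩⟩
    · exact (map_ne_zero G).2 hu.1
    let G' : FractionRing A →+* FractionRing A := G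
    have hG' : ∀ z, G' z = G z := fun _ => rfl
    have hv := sConj_eqv G' O
    obtain ⟨h1, h2⟩ := hu.2 (O.comap G') fun c => by
      rw [ValuationSubring.mem_comap, hG', G.commutes]
      exact hO c
    refine ⟨fun hx => ?_, fun β hβ π hπ hπ2 => ?_⟩
    · refine hv.eq_one_iff_eq_one.1 (h1 fun hx' => hx ?_)
      rw [ValuationSubring.mem_comap, hG', hGa, g.commutes] at hx'
      exact hx'
    · have h3 := h2 (sConj_e g β) (fun a => by
        refine hv.lt_one_iff_lt_one.2 ?_
        rw [Valuation.comap_apply, hG', hGa, map_sub, sConj_fix]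
        exact hβ (g a)) (g.symm π) (by
          change β (g (g.symm π)) = 0
          rw [g.apply_symm_apply, hπ]) (fun hm => hπ2 (by
          have h4 : (RingHom.ker (sConj_e g β)).map g ≤ RingHom.ker β :=
            Ideal.map_le_iff_le_comap.2 fun a ha => ha
          have h5 := Ideal.mem_map_of_mem g hm
          rw [Ideal.map_pow, g.apply_symm_apply] at h5
          exact Ideal.pow_right_mono h4 2 h5))
      rw [← map_zpow₀, hv.eq_iff, Valuation.comap_apply, Valuation.comap_apply, map_zpow₀,
        map_zpow₀, hG', hG', hGa, g.apply_symm_apply] at h3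
      rw [Finsupp.equivMapDomain_apply, Equiv.symm_symm]
      exact h3

end Pool.Agent.MP_a9d3bd_yy
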