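import Pool.Agent.MP_a9d3bd_yy.St

namespace Pool.Agent.MP_a9d3bd_yy

open Polynomial IntermediateField Pool.Agent.MP_a9d3bd_q

theorem sRing_field (F : Type) [Field F] (J : Type) [Fintype J] (E : J → Type)
    [∀ j, Field (E j)] [∀ j, Algebra F (E j)] [∀ j, FiniteDimensional F (E j)]
    [∀ j, Algebra.IsSeparable F (E j)] :
    ∃ (L : Type) (_ : Field L) (_ : Algebra F L), FiniteDimensional F L ∧ IsGalois F L ∧
      ∀ j, Nonempty (E j →ₐ[F] L) := by
  let φ : ∀ j, E j →ₐ[F] SeparableClosure F := fun j => IsSepClosed.lift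
  let s : Set (SeparableClosure F) := ⋃ j, Set.range fun i => φ j (Module.finBasis F (E j) i)
  have hs : Finite s := Set.finite_iUnion fun j => Set.finite_range _
  let L := FiniteGaloisIntermediateField.adjoin F s
  refine ⟨L.toIntermediateField, inferInstance, inferInstance, inferInstance, inferInstance,
    fun j => ⟨(φ j).codRestrict L.toIntermediateField.toSubalgebra fun y => ?_⟩⟩
  rw [← (Module.finBasis F (E j)).sum_repr y, map_sum]
  refine Subalgebra.sum_mem _ fun i _ => ?_
  rw [map_smul]
  exact Subalgebra.smul_mem _ (FiniteGaloisIntermediateField.subset_adjoin F s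
    (Set.mem_iUnion.2 ⟨j, i, rfl⟩)) _

theorem sRing_alg {K E : Type} [Field K] [Field E] [Algebra K E] (x : E) (hE : FF K E 1)
    (hx : Transcendental K x) (hs : Algebra.IsSeparable K⟮x⟯ E) :
    ∃ _ : Algebra (RatFunc K) E, IsScalarTower K (RatFunc K) E ∧
      FiniteDimensional (RatFunc K) E ∧ Algebra.IsSeparable (RatFunc K) E ∧
      algebraMap (RatFunc K) E RatFunc.X = x := by
  let e := RatFunc.algEquivOfTranscendental x hx
  let : Algebra (RatFunc K) E := ((algebraMap K⟮x⟯ E).comp e.toRingEquiv.toRingHom).toAlgebra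
  have h : ∀ f, algebraMap (RatFunc K) E f = algebraMap K⟮x⟯ E (e f) := fun _ => rfl
  have hf : FiniteDimensional K⟮x⟯ E := hE.finite_of_alg _ inferInstance
  have hc : RingHom.comp (algebraMap (RatFunc K) E) e.symm.toRingEquiv =
      RingHom.comp (RingEquiv.refl E) (algebraMap K⟮x⟯ E) := by
    ext a
    simp [h]
  refine ⟨inferInstance, IsScalarTower.of_algebraMap_eq fun a => ?_,
    Module.Finite.of_equiv_equiv e.symm.toRingEquiv (RingEquiv.refl E) hc,
    Algebra.IsSeparable.of_equiv_equiv e.symm.toRingEquiv (RingEquiv.refl E) hc, ?_⟩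
  · rw [h, e.commutes]
    rfl
  · rw [h]
    simp [e]

theorem sRing_cover (K L : Type) [Field K] [Field L] [Algebra (RatFunc K) L] [Algebra K L]
    [IsScalarTower K (RatFunc K) L] [FiniteDimensional (RatFunc K) L] [IsGalois (RatFunc K) L] :
    ∃ (A : Type) (_ : CommRing A) (_ : IsDedekindDomain A) (_ : Algebra K A) (_ : Algebra K[X] A)
      (_ : IsScalarTower K K[X] A) (_ : Module.Finite K[X] A) (_ : Module.IsTorsionFree K[X] A),
      Gal K A ∧ ∃ e : L ≃ₐ[K] FractionRing A, e (algebraMap (RatFunc K) L RatFunc.X) = xL K A := by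
  let : Algebra K[X] L := ((algebraMap (RatFunc K) L).comp (algebraMap K[X] (RatFunc K))).toAlgebra
  have : IsScalarTower K[X] (RatFunc K) L := IsScalarTower.of_algebraMap_eq fun _ => rfl
  have : IsScalarTower K K[X] L := IsScalarTower.of_algebraMap_eq fun a => by
    rw [IsScalarTower.algebraMap_apply K[X] (RatFunc K) L,
      ← IsScalarTower.algebraMap_apply K K[X] (RatFunc K),
      ← IsScalarTower.algebraMap_apply K (RatFunc K) L]
  let A := integralClosure K[X] L
  have hD : IsDedekindDomain A := IsIntegralClosure.isDedekindDomain K[X] (RatFunc K) L A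
  have hF : Module.Finite K[X] A := IsIntegralClosure.finite K[X] (RatFunc K) L A
  have : IsFractionRing A L :=
    IsIntegralClosure.isFractionRing_of_finite_extension K[X] (RatFunc K) L A
  have : FaithfulSMul K[X] L := (faithfulSMul_iff_algebraMap_injective _ _).2
    ((algebraMap (RatFunc K) L).injective.comp (IsFractionRing.injective K[X] (RatFunc K)))
  have hT : Module.IsTorsionFree K[X] A := inferInstance
  have hinj : Function.Injective (algebraMap A L) := IsFractionRing.injective A L
  let g := galRestrict K[X] (RatFunc K) L A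
  have hfin : Finite (A ≃ₐ[K[X]] A) := Finite.of_equiv _ g.toEquiv
  refine ⟨A, inferInstance, hD, inferInstance, inferInstance, inferInstance, hF, hT,
    ⟨hfin, fun a ha => ?_, fun a => ?_⟩,
    (FractionRing.algEquiv A L).symm.restrictScalars K, ?_⟩
  · obtain ⟨f, hf⟩ := (IsGalois.mem_range_algebraMap_iff_fixed (F := RatFunc K)
      (algebraMap A L a)).2 fun σ => by
        rw [← algebraMap_galRestrict_apply K[X] σ a, ha]
    have hi : IsIntegral K[X] f := by
      rw [← isIntegral_algebraMap_iff (algebraMap (RatFunc K) L).injective, hf]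
      exact a.2
    obtain ⟨p, hp⟩ := IsIntegrallyClosed.algebraMap_eq_of_integral hi
    refine ⟨p, hinj ?_⟩
    rw [← IsScalarTower.algebraMap_apply, IsScalarTower.algebraMap_apply K[X] (RatFunc K) L, hp, hf]
  · let := Fintype.ofFinite (A ≃ₐ[K[X]] A)
    apply hinj
    rw [← IsScalarTower.algebraMap_apply, IsScalarTower.algebraMap_apply K[X] (RatFunc K) L,
      ← Algebra.intNorm_eq_norm, Algebra.algebraMap_intNorm (L := L),
      Algebra.norm_eq_prod_automorphisms, finprod_eq_prod_of_fintype, map_prod]
    exact Fintype.prod_equiv g.toEquiv _ _ fun σ =>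
      (algebraMap_galRestrict_apply K[X] σ a).symm
  · have : algebraMap (RatFunc K) L RatFunc.X = algebraMap A L (xA K A) := by
      rw [← IsScalarTower.algebraMap_apply, IsScalarTower.algebraMap_apply K[X] (RatFunc K) L,
        RatFunc.algebraMap_X]
    rw [this]
    exact (FractionRing.algEquiv A L).symm.commutes _

theorem sRing {K : Type} [Field K] [IsAlgClosed K] : SRing K := by
  intro J _ E _ _ x hE hx hs
  choose inst h1 h2 h3 h4 using fun j => sRing_alg (x j) (hE j) (hx j) (hs j)
  obtain ⟨L, _, _, hL1, hL2, hφ⟩ := sRing_field (RatFunc K) J E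
  let : Algebra K L := ((algebraMap (RatFunc K) L).comp (algebraMap K (RatFunc K))).toAlgebra
  have : IsScalarTower K (RatFunc K) L := IsScalarTower.of_algebraMap_eq fun _ => rfl
  obtain ⟨A, i1, i2, i3, i4, i5, i6, i7, hG, e, he⟩ := sRing_cover K L
  have hL : FF K L 1 := FF.of_tower (ff_ratFunc (ff_self (k := K))) (ff_zero_iff.2 hL1)
  refine ⟨A, i1, i2, i3, i4, i5, i6, i7, hG, T2_equiv hL e,
    fun j => e.toAlgHom.comp ((hφ j).some.restrictScalars K), fun j => ?_⟩
  rw [← he, ← h4 j]
  exact congrArg e ((hφ j).some.commutes _)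

end Pool.Agent.MP_a9d3bd_yy
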