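import Pool.Agent.MP_a9d3bd_yy.St

/-! Change of the field. -/

namespace Pool.Agent.MP_a9d3bd_yy

open Polynomial IntermediateField Pool.Agent.MP_a9d3bd_q

section
variable {K E L : Type} [Field K] [Field E] [Algebra K E] [Field L] [Algebra K L]

theorem sExt_near {ψ : E →ₐ[K] L} {O : DV K L} {V : DV K E} (h : Lies ψ O V) (z : E) (a : K) :
    Near O.O (ψ z) a ↔ Near V.O z a := by
  unfold Near
  have e : ψ z - algebraMap K L a = ψ (z - algebraMap K E a) := by
    rw [map_sub, AlgHom.commutes]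
  rw [e, ← ValuationSubring.mem_nonunits_iff, ← ValuationSubring.mem_nonunits_iff,
    ValuationSubring.mem_nonunits_iff_or, ValuationSubring.mem_nonunits_iff_or, ← map_inv₀,
    ← h, map_eq_zero_iff ψ ψ.toRingHom.injective]

theorem sExt_ord {ψ : E →ₐ[K] L} {O : DV K L} {V : DV K E} (h : Lies ψ O V) (z : E) :
    O.ord (ψ z) = 0 ↔ V.ord z = 0 := by
  rw [h.ord_eq, mul_eq_zero, or_iff_right h.e_pos.ne']

theorem sExt_hdeg [IsAlgClosed K] (hL : FF K L 1) {ψ : E →ₐ[K] L} {O : DV K L} {V : DV K E}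
    (h : Lies ψ O V) : hdeg h.hom = 1 := by
  have : FiniteDimensional K O.K := ff_zero_iff.1 (O.ff_K (j := 0) hL)
  refine hdeg_eq_one ?_
  rw [eq_top_iff]
  intro z _
  obtain ⟨a, rfl⟩ := (IsAlgClosed.algebraMap_bijective_of_isIntegral (k := K) (K := O.K)).2 z
  exact IntermediateField.algebraMap_mem _ a

theorem sExt_on (ψ : E →ₐ[K] L) (x t w : E) (P : MvPolynomial (Fin 3) K) :
    MvPolynomial.aeval ![ψ x, ψ t, ψ w] P = ψ (MvPolynomial.aeval ![x, t, w] P) := by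
  have e : (![ψ x, ψ t, ψ w] : Fin 3 → L) = fun i => ψ (![x, t, w] i) := by
    funext i
    fin_cases i <;> rfl
  rw [e, ← MvPolynomial.comp_aeval]
  rfl

end

theorem sExt {K : Type} [Field K] [IsAlgClosed K] (h1 : SCtr K) : SExt K := by
  classical
  have _h := h1
  intro E L _ _ _ _ hE hL ψ x t w u
  have hi : Function.Injective ψ := ψ.toRingHom.injective
  refine ⟨fun P => ⟨fun h => ?_, fun h => ?_⟩, fun x0 t0 w0 => ?_⟩
  · refine ⟨?_, ?_, ?_, fun V hx => ?_, fun V hx => ?_, ?_, fun V hu x0 w0 hx hw => ?_⟩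
    · have := h.on
      rw [sExt_on] at this
      exact (map_eq_zero_iff ψ hi).1 this
    · rintro rfl
      exact h.ne (map_zero ψ)
    · exact fun ha => h.tr (ha.algHom ψ)
    · obtain ⟨O, hO⟩ := exists_over (j := 0) hE hL ψ V
      obtain ⟨a, b⟩ := h.int O ((hO x).1 hx)
      exact ⟨(hO t).2 a, (hO w).2 b⟩
    · obtain ⟨O, hO⟩ := exists_over (j := 0) hE hL ψ V
      exact (sExt_ord hO u).1 (h.inf O fun h' => hx ((hO x).2 h'))
    · obtain ⟨O, x0, w0, a, b, c⟩ := h.adm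
      obtain ⟨V, hO⟩ := exists_lies_alg hE hL ψ O
      exact ⟨V, x0, w0, (sExt_near hO _ _).1 a, (sExt_near hO _ _).1 b, c⟩
    · obtain ⟨O, hO⟩ := exists_over (j := 0) hE hL ψ V
      exact h.sep O (fun h' => hu ((sExt_ord hO u).1 h')) x0 w0 ((sExt_near hO _ _).2 hx)
        ((sExt_near hO _ _).2 hw)
  · refine ⟨?_, ?_, ?_, fun O hx => ?_, fun O hx => ?_, ?_, fun O hu x0 w0 hx hw => ?_⟩
    · rw [sExt_on, h.on, map_zero]
    · exact (map_ne_zero_iff ψ hi).2 h.ne
    · exact fun ha => h.tr ((isAlgebraic_algHom_iff ψ hi).1 ha)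
    · obtain ⟨V, hO⟩ := exists_lies_alg hE hL ψ O
      obtain ⟨a, b⟩ := h.int V ((hO x).2 hx)
      exact ⟨(hO t).1 a, (hO w).1 b⟩
    · obtain ⟨V, hO⟩ := exists_lies_alg hE hL ψ O
      exact (sExt_ord hO u).2 (h.inf V fun h' => hx ((hO x).1 h'))
    · obtain ⟨V, x0, w0, a, b, c⟩ := h.adm
      obtain ⟨O, hO⟩ := exists_over (j := 0) hE hL ψ V
      exact ⟨O, x0, w0, (sExt_near hO _ _).2 a, (sExt_near hO _ _).2 b, c⟩
    · obtain ⟨V, hO⟩ := exists_lies_alg hE hL ψ O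
      exact h.sep V (fun h' => hu ((sExt_ord hO u).2 h')) x0 w0 ((sExt_near hO _ _).1 hx)
        ((sExt_near hO _ _).1 hw)
  · refine sum_ext (j := 0) hE hL ψ _ _ ((fs_one hE u).subset fun V hV => ?_) fun O V hO => ?_
    · intro h0
      apply hV
      have h0' : V.ord u = 0 := h0
      simp [h0']
    · rw [sExt_hdeg hL hO, sExt_near hO, sExt_near hO, sExt_near hO, hO.ord_eq]
      split_ifs
      · push_cast
        ring
      · ring

end Pool.Agent.MP_a9d3bd_yy
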