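import Pool.Agent.MP_a9d3bd_yy.BSt

namespace Pool.Agent.MP_a9d3bd_yy

open Polynomial IntermediateField Pool.Agent.MP_a9d3bd_q Pool.Agent.MP_a9d3bd_x

theorem sAf_sum {K : Type} [Field K] (P : MvPolynomial (Fin 4) K) : aff P = ∑ s ∈ P.support,
    MvPolynomial.C (MvPolynomial.coeff s P) *
      (MvPolynomial.X 0 ^ s 1 * MvPolynomial.X 1 ^ s 2 * MvPolynomial.X 2 ^ s 3) := by
  unfold aff
  conv_lhs => rw [P.as_sum, map_sum]
  refine Finset.sum_congr rfl fun s _ => ?_
  rw [MvPolynomial.aeval_monomial, Finsupp.prod_fintype _ _ fun _ => pow_zero _, Fin.prod_univ_four]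
  simp only [Matrix.cons_val, one_pow, one_mul, MvPolynomial.algebraMap_eq]

theorem sAf_hom {K : Type} [Field K] (a : K) (s : Fin 4 →₀ ℕ) :
    (MvPolynomial.C a * (MvPolynomial.X 0 ^ s 1 * MvPolynomial.X 1 ^ s 2 * MvPolynomial.X 2 ^ s 3) :
      MvPolynomial (Fin 3) K).IsHomogeneous (s 1 + s 2 + s 3) :=
  (((MvPolynomial.isHomogeneous_X_pow _ _).mul (MvPolynomial.isHomogeneous_X_pow _ _)).mul
    (MvPolynomial.isHomogeneous_X_pow _ _)).C_mul a

theorem sAf_three {K L : Type} [Field K] [Field L] [Algebra K L] (P : MvPolynomial (Fin 4) K)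
    (x : L) (a : L[X]) : MvPolynomial.aeval ![C x, X, a] (aff P) = (PL P x).eval a := by
  unfold aff PL
  induction P using MvPolynomial.induction_on with
  | C r => simp
  | add p q hp hq => simp only [map_add, eval_add, hp, hq]
  | mul_X p i hp =>
    simp only [map_mul, eval_mul, hp, MvPolynomial.aeval_X]
    fin_cases i <;> simp

theorem sAf {K : Type} [Field K] [IsAlgClosed K] : SAf K := by
  intro P d h
  have hd : ∀ s ∈ P.support, s 0 + s 1 + s 2 + s 3 = d := fun s hs => by
    by_contra hne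
    refine MvPolynomial.mem_support_iff.1 hs (h.coeff_eq_zero ?_)
    rwa [Finsupp.degree_eq_sum, Fin.sum_univ_four]
  refine ⟨?_, fun c => ?_, fun L _ _ x a => ?_⟩
  · rw [sAf_sum]
    refine MvPolynomial.totalDegree_finsetSum_le fun s hs => (sAf_hom _ s).totalDegree_le.trans ?_
    have := hd s hs
    omega
  · unfold MP_a9d3bd_zz.pd
    rw [sAf_sum, map_sum, map_sum, MvPolynomial.eval_eq']
    refine Finset.sum_congr rfl fun s hs => ?_
    have h1 := hd s hs
    rw [MvPolynomial.homogeneousComponent_of_mem (sAf_hom _ s), Fin.prod_univ_four]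
    split_ifs with h2
    · have h3 : s 0 = 0 := by omega
      simp [h3]
    · have h3 : s 0 ≠ 0 := by omega
      simp [h3]
  · exact sAf_three P x a

end Pool.Agent.MP_a9d3bd_yy
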