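import Pool.Agent.MP_a9d3bd_yy.BSt

/-! The functional in any model of a component. -/

namespace Pool.Agent.MP_a9d3bd_yy

open Polynomial IntermediateField Pool.Agent.MP_a9d3bd_q Pool.Agent.MP_a9d3bd_x

theorem sMu {K : Type} [Field K] [IsAlgClosed K] : SMu K := by
  intro Λ hΛ L _ _ hL x a f u hf E _ _ ρ hs hρ
  have := Fact.mk hf
  let ψ0 : AdjoinRoot f →+* E := Ideal.Quotient.lift (Ideal.span {f}) ρ.toRingHom fun b hb => by
    obtain ⟨c, rfl⟩ := Ideal.mem_span_singleton.1 hb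
    change ρ (f * c) = 0
    rw [map_mul, hρ, zero_mul]
  have h0 : ∀ p, ψ0 (AdjoinRoot.mk f p) = ρ p := fun _ => rfl
  let ψ : AdjoinRoot f →ₐ[K] E := ⟨ψ0, fun r => (h0 (algebraMap K L[X] r)).trans (ρ.commutes r)⟩
  have h1 : ∀ p, ψ (AdjoinRoot.mk f p) = ρ p := h0
  have htop : ψ.fieldRange = ⊤ := by
    rw [eq_top_iff]
    intro z _
    obtain ⟨p, rfl⟩ := hs z
    exact ⟨AdjoinRoot.mk f p, h1 p⟩
  have hd := hdeg_eq_one htop
  have hfin : FiniteDimensional L (AdjoinRoot f) := (AdjoinRoot.powerBasis hf.ne_zero).finite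
  have hA : FF K (AdjoinRoot f) 1 := FF.of_tower hL (ff_zero_iff.2 hfin)
  have hE : FF K E 1 := hA.of_finite ψ (by rw [hd]; exact one_ne_zero)
  have h2 := hΛ.ext (AdjoinRoot f) E hA hE ψ
    ![1, AdjoinRoot.mk f (C x), AdjoinRoot.mk f X, AdjoinRoot.mk f a] (AdjoinRoot.mk f u)
  rw [hd, Nat.cast_one, one_mul, h1] at h2
  rw [mu0, dif_pos hf, ← h2]
  congr 1
  funext i
  fin_cases i
  · exact map_one ψ
  · exact h1 _
  · exact h1 _
  · exact h1 _

end Pool.Agent.MP_a9d3bd_yy
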