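import Pool.Agent.MP_a9d3bd_yy.St
import Pool.Agent.MP_a9d3bd_x.GF

/-! Assembly of the reduction to sections. -/

namespace Pool.Agent.MP_a9d3bd_yy

open Polynomial IntermediateField Pool.Agent.MP_a9d3bd_q Pool.Agent.MP_a9d3bd_x

variable {K : Type} [Field K]

theorem asm_pre {S : Set (MvPolynomial (Fin 4) K)} {Λ : LF K (Fin 4)} (h : GF S Λ) : Pre Λ :=
  ⟨h.ext, h.scale⟩

theorem asm_core (h1 : SCl K) {P : MvPolynomial (Fin 4) K}
    (h : ∀ Λ : LF K (Fin 4), GF {P} Λ → CoreP P Λ) : Core {P} := by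
  classical
  intro Λ hL J _ E _ _ y u n hf hc
  have e1 : ∀ f : J → ℚ, (∀ j, ¬ ND K (y j) → f j = 0) →
      ∑ j, f j = ∑ j : {j // ND K (y j)}, f j.1 := by
    intro f h0
    rw [← Finset.sum_subtype (Finset.univ.filter fun j => ND K (y j)) (by simp) f,
      Finset.sum_filter]
    refine Finset.sum_congr rfl fun j _ => ?_
    split_ifs with hj
    · rfl
    · exact h0 j hj
  rw [e1 _ fun j hj => by rw [hL.degen _ (hf j).1 _ _ hj, mul_zero]]
  refine h Λ hL {j // ND K (y j)} (fun j => E j.1) (fun j => y j.1) (fun j => u j.1)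
    (fun j => n j.1) (fun j => (hf j.1).1) (fun j => (hf j.1).2.2.1 P rfl) (fun j => j.2)
    (fun j => (hf j.1).2.2.2) fun p hp => ?_
  obtain ⟨Φ, hΦ, h2⟩ := h1 p hp
  have h3 := hc Φ hΦ
  rw [e1 _ fun j hj => by rw [dv_degen hΦ (hf j).1 hj, mul_zero]] at h3
  refine Eq.trans ?_ h3
  exact Finset.sum_congr rfl fun j _ => by rw [h2 _ (hf j.1).1 _ _ (hf j.1).2.1]

/-- the statement for sections, for all surfaces in a good chart -/
def SC (K : Type) [Field K] : Prop :=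
  ∀ (P : MvPolynomial (Fin 4) K) (d : ℕ), 0 < d → P.IsHomogeneous d →
    MvPolynomial.eval ![0, 0, 1, 0] P ≠ 0 → ∀ Λ : LF K (Fin 4), GF {P} Λ → CoreA (aff P) Λ

theorem asm_main (h1 : SCl K) (h2 : SPM K) (h3 : SMB K) (h4 : SBA K) (h5 : STw K)
    (h6 : ∀ (P : MvPolynomial (Fin 4) K) (Λ : LF K (Fin 4)) (M N : Matrix (Fin 4) (Fin 4) K),
      M * N = 1 → N * M = 1 → GF {P} Λ → GF {twP N P} (tw N Λ))
    (h7 : SC K) (P : MvPolynomial (Fin 4) K) (d : ℕ) (hP : P.IsHomogeneous d) (h0 : P ≠ 0)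
    (hs : Sm P) : Core {P} := by
  rcases Nat.eq_zero_or_pos d with rfl | hd
  · intro Λ hL J _ E _ _ y u n hf _
    refine Finset.sum_eq_zero fun j _ => absurd ((hf j).2.2.1 P rfl) ?_
    have h8 := MvPolynomial.totalDegree_eq_zero_iff_eq_C.1 (hP.totalDegree h0)
    rw [h8, MvPolynomial.aeval_C, _root_.map_eq_zero]
    intro h9
    exact h0 (by rw [h8, h9, map_zero])
  · refine asm_core h1 fun Λ hL => h2 P d hd hP (fun a ha h => ?_) Λ (asm_pre hL)
      (fun E _ _ hE y u v hy ho hu hv => hL.mul E hE y u v hy (fun G hG => by rw [hG]; exact ho)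
        hu hv) fun M N hMN hNM he => ?_
    · simpa [MvPolynomial.coe_aeval_eq_eval] using
        hs K a ha (by simpa [MvPolynomial.coe_aeval_eq_eval] using h)
    · have h8 := h6 P Λ M N hMN hNM hL
      exact h3 _ _ (asm_pre h8) (h4 _ _ (asm_pre h8) (h7 _ d hd (h5.1 P d N hP) he _ h8))

end Pool.Agent.MP_a9d3bd_yy
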