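import Pool.Agent.MP_a9d3bd_yy.BSt

namespace Pool.Agent.MP_a9d3bd_yy

open Polynomial IntermediateField Pool.Agent.MP_a9d3bd_q Pool.Agent.MP_a9d3bd_x

section
variable {L : Type} [Field L]

theorem sAdd_fin {u : L[X]} (hu : u ≠ 0) : (Cq u).Finite := by
  classical
  refine (UniqueFactorizationMonoid.normalizedFactors u).toFinset.finite_toSet.subset ?_
  rintro f ⟨h1, h2, h3⟩
  rw [Finset.mem_coe, Multiset.mem_toFinset]
  exact (Polynomial.mem_normalizedFactors_iff hu).2 ⟨h2, h1, h3⟩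

theorem sAdd_unit {u : L[X]} (hu : IsUnit u) : Cq u = ∅ :=
  Set.eq_empty_of_forall_notMem fun _ h => h.2.1.not_isUnit (isUnit_of_dvd_unit h.2.2 hu)

theorem sAdd_mul (u v : L[X]) : Cq (u * v) = Cq u ∪ Cq v := by
  ext f
  constructor
  · rintro ⟨h1, h2, h3⟩
    exact (h2.prime.dvd_or_dvd h3).imp (fun h => ⟨h1, h2, h⟩) fun h => ⟨h1, h2, h⟩
  · rintro (⟨h1, h2, h3⟩ | ⟨h1, h2, h3⟩)
    exacts [⟨h1, h2, h3.mul_right _⟩, ⟨h1, h2, h3.mul_left _⟩]

theorem sAdd_sum {u v : L[X]} (h : (u * v).Separable) (g : L[X] → ℚ) :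
    ∑ᶠ f ∈ Cq (u * v), g f = ∑ᶠ f ∈ Cq u, g f + ∑ᶠ f ∈ Cq v, g f := by
  have h0 := h.ne_zero
  rw [sAdd_mul]
  refine finsum_mem_union ?_ (sAdd_fin (left_ne_zero_of_mul h0))
    (sAdd_fin (right_ne_zero_of_mul h0))
  exact Set.disjoint_left.2 fun f h1 h2 =>
    h1.2.1.not_isUnit (h.isCoprime.isUnit_of_dvd' h1.2.2 h2.2.2)

theorem sAdd_dvd {Q Q' : L[X][X]} {a : Fin 4 → L[X]} (h : Trv Q a) (hd : Q' ∣ Q) : Trv Q' a :=
  ⟨fun i => (h.sep i).of_dvd (eval_dvd hd), h.c02.of_isCoprime_of_dvd_left (eval_dvd hd),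
    h.c03.of_isCoprime_of_dvd_left (eval_dvd hd), h.c12.of_isCoprime_of_dvd_left (eval_dvd hd),
    h.c13.of_isCoprime_of_dvd_left (eval_dvd hd)⟩

end

theorem sAdd_Mq {K L : Type} [Field K] [Field L] [Algebra K L] (Λ : Lm K) (x : L)
    {P Q : L[X][X]} {a : L[X]} (h : ((P * Q).eval a).Separable) (b : L[X]) :
    Mq Λ x (P * Q) a b = Mq Λ x P a b + Mq Λ x Q a b := by
  rw [eval_mul] at h
  rw [Mq, Mq, Mq, eval_mul, sAdd_sum h]

theorem sAdd {K : Type} [Field K] [IsAlgClosed K] : SAdd K := by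
  intro Λ L _ _ x Q a
  induction Q using UniqueFactorizationMonoid.induction_on_prime with
  | h₁ => exact fun _ h => absurd eval_zero (h.sep 0).ne_zero
  | h₂ Q hQ =>
    intro _ _
    have e : ∀ c b, Mq Λ x Q c b = 0 := fun c b => by
      have hu : IsUnit (Q.eval c) := hQ.map (evalRingHom c)
      rw [Mq, sAdd_unit hu, finsum_mem_empty]
    simp only [R8, e, sub_self, add_zero]
  | h₃ Q π _ hπ ih =>
    intro h1 h2
    have h3 := h1 π hπ (dvd_mul_right _ _) (sAdd_dvd h2 (dvd_mul_right _ _))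
    have h4 := ih (fun ρ a1 a2 a3 => h1 ρ a1 (a2.mul_left _) a3) (sAdd_dvd h2 (dvd_mul_left _ _))
    simp only [R8, sAdd_Mq Λ x (h2.sep _)] at h3 h4 ⊢
    linarith

end Pool.Agent.MP_a9d3bd_yy
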