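import Pool.Agent.MP_a9d3bd_yy.BSt

namespace Pool.Agent.MP_a9d3bd_yy

open Polynomial IntermediateField Pool.Agent.MP_a9d3bd_q Pool.Agent.MP_a9d3bd_x

theorem sCf_one {K E : Type} [Field K] [Field E] [Algebra K E] {V : ValuationSubring E}
    (hV : ∀ c : K, algebraMap K E c ∈ V) {c : K} (hc : c ≠ 0) :
    V.valuation (algebraMap K E c) = 1 := by
  have h0 : ∀ a : K, V.valuation (algebraMap K E a) ≤ 1 := fun a =>
    (V.valuation_le_one_iff _).2 (hV a)
  refine le_antisymm (h0 c) ?_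
  have h1 : V.valuation (algebraMap K E c) * V.valuation (algebraMap K E c⁻¹) = 1 := by
    rw [← map_mul, ← map_mul, mul_inv_cancel₀ hc, map_one, map_one]
  calc (1 : V.ValueGroup) = V.valuation (algebraMap K E c) * V.valuation (algebraMap K E c⁻¹) :=
        h1.symm
    _ ≤ V.valuation (algebraMap K E c) * 1 := mul_le_mul_right (h0 _) _
    _ = _ := mul_one _

theorem sCf_val {K E : Type} [Field K] [Field E] [Algebra K E] {V : ValuationSubring E}
    (hV : ∀ c : K, algebraMap K E c ∈ V) {c : K} (hc : c ≠ 0) {g y : E}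
    (h : V.valuation g < V.valuation y) :
    V.valuation (g - algebraMap K E c * y) = V.valuation y := by
  have h1 : V.valuation (algebraMap K E c * y) = V.valuation y := by
    rw [map_mul, sCf_one hV hc, one_mul]
  rw [Valuation.map_sub_eq_of_lt_right _ (h1 ▸ h), h1]

theorem sCf_inf {K E : Type} [Field K] [Field E] [Algebra K E] {V : ValuationSubring E}
    (hV : ∀ c : K, algebraMap K E c ∈ V) {c c' : K} (hc : c ≠ 0) (hc' : c' ≠ 0) {g g' y : E}
    (h : V.valuation g < V.valuation y) (h' : V.valuation g' < V.valuation y) :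
    V.valuation ((g - algebraMap K E c * y) / (g' - algebraMap K E c' * y) -
      algebraMap K E (c / c')) < 1 := by
  have h1 := sCf_val hV hc' h'
  have hy : V.valuation y ≠ 0 := ne_of_gt (lt_of_le_of_lt zero_le h)
  have h2 : g' - algebraMap K E c' * y ≠ 0 := fun e => hy (by rw [← h1, e, map_zero])
  have h3 : algebraMap K E c' ≠ 0 := (_root_.map_ne_zero _).2 hc'
  have h4 : (g - algebraMap K E c * y) / (g' - algebraMap K E c' * y) - algebraMap K E (c / c') =
      (algebraMap K E c' * g - algebraMap K E c * g') /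
        (algebraMap K E c' * (g' - algebraMap K E c' * y)) := by
    rw [map_div₀, div_sub_div _ _ h2 h3, div_eq_div_iff (mul_ne_zero h2 h3) (mul_ne_zero h3 h2)]
    ring
  rw [h4, map_div₀, map_mul, sCf_one hV hc', one_mul, h1,
    div_lt_one₀ (lt_of_le_of_lt zero_le h)]
  refine Valuation.map_sub_lt _ ?_ ?_
  · rwa [map_mul, sCf_one hV hc', one_mul]
  · rwa [map_mul, sCf_one hV hc, one_mul]

theorem sCf {K : Type} [Field K] [IsAlgClosed K] (h1 : SAf K) (h2 : SZ2 K) : SCf K := by
  intro P d hP A ι _ _ _ _ _ _ _ _ m S hSP hSd hc0 hM c g hadm c2 c3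
  obtain ⟨-, h3⟩ := h2 A ι m S
  have hx : MP_a9d3bd_zz.Su.gp K A (MP_a9d3bd_zz.xA K A) = xL K A := rfl
  refine ⟨fun i => (MP_a9d3bd_zz.gam S.e (MP_a9d3bd_zz.Su.gp K A)
    fun v => algebraMap K _ (g i v)) - algebraMap K _ (c i) * xL K A ^ S.M, ⟨fun i => ?_,
      fun V hV hxV i => ?_, fun V hV hxV => ?_⟩, fun i => ?_⟩
  · rw [← (h1 P d hP).2.1, ← hSP, ← hSd]
    exact (hadm i).1
  · refine sub_mem ?_ (mul_mem (hV _) (pow_mem hxV _))
    refine sum_mem fun v _ => mul_mem (hV _) (mul_mem (pow_mem hxV _) ?_)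
    exact (h3 V hV).1 hxV (S.e v.2)
  · have h4 := (h3 V hV).2 hxV
    have h5 : 1 < V.valuation (xL K A) := by
      by_contra h
      exact hxV ((V.valuation_le_one_iff _).1 (not_lt.1 h))
    have h6 : V.valuation (xL K A) < V.valuation (xL K A ^ S.M) := by
      rw [map_pow]
      conv_lhs => rw [← pow_one (V.valuation (xL K A))]
      exact pow_lt_pow_right₀ h5 (by omega)
    refine ⟨?_, ?_, c 2 / c 3, div_ne_zero c2 c3, sCf_inf hV c2 c3 (h4 _) (h4 _)⟩
    · rwa [sCf_val hV c2 (h4 _)]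
    · rwa [sCf_val hV c3 (h4 _)]
  · rw [MP_a9d3bd_zz.Su.wl, ln, hc0, hx, map_zero, zero_mul, zero_add, map_sub, map_mul]
    ring

end Pool.Agent.MP_a9d3bd_yy
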