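import Pool.Agent.MP_a9d3bd_yy.BSt

namespace Pool.Agent.MP_a9d3bd_yy

open Polynomial IntermediateField Pool.Agent.MP_a9d3bd_q Pool.Agent.MP_a9d3bd_x

theorem sCls_near {K E : Type} [Field K] [Field E] [Algebra K E] (O : DV K E) {z : E} {a : K}
    (h : O.O.valuation (z - algebraMap K E a) < 1) :
    z ∈ O.O ∧ O.res z = algebraMap K O.K a := by
  rw [← ValuationSubring.mem_nonunits_iff] at h
  have hz : z ∈ O.O := by
    have := add_mem (ValuationSubring.nonunits_subset h) (O.const a)
    rwa [sub_add_cancel] at this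
  refine ⟨hz, ?_⟩
  rwa [← O.res_eq_zero_iff' (sub_mem hz (O.const a)), O.res_sub hz (O.const a),
    O.res_algebraMap, sub_eq_zero] at h

theorem sCls_eqv {L E : Type} [Field L] [Field E] (G : L →+* E) (O : ValuationSubring E) :
    (O.comap G).valuation.IsEquiv (O.valuation.comap G) := by
  rw [Valuation.isEquiv_iff_val_le_one]
  intro x
  rw [ValuationSubring.valuation_le_one_iff, Valuation.comap_apply,
    ValuationSubring.valuation_le_one_iff, ValuationSubring.mem_comap]

theorem sCls_big {K E : Type} [Field K] [Field E] [Algebra K E] (O : DV K E) {x t w δ : E} (c : K)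
    (hx : x ≠ 0) (ht : t / x ∈ O.O) (hw : w / x ∈ O.O) (h : O.O.valuation x < O.O.valuation δ) :
    δ ≠ 0 ∧ (w - (δ + algebraMap K E c * t)) / δ ∈ O.O ∧
      O.res ((w - (δ + algebraMap K E c * t)) / δ) = -1 := by
  have hδ : δ ≠ 0 := by
    rintro rfl
    simp at h
  have hv : 0 < O.O.valuation δ := zero_le.trans_lt h
  have h1 : O.O.valuation (w / x - algebraMap K E c * (t / x)) ≤ 1 :=
    (O.O.valuation_le_one_iff _).2 (sub_mem hw (mul_mem (O.const c) ht))
  have h2 : O.O.valuation (x / δ) < 1 := by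
    rw [map_div₀]
    exact (div_lt_one₀ hv).2 h
  have e : (w - (δ + algebraMap K E c * t)) / δ - algebraMap K E (-1) =
      (w / x - algebraMap K E c * (t / x)) * (x / δ) := by
    rw [map_neg, map_one]
    field_simp
    ring
  have h3 := sCls_near O (z := (w - (δ + algebraMap K E c * t)) / δ) (a := -1) (by
    rw [e, map_mul]
    exact (mul_le_of_le_one_left' h1).trans_lt h2)
  rw [map_neg, map_one] at h3
  exact ⟨hδ, h3⟩

theorem sCls {K : Type} [Field K] [IsAlgClosed K] (h1 : SNd K) : SCls K := by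
  intro P d hP L F _ _ _ _ _ _ hL hF x t w hy c δ hc hne O hnd
  have hl : ∀ i, aeval t (ln (c i) (δ i)) = algebraMap L F (δ i) + algebraMap K F (c i) * t :=
    fun i => by simp [ln, ← IsScalarTower.algebraMap_apply]
  simp only [hl] at hne ⊢
  have hK : FF K O.K 1 := O.ff_K hF
  have hN := fun i => h1 P d hP (c i) (hc.lc i) O.K hK _ (O.aeval_red_of_zero hP hy)
  have hV : ∀ a : K, algebraMap K L a ∈ O.O.comap (algebraMap L F) := fun a => by
    rw [ValuationSubring.mem_comap, ← IsScalarTower.algebraMap_apply]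
    exact O.const a
  by_cases hI : algebraMap L F x ∈ O.O ∧ t ∈ O.O ∧ w ∈ O.O
  · obtain ⟨hx, ht, hw⟩ := hI
    by_cases hA : ∀ z : L, algebraMap L F z ∈ O.O
    · exact Or.inl ⟨hA, ht, hw⟩
    obtain ⟨V, hV1⟩ := exists_lies hL hF (IsScalarTower.toAlgHom K L F) O (not_forall.1 hA)
    have := ff_zero_iff.1 (V.ff_K hL)
    have alg : ∀ z : L, IsAlgebraic K (O.res (algebraMap L F z)) := fun z => by
      have h2 := (Algebra.IsAlgebraic.isAlgebraic (R := K) (V.res z)).algHom hV1.hom
      rwa [hV1.hom_res] at h2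
    have hδ : ∀ i, algebraMap L F (δ i) ∈ O.O := hc.fin _ hV hx
    have hint : O.Int ![1, algebraMap L F x, t, w] := fun i => by
      fin_cases i
      exacts [O.O.one_mem, hx, ht, hw]
    have h0 : O.ra ![1, algebraMap L F x, t, w] 0 = 1 := O.res_one
    have hr := O.red_of_int hint fun e => one_ne_zero (h0.symm.trans (congrFun e 0))
    rw [hr] at hN hnd
    have ho : ∀ i, O.ord (w - (algebraMap L F (δ i) + algebraMap K F (c i) * t)) = 0 := by
      intro i
      refine ((O.res_ne_zero_iff _).1 fun e => (hN i).2 h0 (alg x) ?_ hnd).2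
      have hm := mul_mem (O.const (c i)) ht
      rw [O.res_sub hw (add_mem (hδ i) hm), O.res_add (hδ i) hm, O.res_mul (O.const _) ht,
        O.res_algebraMap] at e
      have e' : O.res w - algebraMap K O.K (c i) * O.res t = O.res (algebraMap L F (δ i)) := by
        linear_combination e
      have h2 := alg (δ i)
      rw [← e'] at h2
      exact h2
    have h23 := O.ord_div (hne 2) (hne 3)
    rw [ho, ho, sub_zero] at h23
    refine Or.inr ⟨h23, 1, one_ne_zero, ?_⟩
    rw [O.tame_of_right _ h23, O.ord_div (hne 1) (hne 0), ho, ho, sub_zero, zpow_zero, map_one]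
  have hy0 : (![1, algebraMap L F x, t, w] : Fin 4 → F) 0 ≠ 0 := one_ne_zero
  have r0 : O.red ![1, algebraMap L F x, t, w] 0 = 0 := by
    by_contra e
    have h2 := (O.int_div_iff hy0).2 e
    exact hI ⟨by simpa using h2 1, by simpa using h2 2, by simpa using h2 3⟩
  have r1 : O.red ![1, algebraMap L F x, t, w] 1 ≠ 0 := fun e => (hN 0).1 r0 e hnd
  have hx0 : algebraMap L F x ≠ 0 := ((O.red_ne_iff _ _).1 r1).1
  have h2 := (O.int_div_iff (i := 1) hx0).2 r1
  have ht : t / algebraMap L F x ∈ O.O := h2 2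
  have hw : w / algebraMap L F x ∈ O.O := h2 3
  have hx : algebraMap L F x ∉ O.O := fun h => hI ⟨h,
    by simpa [hx0] using mul_mem ht h, by simpa [hx0] using mul_mem hw h⟩
  obtain ⟨a2, a3, κ, hκ, a4⟩ := hc.inf _ hV hx
  have hv := sCls_eqv (algebraMap L F) O.O
  obtain ⟨d2, m2, e2⟩ := sCls_big O (c 2) hx0 ht hw (hv.lt_iff_lt.1 a2)
  obtain ⟨d3, -, e3⟩ := sCls_big O (c 3) hx0 ht hw (hv.lt_iff_lt.1 a3)
  obtain ⟨m4, e4⟩ := sCls_near O (z := algebraMap L F (δ 2) / algebraMap L F (δ 3)) (a := κ) (by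
    have := hv.lt_one_iff_lt_one.1 a4
    rwa [Valuation.comap_apply, map_sub, map_div₀, ← IsScalarTower.algebraMap_apply] at this)
  have o3 := ((O.res_ne_zero_iff _).1 (e3.trans_ne (neg_ne_zero.2 one_ne_zero))).2
  have e5 : O.res ((w - (algebraMap L F (δ 2) + algebraMap K F (c 2) * t)) /
      (w - (algebraMap L F (δ 3) + algebraMap K F (c 3) * t))) = algebraMap K O.K κ := by
    have e6 := O.res_div (mul_mem m2 m4) o3
    rw [O.res_mul m2 m4, e2, e3, e4, neg_one_mul, neg_div_neg_eq, div_one] at e6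
    rw [← e6]
    congr 1
    have := hne 3
    field_simp
  have h23 := ((O.res_ne_zero_iff _).1 (e5.trans_ne ((_root_.map_ne_zero _).2 hκ))).2
  exact Or.inr ⟨h23, _, zpow_ne_zero _ hκ, by rw [O.tame_of_right _ h23, e5, map_zpow₀]⟩

end Pool.Agent.MP_a9d3bd_yy
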