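import Pool.Agent.MP_a9d3bd_yy.BSt

/-! The functional on the components of the admissible curves is good. -/

namespace Pool.Agent.MP_a9d3bd_yy

open Polynomial IntermediateField Pool.Agent.MP_a9d3bd_q Pool.Agent.MP_a9d3bd_x

theorem sGd_cast {α : Type} (s : Set α) (g : α → ℚ) :
    ((∑ᶠ f ∈ s, g f : ℚ) : ℝ) = ∑ᶠ f ∈ s, (g f : ℝ) := by
  have h := (Rat.castHom ℝ).toAddMonoidHom.map_finsum_of_injective
    (Rat.castHom ℝ).injective (fun f => ∑ᶠ (_ : f ∈ s), g f)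
  refine h.trans (finsum_congr fun f => ?_)
  exact (Rat.castHom ℝ).toAddMonoidHom.map_finsum_Prop (fun _ : f ∈ s => g f)

theorem sGd_lin {a b c d e f g h : ℚ} (H : (a - b) - (c - d) - (e - f) + (g - h) = 0) :
    ((a : ℝ) - b) - (c - d) - (e - f) + (g - h) = 0 := by
  exact_mod_cast H

theorem sGd {K : Type} [Field K] [IsAlgClosed K] (h1 : SMp K) (h2 : SRp K) (h3 : SAdd K)
    (h4 : SAf K) (h5 : SZ1 K) (h6 : SZ2 K) (h7 : SCf K) : SGd K := by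
  intro P d hP Λ hΛ hC A ι _ _ _ _ _ _ _ _ m S hFF hSP hSd hc0 hM
  have hfL : ∀ c g, S.fL c g = (PL P (xL K A)).eval
      (S.wl (MP_a9d3bd_zz.Su.gp K A) (algebraMap K _ c) fun v => algebraMap K _ (g v)) := by
    intro c g
    rw [← (h4 P d hP).2.2, ← hSP]
    rfl
  have hmp := fun c g f (hf : f ∈ S.Cp c g) => h1 P Λ hΛ hC (FractionRing A) hFF (xL K A)
    (S.wl (MP_a9d3bd_zz.Su.gp K A) (algebraMap K _ c) fun v => algebraMap K _ (g v)) f hf.2.1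
    (hfL c g ▸ hf.2.2)
  refine ⟨fun c g f hf u u' hu hu' => ?_, fun c g f hf u u' hu => ?_, fun c g f hf a ha => ?_,
    fun H0 H1 H2 H3 a0 a1 a2 a3 n2 n3 c12 c13 c02 c03 => ?_⟩
  · exact_mod_cast (hmp c g f hf).1 u u' hu hu'
  · exact_mod_cast (hmp c g f hf).2.1 u u' hu
  · exact_mod_cast (hmp c g f hf).2.2 a ha
  · have hMM : ∀ H H' : K × (Fin m × ι → K), S.MM (fun c g f u => (mu0 Λ (xL K A)
        (S.wl (MP_a9d3bd_zz.Su.gp K A) (algebraMap K _ c) fun v => algebraMap K _ (g v)) f u : ℝ))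
        H.1 H.2 (S.lr H.1 H.2 H'.1 H'.2) = (Mq Λ (xL K A) (PL P (xL K A))
          (S.wl (MP_a9d3bd_zz.Su.gp K A) (algebraMap K _ H.1) fun v => algebraMap K _ (H.2 v))
          (S.wl (MP_a9d3bd_zz.Su.gp K A) (algebraMap K _ H'.1) fun v => algebraMap K _ (H'.2 v)) :
            ℚ) := by
      intro H H'
      rw [Mq, sGd_cast, ← hfL]
      rfl
    have hadm : ∀ i : Fin 4, S.Adm (![H0.1, H1.1, H2.1, H3.1] i) (![H0.2, H1.2, H2.2, H3.2] i) := by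
      intro i
      fin_cases i
      exacts [a0, a1, a2, a3]
    obtain ⟨δ, hcfg, hw⟩ := h7 P d hP A ι m S hSP hSd hc0 hM ![H0.1, H1.1, H2.1, H3.1]
      ![H0.2, H1.2, H2.2, H3.2] hadm (hc0 ▸ n2) (hc0 ▸ n3)
    have htr : Trv (PL P (xL K A)) (fun i => ln (![H0.1, H1.1, H2.1, H3.1] i) (δ i)) := by
      refine ⟨fun i => ?_, ?_, ?_, ?_, ?_⟩
      · rw [← hw i, ← hfL]
        exact h5 A ι m S _ _ (hadm i)
      · rw [← hw 0, ← hw 2, ← hfL]; exact c02.1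
      · rw [← hw 0, ← hw 3, ← hfL]; exact c03.1
      · rw [← hw 1, ← hw 2, ← hfL]; exact c12.1
      · rw [← hw 1, ← hw 3, ← hfL]; exact c13.1
    have hR := h3 Λ (FractionRing A) (xL K A) (PL P (xL K A)) _
      (fun π hπ hd ht => h2 P d hP Λ hΛ hC (FractionRing A) hFF (xL K A) (h6 A ι m S).1 _ δ hcfg
        π hπ hd ht) htr
    rw [R8, ← hw 0, ← hw 1, ← hw 2, ← hw 3] at hR
    have hR' := sGd_lin hR
    unfold MP_a9d3bd_zz.Su.Ph
    rw [hMM, hMM, hMM, hMM, hMM, hMM, hMM, hMM]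
    exact hR'

end Pool.Agent.MP_a9d3bd_yy
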