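import Pool.Agent.MP_a9d3bd_yy.BSt

namespace Pool.Agent.MP_a9d3bd_yy

open Polynomial IntermediateField Pool.Agent.MP_a9d3bd_q Pool.Agent.MP_a9d3bd_x

theorem sGen_td {L F : Type} [Field L] [Field F] [Algebra L F] {x y : F}
    (hx : Transcendental L x) (hy : IsAlgebraic L⟮x⟯ y) (h : L⟮x, y⟯ = ⊤) :
    Algebra.trdeg L F = (1 : ℕ) := by
  have h1 : Algebra.IsAlgebraic L⟮x⟯ F := ⟨fun z => by
    have hz : z ∈ L⟮x⟯⟮y⟯ := by
      rw [← mem_restrictScalars L, adjoin_simple_adjoin_simple, h]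
      exact mem_top
    have := isAlgebraic_adjoin_simple hy.isIntegral
    exact IntermediateField.isAlgebraic_iff.1
      (Algebra.IsAlgebraic.isAlgebraic (⟨z, hz⟩ : L⟮x⟯⟮y⟯))⟩
  have h2 : IsTranscendenceBasis L fun _ : Unit => x := by
    refine isTranscendenceBasis_iff_algebraicIndependent_isAlgebraic.2
      ⟨algebraicIndependent_unique_type_iff.2 hx, ?_⟩
    rw [Set.range_const]
    exact isAlgebraic_adjoin_iff_top.1 h1
  rw [← h2.cardinalMk_eq_trdeg]
  simp

theorem sGen_ev {L F : Type} [Field L] [Field F] [Algebra L F] (t w : F) (Q : L[X][X]) :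
    aevalAeval t w Q = Q.eval₂ (aeval t : L[X] →ₐ[L] F).toRingHom w := by
  induction Q using Polynomial.induction_on' with
  | add p q hp hq => rw [map_add, eval₂_add, hp, hq]
  | monomial n a =>
    rw [eval₂_monomial, ← C_mul_X_pow_eq_monomial, map_mul, map_pow, aevalAeval_C, aevalAeval_Y]
    rfl

theorem sGen_mem {L F : Type} [Field L] [Field F] [Algebra L F] (t w : F) (Q : L[X][X]) :
    aevalAeval t w Q ∈ L⟮t, w⟯ := by
  have ht : t ∈ L⟮t, w⟯ := subset_adjoin L _ (by simp)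
  have hw : w ∈ L⟮t, w⟯ := subset_adjoin L _ (by simp)
  rw [sGen_ev, eval₂_eq_sum_range]
  refine sum_mem fun i _ => mul_mem ?_ (pow_mem hw i)
  change aeval t (Q.coeff i) ∈ _
  rw [aeval_eq_sum_range]
  exact sum_mem fun j _ => IntermediateField.smul_mem _ (pow_mem ht j)

theorem sGen_tr {L F : Type} [Field L] [Field F] [Algebra L F] {π : L[X][X]} (hπ : Prime π)
    {t w : F} (hk : ∀ Q : L[X][X], aevalAeval t w Q = 0 ↔ π ∣ Q) (h : L⟮t, w⟯ = ⊤) :
    Algebra.trdeg L F = (1 : ℕ) := by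
  have h0 := (hk π).2 dvd_rfl
  rcases Nat.eq_zero_or_pos π.natDegree with hd | hd
  · obtain ⟨a, rfl⟩ := natDegree_eq_zero.1 hd
    rw [aevalAeval_C] at h0
    have ha : a ≠ 0 := fun e => hπ.ne_zero (by rw [e, map_zero])
    have ht : IsAlgebraic L t := ⟨a, ha, h0⟩
    refine sGen_td (x := w) (y := t) ?_ (ht.tower_top _) (by rwa [Set.pair_comm])
    rintro ⟨q, hq, hq'⟩
    have h1 : aevalAeval t w (q.map C) = 0 := by
      rw [sGen_ev, eval₂_map, ← hq', aeval_def]
      congr 1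
      ext c
      simp
    have h2 := (C_dvd_iff_dvd_coeff _ _).1 ((hk _).1 h1) q.natDegree
    rw [coeff_map] at h2
    exact hπ.not_isUnit (isUnit_C.2 (isUnit_of_dvd_unit h2
      (isUnit_C.2 (leadingCoeff_ne_zero.2 hq).isUnit)))
  · have ht : Transcendental L t := by
      rintro ⟨q, hq, hq'⟩
      have h1 := natDegree_le_of_dvd ((hk (C q)).1 (by rwa [aevalAeval_C])) (C_ne_zero.2 hq)
      rw [natDegree_C] at h1
      omega
    have hc : (algebraMap L⟮t⟯ F).comp (aeval (AdjoinSimple.gen L t) : L[X] →ₐ[L] L⟮t⟯).toRingHom =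
        (aeval t : L[X] →ₐ[L] F).toRingHom := by
      ext c <;> simp
    have hi : Function.Injective (aeval (AdjoinSimple.gen L t) : L[X] →ₐ[L] L⟮t⟯).toRingHom := by
      refine Function.Injective.of_comp (f := algebraMap L⟮t⟯ F) ?_
      rw [← RingHom.coe_comp, hc]
      exact transcendental_iff_injective.1 ht
    refine sGen_td ht ⟨π.map (aeval (AdjoinSimple.gen L t) : L[X] →ₐ[L] L⟮t⟯).toRingHom,
      (Polynomial.map_ne_zero_iff hi).2 hπ.ne_zero, ?_⟩ h
    rw [aeval_def, eval₂_map, hc, ← sGen_ev, h0]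

theorem sGen_aux {L R : Type} [Field L] [CommRing R] [IsDomain R] [Algebra L R] {π : L[X][X]}
    (hπ : Prime π) (ψ : L[X][X] →ₐ[L] R) (hs : Function.Surjective ψ)
    (hψ : ∀ Q, ψ Q = 0 ↔ π ∣ Q) :
    ∃ (F : Type) (_ : Field F) (_ : Algebra L F) (t w : F), Gen π t w := by
  let φ : L[X][X] →ₐ[L] FractionRing R := (IsScalarTower.toAlgHom L R (FractionRing R)).comp ψ
  have hφ : aevalAeval (φ (C X)) (φ X) = φ := (aevalAevalEquiv L _).apply_symm_apply φ
  have hk : ∀ Q : L[X][X], aevalAeval (φ (C X)) (φ X) Q = 0 ↔ π ∣ Q := fun Q => by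
    rw [hφ, ← hψ]
    exact map_eq_zero_iff (algebraMap R (FractionRing R))
      (IsFractionRing.injective R (FractionRing R))
  have ht : L⟮φ (C X), φ X⟯ = ⊤ := by
    rw [eq_top_iff]
    intro z hz
    clear hz
    obtain ⟨a, b, -, rfl⟩ := IsFractionRing.div_surjective (A := R) (K := FractionRing R) z
    obtain ⟨a, rfl⟩ := hs a
    obtain ⟨b, rfl⟩ := hs b
    have h := sGen_mem (L := L) (φ (C X)) (φ X)
    rw [hφ] at h
    exact div_mem (h a) (h b)
  have : Algebra.FiniteType L L[X][X] := Algebra.FiniteType.trans (S := L[X]) inferInstance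
    inferInstance
  have : Algebra.FiniteType L R := Algebra.FiniteType.of_surjective ψ hs
  exact ⟨FractionRing R, inferInstance, inferInstance, φ (C X), φ X,
    ⟨inferInstance, sGen_tr hπ hk ht⟩, hk, ht⟩

theorem sGen : SGen := by
  intro L _ π hπ
  have : IsDomain (AdjoinRoot π) := AdjoinRoot.isDomain_of_prime hπ
  exact sGen_aux (R := AdjoinRoot π) hπ ((AdjoinRoot.mkₐ π).restrictScalars L)
    AdjoinRoot.mk_surjective fun Q => AdjoinRoot.mk_eq_zero

end Pool.Agent.MP_a9d3bd_yy
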