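import Pool.Agent.MP_a9d3bd_yy.BSt

namespace Pool.Agent.MP_a9d3bd_yy

open Polynomial IntermediateField Pool.Agent.MP_a9d3bd_q Pool.Agent.MP_a9d3bd_x

theorem sHo1_ev {L F : Type} [Field L] [Field F] [Algebra L F] (O : DV L F) {t w : F} {a : L[X]}
    (ht : t ∈ O.O) (hw : w ∈ O.O) (h : O.res w = aeval (O.res t) a) (Q : L[X][X]) :
    aevalAeval t w Q ∈ O.O ∧ O.res (aevalAeval t w Q) = aeval (O.res t) (Q.eval a) := by
  induction Q using Polynomial.induction_on' with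
  | add p q hp hq =>
    rw [map_add, eval_add, map_add, O.res_add hp.1 hq.1, hp.2, hq.2]
    exact ⟨add_mem hp.1 hq.1, rfl⟩
  | monomial n p =>
    obtain ⟨h1, h2⟩ := O.A1_paeval ht p
    rw [← C_mul_X_pow_eq_monomial, map_mul, map_pow, aevalAeval_C, aevalAeval_Y, eval_mul, eval_C,
      eval_pow, eval_X, map_mul, map_pow, O.res_mul h1 (pow_mem hw n), O.res_pow hw, h2, h]
    exact ⟨mul_mem h1 (pow_mem hw n), rfl⟩

theorem sHo1 (h1 : SLoc) : SHo1 := by
  intro L F _ _ _ π t w G a sep O ht hs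
  obtain ⟨s0, hloc⟩ := h1 L F π t w G a sep
  have sO := (O.ord_nonneg_iff _).1 hs.le
  obtain ⟨aO, ra⟩ := O.A1_paeval ht a
  have hw : w ∈ O.O := by simpa using add_mem sO aO
  have rs := O.res_eq_zero_of_pos hs
  rw [O.res_sub hw aO, sub_eq_zero, ra] at rs
  have ev := sHo1_ev O ht hw rs
  have hπ : aeval (O.res t) (π.eval a) = 0 := by
    rw [← (ev π).2, (G.ker π).2 dvd_rfl, O.res_zero]
  have hi : IsIntegral L (O.res t) := IsAlgebraic.isIntegral ⟨_, sep.ne_zero, hπ⟩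
  have hf : minpoly L (O.res t) ∈ Cq (π.eval a) :=
    ⟨minpoly.monic hi, minpoly.irreducible hi, minpoly.dvd _ _ hπ⟩
  have un : ∀ p : L[X][X], ¬ minpoly L (O.res t) ∣ p.eval a →
      aevalAeval t w p ≠ 0 ∧ O.ord (aevalAeval t w p) = 0 := fun p hp =>
    (O.res_ne_zero_iff _).1 fun h => hp (minpoly.dvd _ _ ((ev p).2.symm.trans h))
  have key : ∀ z : F, z ≠ 0 → ∃ (n : ℤ) (p q : L[X][X]), ¬ minpoly L (O.res t) ∣ q.eval a ∧
      z * aevalAeval t w q = (w - aeval t a) ^ n * aevalAeval t w p ∧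
      O.ord z = n * O.ord (w - aeval t a) := fun z hz => by
    obtain ⟨n, p, q, hp, hq, e⟩ := hloc _ hf z hz
    have := congrArg O.ord e
    rw [O.ord_mul hz (un q hq).1, O.ord_mul (zpow_ne_zero n s0) (un p hp).1, (un q hq).2,
      (un p hp).2, add_zero, add_zero, O.ord_zpow] at this
    exact ⟨n, p, q, hq, e, this⟩
  have o1 : O.ord (w - aeval t a) = 1 := by
    obtain ⟨n, -, -, -, -, e⟩ := key O.pi O.pi_ne
    rw [O.ord_pi] at e
    exact Int.eq_one_of_mul_eq_one_left hs.le e.symm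
  refine ⟨o1, hf, fun z => ?_⟩
  obtain ⟨g, hg, rfl⟩ := O.res_surj z
  by_cases h0 : O.res g = 0
  · exact ⟨0, by rw [h0, map_zero, O.res_zero]⟩
  obtain ⟨g0, og⟩ := (O.res_ne_zero_iff _).1 h0
  obtain ⟨n, p, q, hq, e, en⟩ := key g g0
  rw [og, o1, mul_one] at en
  rw [← en, zpow_zero, one_mul] at e
  have e2 := congrArg O.res e
  rw [O.res_mul hg (ev q).1, (ev q).2, (ev p).2] at e2
  obtain ⟨u, v, huv⟩ := hf.2.1.coprime_iff_not_dvd.2 hq
  have e3 := congrArg (aeval (O.res t)) huv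
  rw [map_add, map_mul, map_mul, minpoly.aeval, mul_zero, zero_add, map_one] at e3
  refine ⟨v * p.eval a, ?_⟩
  rw [(O.A1_paeval ht _).2, map_mul, ← e2, mul_left_comm, e3, mul_one]

end Pool.Agent.MP_a9d3bd_yy
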