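import Pool.Agent.MP_a9d3bd_yy.BSt

namespace Pool.Agent.MP_a9d3bd_yy

open Polynomial IntermediateField Pool.Agent.MP_a9d3bd_q Pool.Agent.MP_a9d3bd_x

section
variable {L F : Type} [Field L] [Field F] [Algebra L F]

theorem sHo2_mem (O : DV L F) {t w : F} (ht : t ∈ O.O) (hw : w ∈ O.O) (q : L[X][X]) :
    aevalAeval t w q ∈ O.O := by
  induction q using Polynomial.induction_on' with
  | add p q hp hq =>
    rw [map_add]
    exact add_mem hp hq
  | monomial n c =>
    rw [← C_mul_X_pow_eq_monomial, map_mul, map_pow, aevalAeval_C, aevalAeval_Y]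
    exact mul_mem (O.A1_paeval ht c).1 (pow_mem hw n)

theorem sHo2_unit (O : DV L F) {t w : F} {a : L[X]} (ht : t ∈ O.O)
    (hs : 0 < O.ord (w - aeval t a)) (p : L[X][X]) (hp : ¬ minpoly L (O.res t) ∣ p.eval a) :
    aevalAeval t w p ≠ 0 ∧ O.ord (aevalAeval t w p) = 0 := by
  have hsO : w - aeval t a ∈ O.O := (O.ord_nonneg_iff _).1 hs.le
  have hw : w ∈ O.O := by
    have := add_mem hsO (O.A1_paeval ht a).1
    rwa [sub_add_cancel] at this
  obtain ⟨q, hq⟩ := X_sub_C_dvd_sub_C_eval (p := p) (a := a)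
  have e : aevalAeval t w p = (w - aeval t a) * aevalAeval t w q + aeval t (p.eval a) := by
    have := congrArg (aevalAeval t w) hq
    rw [map_sub, map_mul, map_sub, aevalAeval_C, aevalAeval_C, aevalAeval_Y] at this
    rw [← this, sub_add_cancel]
  have hqO := sHo2_mem O ht hw q
  rw [← O.res_ne_zero_iff, e, O.res_add (mul_mem hsO hqO) (O.A1_paeval ht _).1,
    O.res_mul hsO hqO, O.res_eq_zero_of_pos hs, zero_mul, zero_add, (O.A1_paeval ht _).2]
  exact fun h => hp (minpoly.dvd L _ h)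

theorem sHo2_ex {π : L[X][X]} {t w : F} (hG : Gen π t w) {a f : L[X]}
    (hs : w - aeval t a ≠ 0) (hf : f ∈ Cq (π.eval a)) :
    ∃ O : DV L F, t ∈ O.O ∧ 0 < O.ord (w - aeval t a) ∧ minpoly L (O.res t) = f := by
  obtain ⟨f1, f2, f3⟩ := hf
  let ev : L[X][X] →+* F := (aevalAeval t w : L[X][X] →ₐ[L] F)
  have hev : ∀ q, ev q = aevalAeval t w q := fun _ => rfl
  let J : Ideal L[X][X] := (Ideal.span {f}).comap (evalRingHom a)
  have hJ : ∀ q, q ∈ J ↔ f ∣ q.eval a := fun q => Ideal.mem_span_singleton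
  have hI : J.map ev.rangeRestrict ≠ ⊤ := by
    rw [Ideal.ne_top_iff_one]
    intro h
    obtain ⟨q, hq, e⟩ := (Ideal.mem_map_iff_of_surjective _ ev.rangeRestrict_surjective).1 h
    have e1 : aevalAeval t w (q - 1) = 0 := by
      have : ev q = 1 := congrArg Subtype.val e
      rw [map_sub, map_one, ← hev, this, sub_self]
    have e2 : f ∣ (q - 1).eval a := f3.trans (eval_dvd ((hG.ker _).1 e1))
    rw [eval_sub, eval_one] at e2
    have e3 := dvd_sub ((hJ q).1 hq) e2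
    rw [sub_sub_cancel] at e3
    exact f2.not_dvd_one e3
  obtain ⟨B, hB, hN⟩ := Ideal.image_subset_nonunits_valuationSubring _ hI
  have m1 : ∀ q, aevalAeval t w q ∈ B := fun q => hB ⟨q, rfl⟩
  have m2 : ∀ q : L[X][X], f ∣ q.eval a → aevalAeval t w q ∈ B.nonunits := fun q hq =>
    hN ⟨_, Ideal.mem_map_of_mem _ ((hJ q).2 hq), rfl⟩
  have s1 : w - aeval t a ∈ B.nonunits := by
    have := m2 (X - C a) (by simp)
    rwa [map_sub, aevalAeval_C, aevalAeval_Y] at this
  obtain ⟨O, rfl⟩ := exists_dv_of_val hG.ff B (by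
      rintro rfl
      rcases (ValuationSubring.mem_nonunits_iff_or _).1 s1 with h | h
      · exact hs h
      · exact h trivial) fun c => by
    have := m1 (C (C c))
    rwa [aevalAeval_C, aeval_C] at this
  have ht : t ∈ O.O := by
    have := m1 (C X)
    rwa [aevalAeval_C, aeval_X] at this
  refine ⟨O, ht, (O.ord_pos_iff hs).2 s1, (minpoly.eq_of_irreducible_of_monic f2 ?_ f1).symm⟩
  have := m2 (C f) (by simp)
  rw [aevalAeval_C] at this
  rw [← (O.A1_paeval ht f).2]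
  exact (O.res_eq_zero_iff' (O.A1_paeval ht f).1).2 this

end

theorem sHo2 (h1 : SLoc) : SHo2 := by
  intro L F _ _ _ π t w hG a hsep f hf
  obtain ⟨hs, hl⟩ := h1 L F π t w hG a hsep
  obtain ⟨O, hO⟩ := sHo2_ex hG hs hf
  refine ⟨O, hO, fun O' hO' => DV.eq_of_le fun z hz => ?_⟩
  rcases eq_or_ne z 0 with rfl | hz0
  · exact zero_mem _
  obtain ⟨n, p, q, hp, hq, e⟩ := hl f hf z hz0
  have key : ∀ U : DV L F, (t ∈ U.O ∧ 0 < U.ord (w - aeval t a) ∧ minpoly L (U.res t) = f) →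
      (z ∈ U.O ↔ 0 ≤ n) := by
    rintro U ⟨u1, u2, u3⟩
    obtain ⟨p1, p2⟩ := sHo2_unit U u1 u2 p (u3 ▸ hp)
    obtain ⟨q1, q2⟩ := sHo2_unit U u1 u2 q (u3 ▸ hq)
    have := congrArg U.ord e
    rw [U.ord_mul hz0 q1, U.ord_mul (zpow_ne_zero _ hs) p1, U.ord_zpow, p2, q2, add_zero,
      add_zero] at this
    rw [← U.ord_nonneg_iff, this]
    exact mul_nonneg_iff_of_pos_right u2
  exact (key O hO).2 ((key O' hO').1 hz)

end Pool.Agent.MP_a9d3bd_yy
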