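import Pool.Agent.MP_a9d3bd_yy.BSt

namespace Pool.Agent.MP_a9d3bd_yy

open Polynomial IntermediateField Pool.Agent.MP_a9d3bd_q Pool.Agent.MP_a9d3bd_x

theorem sLoc_fac {L F : Type} [Field L] [Field F] (ev : L[X][X] →+* F) (π : L[X][X])
    (hk : ∀ Q, ev Q = 0 ↔ π ∣ Q) (a f : L[X]) (hs : (π.eval a).Separable) (hf : Irreducible f)
    (hd : f ∣ π.eval a) (r : L[X][X]) (hr : ev r ≠ 0) :
    ∃ (n : ℕ) (p q : L[X][X]), ¬ f ∣ p.eval a ∧ ¬ f ∣ q.eval a ∧
      ev r * ev q = ev (X - C a) ^ n * ev p := by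
  have hp := hf.prime
  have h1 : ∀ Q, ev Q = 0 → f ∣ Q.eval a := fun Q hQ => hd.trans (eval_dvd ((hk Q).1 hQ))
  obtain ⟨h, hh⟩ := hd
  have hfh : ¬ f ∣ h := fun ⟨k, hk'⟩ => hf.not_isUnit (hs.squarefree f ⟨k, by
    rw [hh, hk', mul_assoc]⟩)
  have h2 : ∀ Q : L[X][X], f ∣ Q.eval a → ∃ Q1, ev (C h) * ev Q = ev (X - C a) * ev Q1 := by
    rintro Q ⟨k, hk'⟩
    obtain ⟨ρ, hρ⟩ := X_sub_C_dvd_sub_C_eval (a := a) (p := π)
    obtain ⟨Q', hQ'⟩ := X_sub_C_dvd_sub_C_eval (a := a) (p := Q)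
    rw [hh, C_mul] at hρ
    rw [hk', C_mul] at hQ'
    refine ⟨C h * Q' - C k * ρ, ?_⟩
    have e : C h * Q = (X - C a) * (C h * Q' - C k * ρ) + C k * π := by
      linear_combination C h * hQ' - C k * hρ
    rw [← map_mul, e, map_add, map_mul ev (C k), (hk π).2 dvd_rfl, mul_zero, add_zero, map_mul]
  have : (Ideal.span {f}).IsPrime := (Ideal.span_singleton_prime hf.ne_zero).2 hp
  let M : Ideal L[X][X] := (Ideal.span {f}).comap (evalRingHom a)
  have hM : ∀ q, q ∈ M.primeCompl ↔ ¬ f ∣ q.eval a := fun q => by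
    rw [Ideal.mem_primeCompl_iff, Ideal.mem_comap, Ideal.mem_span_singleton, coe_evalRingHom]
  have hu : ∀ y : M.primeCompl, IsUnit (ev y) := fun y =>
    Ne.isUnit fun h0 => (hM y).1 y.2 (h1 _ h0)
  obtain ⟨Rl, _, _, _, _⟩ : ∃ (Rl : Type) (_ : CommRing Rl) (_ : Algebra L[X][X] Rl)
      (_ : IsLocalization M.primeCompl Rl), IsNoetherianRing Rl :=
    ⟨Localization.AtPrime M, inferInstance, inferInstance, inferInstance, inferInstance⟩
  let φ : Rl →+* F := IsLocalization.lift hu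
  have hin : ∀ z p q, ¬ f ∣ q.eval a → z * ev q = ev p → z ∈ φ.range := fun z p q hq e => by
    refine RingHom.mem_range.2 ⟨IsLocalization.mk' Rl p
      (⟨q, (hM q).2 hq⟩ : M.primeCompl), ?_⟩
    exact (IsLocalization.lift_mk'_spec (S := Rl) hu p z ⟨q, (hM q).2 hq⟩).2 (e.symm.trans (mul_comm _ _))
  have hout : ∀ z ∈ φ.range, ∃ p q, ¬ f ∣ q.eval a ∧ z * ev q = ev p := by
    rintro _ ⟨y, rfl⟩
    obtain ⟨⟨p, q⟩, e⟩ := IsLocalization.surj M.primeCompl y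
    refine ⟨p, q, (hM q).1 q.2, ?_⟩
    have := congrArg φ e
    rwa [map_mul, IsLocalization.lift_eq, IsLocalization.lift_eq] at this
  have hone : ¬ f ∣ (1 : L[X][X]).eval a := by
    rw [eval_one]
    exact fun h => hf.not_isUnit (isUnit_of_dvd_one h)
  have hev : ∀ p, ev p ∈ φ.range := fun p => hin _ p 1 hone (by rw [map_one, mul_one])
  have hns : ¬ IsUnit (⟨ev (X - C a), hev _⟩ : φ.range) := fun hu' => by
    obtain ⟨y, hy⟩ := hu'.exists_right_inv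
    obtain ⟨p, q, hq, e⟩ := hout y y.2
    have e1 : ev (X - C a) * (y : F) = 1 := congrArg Subtype.val hy
    have e2 : ev (q - (X - C a) * p) = 0 := by
      rw [map_sub, map_mul, ← e, ← mul_assoc, e1, one_mul, sub_self]
    exact hq (by simpa using h1 _ e2)
  obtain ⟨n, y, hy, e⟩ := WfDvdMonoid.max_power_factor' (a₀ := (⟨ev r, hev r⟩ : φ.range))
    (fun h0 => hr (congrArg Subtype.val h0)) hns
  obtain ⟨p, q, hq, e1⟩ := hout y y.2
  have e2 : ev r = ev (X - C a) ^ n * (y : F) := congrArg Subtype.val e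
  refine ⟨n, p, q, fun hfp => hy ?_, hq, by rw [e2, mul_assoc, e1]⟩
  obtain ⟨Q1, e3⟩ := h2 p hfp
  have hq' : ¬ f ∣ (C h * q).eval a := by
    rw [eval_mul, eval_C]
    exact fun h' => (hp.dvd_or_dvd h').elim hfh hq
  have hne : ev (C h * q) ≠ 0 := fun h0 => hq' (h1 _ h0)
  refine ⟨⟨ev Q1 / ev (C h * q), hin _ Q1 _ hq' (div_mul_cancel₀ _ hne)⟩, Subtype.ext ?_⟩
  show (y : F) = ev (X - C a) * (ev Q1 / ev (C h * q))
  rw [← mul_div_assoc, eq_div_iff hne, ← e3, ← e1, map_mul]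
  ring

theorem sLoc : SLoc := by
  intro L F _ _ _ π t w hg a hs
  have hsv : w - aeval t a = aevalAeval t w (X - C a) := by simp
  have hs0 : aevalAeval t w (X - C a) ≠ 0 := fun h0 => by
    have h1 := (hg.ker _).1 h0
    have h2 : ¬ IsUnit π := fun hu => by
      have := (hg.ker 1).2 hu.dvd
      rw [map_one] at this
      exact one_ne_zero this
    obtain ⟨k, hk⟩ := h1
    have h3 : IsUnit k := ((irreducible_X_sub_C a).isUnit_or_isUnit hk).resolve_left h2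
    have h4 := congrArg (evalRingHom a) hk
    rw [map_mul] at h4
    have h5 := (h3.map (evalRingHom a)).ne_zero
    simp only [coe_evalRingHom, eval_sub, eval_X, eval_C, sub_self] at h4 h5
    exact mul_ne_zero hs.ne_zero h5 h4.symm
  rw [hsv]
  refine ⟨hs0, fun f hf z hz => ?_⟩
  have hle : Algebra.adjoin L {t, w} ≤ (aevalAeval t w : L[X][X] →ₐ[L] F).range := by
    refine Algebra.adjoin_le ?_
    rintro _ (rfl | rfl)
    · exact ⟨C X, aevalAeval_X _ _⟩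
    · exact ⟨X, aevalAeval_Y _ _⟩
  have hz' : z ∈ L⟮t, w⟯ := by rw [hg.top]; trivial
  obtain ⟨u, hu, v, hv, rfl⟩ := IntermediateField.mem_adjoin_iff_div.1 hz'
  obtain ⟨r1, rfl⟩ := hle hu
  obtain ⟨r2, rfl⟩ := hle hv
  obtain ⟨z1, z2⟩ := div_ne_zero_iff.1 hz
  obtain ⟨n1, p1, q1, a1, b1, e1⟩ := sLoc_fac (aevalAeval t w : L[X][X] →ₐ[L] F).toRingHom π
    hg.ker a f hs hf.2.1 hf.2.2 r1 z1
  obtain ⟨n2, p2, q2, a2, b2, e2⟩ := sLoc_fac (aevalAeval t w : L[X][X] →ₐ[L] F).toRingHom π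
    hg.ker a f hs hf.2.1 hf.2.2 r2 z2
  have hp := hf.2.1.prime
  refine ⟨(n1 : ℤ) - n2, p1 * q2, q1 * p2, ?_, ?_, ?_⟩
  · rw [eval_mul]
    exact fun h => (hp.dvd_or_dvd h).elim a1 b2
  · rw [eval_mul]
    exact fun h => (hp.dvd_or_dvd h).elim b1 a2
  · simp only [AlgHom.toRingHom_eq_coe, RingHom.coe_coe] at e1 e2 z2 ⊢
    rw [zpow_sub₀ hs0, zpow_natCast, zpow_natCast, map_mul, map_mul]
    generalize aevalAeval t w (X - C a) = s at *
    have := pow_ne_zero n2 hs0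
    field_simp
    linear_combination (s ^ n2 * aevalAeval t w p2) * e1 -
      (s ^ n1 * aevalAeval t w p1) * e2

end Pool.Agent.MP_a9d3bd_yy
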