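import Pool.Agent.MP_a9d3bd_yy.BSt

namespace Pool.Agent.MP_a9d3bd_yy

open Polynomial IntermediateField Pool.Agent.MP_a9d3bd_q Pool.Agent.MP_a9d3bd_x

variable {K E : Type} [Field K] [Field E] [Algebra K E]

theorem sNd_sm (hE : FF K E 1) {z y : Fin 4 → E} {e : E}
    (hy : ∀ a, y a ∈ (⊥ : IntermediateField K E)) (h : z = e • y) : ¬ ND K z := by
  refine not_nd_of_le hE (F := ⊥) ((kf_le_iff _ _).2 fun a b => ?_) ?_
  · subst h
    by_cases he : e = 0
    · simp [he]
    · rw [Pi.smul_apply, Pi.smul_apply, smul_eq_mul, smul_eq_mul, mul_div_mul_left _ _ he]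
      exact div_mem (hy a) (hy b)
  · unfold td
    rw [trdeg_eq_zero]
    simp

theorem sNd_rng [IsAlgClosed K] {u : E} (h : IsAlgebraic K u) : ∃ a : K, algebraMap K E a = u :=
  minpoly.mem_range_of_degree_eq_one K u
    (IsAlgClosed.degree_eq_one_of_irreducible K (minpoly.irreducible h.isIntegral))

theorem sNd_ev (P : MvPolynomial (Fin 4) K) (v : Fin 4 → K[X]) (u : E) (w : Fin 4 → E)
    (h : ∀ i, aeval u (v i) = w i) :
    aeval u (MvPolynomial.aeval v P) = MvPolynomial.aeval w P := by
  rw [← funext h]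
  exact MvPolynomial.comp_aeval_apply v (aeval u) P

theorem sNd_ne [IsAlgClosed K] {P : MvPolynomial (Fin 4) K} {d : ℕ} (hP : P.IsHomogeneous d)
    {c : K} (hc : MvPolynomial.eval ![0, 0, 1, c] P ≠ 0) (x e : K) :
    MvPolynomial.aeval ![1, C x, X, C c * X + C e] P ≠ (0 : K[X]) := fun hq => by
  have hr : MvPolynomial.aeval ![X, X * C x, 1, C c + X * C e] P = (0 : K[X]) := by
    refine eq_zero_of_infinite_isRoot _ ((Set.finite_singleton (0 : K)).infinite_compl.mono ?_)
    intro t ht
    have ht0 : t ≠ 0 := ht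
    have h1 := sNd_ev P ![X, X * C x, 1, C c + X * C e] t (t • ![1, x, t⁻¹, c * t⁻¹ + e])
      fun i => by
        fin_cases i
        · simp
        · simpa using mul_comm x t
        · simp [ht0]
        · simp
          field_simp
    have h2 := sNd_ev P ![1, C x, X, C c * X + C e] t⁻¹ ![1, x, t⁻¹, c * t⁻¹ + e]
      fun i => by fin_cases i <;> simp
    rw [aeval_smul_hom hP, ← h2, hq, map_zero, mul_zero, coe_aeval_eq_eval] at h1
    exact h1
  have h1 := sNd_ev P ![X, X * C x, 1, C c + X * C e] (0 : K) ![0, 0, 1, c]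
    fun i => by fin_cases i <;> simp
  rw [hr, map_zero] at h1
  exact hc h1.symm

theorem sNd {K : Type} [Field K] [IsAlgClosed K] : SNd K := by
  intro P d hP c hc E _ _ hE z hz
  have hb : ∀ a : K, algebraMap K E a ∈ (⊥ : IntermediateField K E) := fun a =>
    IntermediateField.algebraMap_mem _ a
  refine ⟨fun h0 h1 => ?_, fun h0 h1 h2 => ?_⟩
  · by_cases h2 : z 2 = 0
    · refine sNd_sm hE (e := z 3) (y := ![0, 0, 0, 1]) (fun a => ?_) (funext fun a => ?_)
      · fin_cases a <;> simp [zero_mem, one_mem]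
      · fin_cases a <;> simp [h0, h1, h2]
    · have e : z = z 2 • ![0, 0, 1, z 3 / z 2] := funext fun a => by
        fin_cases a
        · simp [h0]
        · simp [h1]
        · simp
        · simp
          field_simp
      have a1 := sNd_ev P ![0, 0, 1, X] (z 3 / z 2) ![0, 0, 1, z 3 / z 2]
        fun i => by fin_cases i <;> simp
      have a2 := sNd_ev P ![0, 0, 1, X] c ![0, 0, 1, c] fun i => by fin_cases i <;> simp
      rw [e, aeval_smul_hom hP, ← a1] at hz
      obtain ⟨u, hu⟩ := sNd_rng (K := K) (u := z 3 / z 2) ⟨_, fun h => by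
        rw [h, map_zero] at a2
        exact hc a2.symm, (mul_eq_zero.1 hz).resolve_left (pow_ne_zero _ h2)⟩
      refine sNd_sm hE (fun a => ?_) e
      fin_cases a
      · exact zero_mem _
      · exact zero_mem _
      · exact one_mem _
      · exact hu ▸ hb u
  · obtain ⟨x, hx⟩ := sNd_rng h1
    obtain ⟨e, he⟩ := sNd_rng h2
    have h3 : z 3 = algebraMap K E c * z 2 + algebraMap K E e := by rw [he]; ring
    have a1 := sNd_ev P ![1, C x, X, C c * X + C e] (z 2) z fun i => by
      fin_cases i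
      · simp [h0]
      · simp [hx]
      · simp
      · simp [h3]
    obtain ⟨u, hu⟩ := sNd_rng (K := K) (u := z 2) ⟨_, sNd_ne hP hc x e, a1.trans hz⟩
    refine sNd_sm hE (e := 1) (y := z) (fun a => ?_) (one_smul _ _).symm
    fin_cases a
    · exact (show z 0 ∈ _ from h0 ▸ one_mem _)
    · exact (show z 1 ∈ _ from hx ▸ hb x)
    · exact (show z 2 ∈ _ from hu ▸ hb u)
    · exact (show z 3 ∈ _ from h3 ▸ add_mem (mul_mem (hb c) (hu ▸ hb u)) (hb e))

end Pool.Agent.MP_a9d3bd_yy
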