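import Pool.Agent.MP_a9d3bd_yy.BSt

namespace Pool.Agent.MP_a9d3bd_yy

open Polynomial IntermediateField Pool.Agent.MP_a9d3bd_q Pool.Agent.MP_a9d3bd_x

section
variable {L F : Type} [Field L] [Field F] [Algebra L F]

theorem sPt_mem (U : ValuationSubring F) (hL : ∀ z : L, algebraMap L F z ∈ U) {t : F} (ht : t ∈ U)
    (p : L[X]) : aeval t p ∈ U := by
  induction p using Polynomial.induction_on' with
  | add p q hp hq => rw [map_add]; exact add_mem hp hq
  | monomial n c => rw [aeval_monomial]; exact mul_mem (hL c) (pow_mem ht n)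

theorem sPt_mem2 (U : ValuationSubring F) (hL : ∀ z : L, algebraMap L F z ∈ U) {t w : F}
    (ht : t ∈ U) (hw : w ∈ U) (Q : L[X][X]) : aevalAeval t w Q ∈ U := by
  induction Q using Polynomial.induction_on' with
  | add p q hp hq => rw [map_add]; exact add_mem hp hq
  | monomial n c =>
    rw [← C_mul_X_pow_eq_monomial, map_mul, map_pow, aevalAeval_C, aevalAeval_Y]
    exact mul_mem (sPt_mem U hL ht c) (pow_mem hw n)

theorem sPt_val (U : ValuationSubring F) (hL : ∀ z : L, algebraMap L F z ∈ U) {t w : F}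
    (ht : t ∈ U) (hw : w ∈ U) {π : L[X][X]} (hπ : aevalAeval t w π = 0) {a b : L[X]}
    (hc : IsCoprime (π.eval a) (a - b)) (ha : U.valuation (w - aeval t a) < 1)
    (hb : U.valuation (w - aeval t b) < 1) : False := by
  have le1 : ∀ p : L[X], U.valuation (aeval t p) ≤ 1 := fun p =>
    (U.valuation_le_one_iff _).2 (sPt_mem U hL ht p)
  have h1 : U.valuation (aeval t (a - b)) < 1 := by
    have e : aeval t (a - b) = (w - aeval t b) - (w - aeval t a) := by rw [map_sub]; ring
    rw [e]
    exact (U.valuation.map_sub _ _).trans_lt (max_lt hb ha)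
  have h2 : U.valuation (aeval t (π.eval a)) < 1 := by
    obtain ⟨r, hr⟩ := X_sub_C_dvd_sub_C_eval (a := a) (p := π)
    have e := congrArg (aevalAeval t w) hr
    rw [map_sub, map_mul, map_sub, hπ, aevalAeval_C, aevalAeval_C, aevalAeval_Y, zero_sub] at e
    rw [← U.valuation.map_neg, e, map_mul]
    exact mul_lt_one_of_nonneg_of_lt_one_left zero_le ha
      ((U.valuation_le_one_iff _).2 (sPt_mem2 U hL ht hw r))
  obtain ⟨c, d, hcd⟩ := hc
  have e := congrArg (aeval t) hcd
  rw [map_add, map_mul, map_mul, map_one] at e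
  have h3 : U.valuation (1 : F) < 1 := by
    rw [← e]
    refine (U.valuation.map_add _ _).trans_lt (max_lt ?_ ?_)
    · rw [map_mul]
      exact mul_lt_one_of_nonneg_of_lt_one_right (le1 c) zero_le h2
    · rw [map_mul]
      exact mul_lt_one_of_nonneg_of_lt_one_right (le1 d) zero_le h1
  simp at h3

end

theorem sPt_lt {K F : Type} [Field K] [Field F] [Algebra K F] (O : DV K F) {u : F}
    (hu : u ∈ O.O) (h : O.ord u ≠ 0) : O.O.valuation u < 1 := by
  have h0 : u ≠ 0 := by
    rintro rfl
    exact h O.ord_zero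
  have h1 := (O.ord_nonneg_iff u).2 hu
  exact (ValuationSubring.mem_nonunits_iff _).1 ((O.ord_pos_iff h0).1 (by omega))

theorem sPt {K : Type} [Field K] [IsAlgClosed K] : SPt K := by
  intro P L F _ _ _ _ _ _ hL x hx π t w hG hd
  have hπ : aevalAeval t w π = 0 := (hG.ker π).2 dvd_rfl
  refine ⟨FF.of_tower hL hG.ff, ?_, ?_, ?_⟩
  · have h1 := (hG.ker _).2 hd
    have h2 := MvPolynomial.comp_aeval_apply (![1, C (C x), C X, X] : Fin 4 → L[X][X])
      ((aevalAeval t w).restrictScalars K) P
    have h3 : (fun i => ((aevalAeval t w).restrictScalars K)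
        ((![1, C (C x), C X, X] : Fin 4 → L[X][X]) i)) = ![1, algebraMap L F x, t, w] := by
      funext i
      fin_cases i <;> simp
    rw [h3] at h2
    rw [← h2]
    exact h1
  · set y : Fin 4 → F := ![1, algebraMap L F x, t, w] with hy
    have hm : ∀ i, y i ∈ kf K y := fun i => by
      have := div_mem_kf (k := K) y i 0
      simpa [hy] using this
    have hA : Algebra.IsAlgebraic (af K fun _ : Unit => x) L := PF1_nda hL hx
    have hle : (af K fun _ : Unit => x) ≤ (kf K y).comap (IsScalarTower.toAlgHom K L F) :=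
      (af_le_iff _ _).2 fun _ => hm 1
    have hl : ∀ l : L, IsAlgebraic (kf K y) (algebraMap L F l) := fun l =>
      (hA.isAlgebraic l).ringHom_of_comp_eq
        (((algebraMap L F).comp (algebraMap (af K fun _ : Unit => x) L)).codRestrict (kf K y)
          fun z => hle z.2) (algebraMap L F) (RingHom.injective _) (by ext z; rfl)
    let S : IntermediateField L F := (algebraicClosure (kf K y) F).toSubfield.toIntermediateField
      fun l => mem_algebraicClosure_iff.2 (hl l)
    have hS : L⟮t, w⟯ ≤ S := by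
      rw [adjoin_le_iff]
      rintro z (rfl | rfl)
      · exact mem_algebraicClosure_iff.2 (isAlgebraic_algebraMap (⟨_, hm 2⟩ : kf K y))
      · exact mem_algebraicClosure_iff.2 (isAlgebraic_algebraMap (⟨_, hm 3⟩ : kf K y))
    rw [hG.top] at hS
    exact ⟨fun z => mem_algebraicClosure_iff.1 (hS (mem_top (x := z)))⟩
  · intro O hO ht hw a b hc
    by_contra hn
    rw [not_or] at hn
    exact sPt_val O.O hO ht hw hπ hc (sPt_lt O (sub_mem hw (sPt_mem O.O hO ht a)) hn.1)
      (sPt_lt O (sub_mem hw (sPt_mem O.O hO ht b)) hn.2)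

end Pool.Agent.MP_a9d3bd_yy
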