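import Pool.Agent.MP_a9d3bd_yy.BSt

namespace Pool.Agent.MP_a9d3bd_yy

open Polynomial IntermediateField Pool.Agent.MP_a9d3bd_q Pool.Agent.MP_a9d3bd_x

theorem sRp {K : Type} [Field K] [IsAlgClosed K] (h1 : SGen) (h2 : SLoc) (h3 : SPt K)
    (h4 : SCls K) (h5 : STm K) (h6 : SSum K) : SRp K := by
  intro P d hP Λ hΛ hC L _ _ hL x hx c δ hcf π hπ hdv hT
  obtain ⟨F, _, _, t, w, hG⟩ := h1 L π hπ
  let _ : Algebra K F := ((algebraMap L F).comp (algebraMap K L)).toAlgebra
  have : IsScalarTower K L F := IsScalarTower.of_algebraMap_eq fun _ => rfl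
  set a : Fin 4 → L[X] := fun i => ln (c i) (δ i) with ha
  set l : Fin 4 → F := fun i => w - aeval t (a i) with hl
  set y : Fin 4 → F := ![1, algebraMap L F x, t, w] with hy
  have l0 : ∀ i, l i ≠ 0 := fun i => (h2 L F π t w hG (a i) (hT.sep i)).1
  obtain ⟨hF, hon, hnd, hor⟩ := h3 P L F hL x hx π t w hG hdv
  have y0 : y ≠ 0 := fun h => one_ne_zero (congrFun h 0)
  have cls := h4 P d hP L F hL hF x t w hon c δ hcf l0
  have alt : ∀ O : DV K F, (∀ z : L, algebraMap L F z ∈ O.O) ∧ t ∈ O.O ∧ w ∈ O.O →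
      (O.ord (l 0) = 0 ∧ O.ord (l 1) = 0) ∨ (O.ord (l 2) = 0 ∧ O.ord (l 3) = 0) := by
    rintro O ⟨o1, o2, o3⟩
    have e02 := hor O o1 o2 o3 _ _ hT.c02
    have e03 := hor O o1 o2 o3 _ _ hT.c03
    have e12 := hor O o1 o2 o3 _ _ hT.c12
    have e13 := hor O o1 o2 o3 _ _ hT.c13
    simp only [hl]
    tauto
  have hS : ∀ {E : Type} [Field E] [Algebra K E] {z : Fin 4 → E}, MvPolynomial.aeval z P = 0 →
      On {P} z := fun h Q hQ => by rwa [Set.mem_singleton_iff.1 hQ]
  have key := hΛ.tame F hF y (l 1 / l 0) (l 2 / l 3) y0 (hS hon) hnd (div_ne_zero (l0 1) (l0 0))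
    (div_ne_zero (l0 2) (l0 3)) fun O hO => by
      rcases cls O hO with h | h
      · rw [O.ord_div (l0 1) (l0 0), O.ord_div (l0 2) (l0 3)]
        rcases alt O h with h | h <;> simp [h.1, h.2]
      · exact Or.inr h.1
  set B : Fin 4 → Fin 4 → DV K F → ℚ := fun i j => Bs Λ x t w (a i) (a j) with hB
  have pw : ∀ O : DV K F, Λ O.K (O.red y) (O.tame (l 1 / l 0) (l 2 / l 3)) =
      (B 1 2 O - B 2 1 O) - (B 1 3 O - B 3 1 O) - (B 0 2 O - B 2 0 O) + (B 0 3 O - B 3 0 O) := by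
    intro O
    have hK : FF K O.K 1 := O.ff_K hF
    have hr := O.aeval_red_of_zero hP hon
    by_cases h : (∀ z : L, algebraMap L F z ∈ O.O) ∧ t ∈ O.O ∧ w ∈ O.O
    · simp only [hB, Bs, if_pos h]
      exact h5 F O (Λ O.K (O.red y))
        (fun u v => hΛ.mul O.K hK _ u v (O.red_ne y0) (hS hr)) l l0 (alt O h)
    · simp only [hB, Bs, if_neg h, sub_self, add_zero]
      by_cases hO : ND K (O.red y)
      · obtain ⟨-, κ, hκ, e⟩ := (cls O hO).resolve_left h
        exact (congrArg _ e).trans (hC O.K hK _ (O.red_ne y0) hr κ hκ)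
      · exact hΛ.degen O.K hK _ _ hO
  have hs := fun i j => h6 Λ (asm_pre hΛ) L F hL x π t w hG (a i) (a j) (hT.sep i)
  have fin : ∀ i j, Function.HasFiniteSupport (B i j) := fun i j => (hs i j).1
  rw [finsum_congr pw, finsum_add_distrib, finsum_sub_distrib, finsum_sub_distrib,
    finsum_sub_distrib, finsum_sub_distrib, finsum_sub_distrib, finsum_sub_distrib] at key
  · simp only [hB, fun i j => (hs i j).2] at key
    exact key
  all_goals
    repeat first | exact fin _ _ | refine Function.HasFiniteSupport.sub ?_ ?_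
end Pool.Agent.MP_a9d3bd_yy
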