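import Pool.Agent.MP_a9d3bd_yy.BSt

/-! The statement for sections from the combinatorial core. -/

namespace Pool.Agent.MP_a9d3bd_yy

open Polynomial IntermediateField Pool.Agent.MP_a9d3bd_q Pool.Agent.MP_a9d3bd_x
  Pool.Agent.MP_a9d3bd_zz

/-- the core statement -/
def ZC (K : Type) [Field K] (p : ℕ) : Prop :=
  ∀ (A ι : Type) [CommRing A] [IsDedekindDomain A] [Algebra K A] [Algebra K[X] A]
    [IsScalarTower K K[X] A] [Module.Finite K[X] A] [Module.IsTorsionFree K[X] A] [Fintype ι]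
    [DecidableEq ι] (m : ℕ) (S : Su K A ι m), S.Qk p S.q1 → ∀ μ : Su.Mu K A ι m, S.Good μ →
    ∀ (J : Type) [Fintype J] (g : J → Fin m × ι → K) (t : J → A) (u : J → FractionRing A)
      (ν : J → (A →ₐ[K] K) →₀ ℤ) (r : J → ℝ), (∀ j, S.Adm S.c0 (g j)) →
      (∀ j, (S.fL S.c0 (g j)).IsRoot (algebraMap A _ (t j))) → (∀ j, Su.Dvs K (u j) (ν j)) →
      (∀ j, ((ν j).sum fun _ z => z) = 0) →
      (∀ j, ∀ β ∈ (ν j).support, (derivative (S.fp β S.c0 (g j))).eval (β (t j)) ≠ 0) →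
      (∀ (β : A →ₐ[K] K) (t0 w0 : K), ∑ j, (open Classical in
        if β (t j) = t0 ∧ S.c0 * t0 + gam S.e β (g j) = w0 then r j * ν j β else 0) = 0) →
      ∑ j, r j * μ S.c0 (g j) (X - C (algebraMap A _ (t j))) (C (u j)) = 0

/-- existence of the data -/
def ZE (K : Type) [Field K] (p : ℕ) : Prop :=
  ∀ (A : Type) [CommRing A] [IsDedekindDomain A] [Algebra K A] [Algebra K[X] A]
    [IsScalarTower K K[X] A] [Module.Finite K[X] A] [Module.IsTorsionFree K[X] A], Gal K A →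
    ∀ (P : MvPolynomial (Fin 3) K) (d : ℕ), 0 < d → P.totalDegree ≤ d → ∀ c0 : K, pd P d c0 ≠ 0 →
    ∀ s : Finset A, ∃ (n m : ℕ) (S : Su K A (Fin n) m), S.P = P ∧ S.d = d ∧ S.c0 = c0 ∧
      S.Qk p S.q1 ∧ 2 ≤ S.M ∧ ∀ a ∈ s, ∃ g : Fin m × Fin n → K,
        a = gam S.e (AlgHom.id K A) fun v => algebraMap K A (g v)

variable {K : Type} [Field K]

theorem sSc_cst (p : ℕ) [Fact p.Prime] (halg : ∀ a : K, ∃ n, 0 < n ∧ a ^ p ^ n = a)
    {P : MvPolynomial (Fin 4) K} {Λ : Lm K} (h : GF {P} Λ) : Cst P Λ := by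
  intro E _ _ hE y hy hP κ hκ
  have hm := fun u v => h.mul E hE y u v hy (fun G hG => by rw [hG]; exact hP)
  have hk : algebraMap K E κ ≠ 0 := (_root_.map_ne_zero _).2 hκ
  have h1 : ∀ n : ℕ, Λ E y (algebraMap K E κ ^ (n + 1)) = (n + 1) * Λ E y (algebraMap K E κ) := by
    intro n
    induction n with
    | zero => simp
    | succ n ih => rw [pow_succ, hm _ _ (pow_ne_zero _ hk) hk, ih]; push_cast; ring
  obtain ⟨n, hn, h2⟩ := halg κ
  have h3 : 1 < p ^ n := Nat.one_lt_pow hn.ne' (Fact.out : p.Prime).one_lt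
  obtain ⟨k, hk2⟩ : ∃ k, p ^ n = k + 1 + 1 := ⟨p ^ n - 2, by omega⟩
  have h4 := h1 (k + 1)
  rw [← hk2, ← map_pow, h2] at h4
  have h5 : ((k : ℚ) + 1) * Λ E y (algebraMap K E κ) = 0 := by push_cast at h4; linarith
  exact (mul_eq_zero.1 h5).resolve_left (by positivity)

theorem sSc_gam {A ι T : Type} [CommRing A] [Algebra K A] [Algebra K[X] A] [Fintype ι]
    [CommRing T] [Algebra K T] {m : ℕ} (e : ι → A) (θ : A →ₐ[K] T) (g : Fin m × ι → K) :
    θ (gam e (AlgHom.id K A) fun v => algebraMap K A (g v)) =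
      gam e θ fun v => algebraMap K T (g v) := by
  simp [gam, map_sum]

theorem sSc (p : ℕ) [Fact p.Prime] (halg : ∀ a : K, ∃ n, 0 < n ∧ a ^ p ^ n = a) (h1 : ZC K p)
    (h2 : ZE K p) (h3 : SGd K) (h4 : SMu K) (h5 : SAf K) : SC K := by
  classical
  intro P d hd hP h0 Λ hL A _ _ _ _ _ _ _ hG hF J _ t w u ν r a1 a2 a3 a4 a5 a6
  obtain ⟨b1, b2, -⟩ := h5 P d hP
  obtain ⟨n, m, S, c1, c2, c3, c4, c5, c6⟩ := h2 A hG (aff P) d hd b1 0 (by rw [b2]; exact h0)
    (Finset.univ.image w)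
  choose g hg using fun j => c6 (w j) (Finset.mem_image_of_mem _ (Finset.mem_univ j))
  have e1 : ∀ (T : Type) [CommRing T] [Algebra K T] (θ : A →ₐ[K] T) j,
      S.wl θ (algebraMap K T S.c0) (fun v => algebraMap K T (g j v)) = C (θ (w j)) := by
    intro T _ _ θ j
    rw [hg j, sSc_gam, Su.wl, c3]
    simp
  have e2 : ∀ (β : A →ₐ[K] K) j, S.fp β S.c0 (g j) = fib (aff P) (β (xA K A)) (β (w j)) := by
    intro β j
    have := e1 K β j
    simp only [Algebra.algebraMap_self, RingHom.id_apply] at this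
    rw [Su.fp, this, c1]
    rfl
  have e3 : ∀ (T : Type) [CommRing T] [Algebra K T] (θ : A →ₐ[K] T) j,
      (MvPolynomial.aeval ![C (θ (xA K A)), X, C (θ (w j))] (aff P) : T[X]).eval (θ (t j)) = 0 := by
    intro T _ _ θ j
    have := congrArg θ (a1 j)
    rw [map_zero, ← AlgHom.comp_apply, MvPolynomial.comp_aeval] at this
    have e := MvPolynomial.comp_aeval (R := K) ![C (θ (xA K A)), X, C (θ (w j))]
      ((aeval (θ (t j)) : T[X] →ₐ[T] T).restrictScalars K)
    have e' := congrArg (fun φ => φ (aff P)) e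
    simp only [AlgHom.comp_apply, AlgHom.restrictScalars_apply, coe_aeval_eq_eval] at e'
    rw [e', ← this]
    congr 2
    funext i
    fin_cases i <;> simp
  have key := h1 A (Fin n) m S c4 _ (h3 P d hP Λ hL (sSc_cst p halg hL) A (Fin n) m S hF c1 c2 c3 c5)
    J g t u ν (fun j => (r j : ℝ)) (fun j => ⟨S.h0, by
      obtain ⟨β, hβ⟩ := a4 j
      exact ⟨β, by rw [e2]; exact hβ⟩⟩)
    (fun j => by
      rw [Su.fL, Su.fp, e1, c1]
      exact e3 _ (Su.gp K A) j) a2 a3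
    (fun j β hβ => by
      rw [e2]
      have := (a5 j β hβ).aeval_derivative_ne_zero (x := β (t j)) (by
        rw [coe_aeval_eq_eval]; exact e3 K β j)
      rwa [coe_aeval_eq_eval] at this)
    (fun β t0 w0 => by
      have := congrArg (fun z : ℚ => (z : ℝ)) (a6 β t0 w0)
      simp only [Rat.cast_sum, Rat.cast_zero] at this
      refine Eq.trans (Finset.sum_congr rfl fun j _ => ?_) this
      have e : S.c0 * t0 + gam S.e β (g j) = β (w j) := by
        rw [c3, hg j, sSc_gam]; simp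
      rw [e]
      split_ifs <;> simp)
  have e4 : ∀ j, mu0 Λ (xL K A) (S.wl (Su.gp K A) (algebraMap K _ S.c0)
      fun v => algebraMap K _ (g j v)) (X - C (algebraMap A _ (t j))) (C (u j)) =
      Λ (FractionRing A) ![1, xL K A, algebraMap A _ (t j), algebraMap A _ (w j)] (u j) := by
    intro j
    rw [e1, h4 Λ (asm_pre hL) _ hF _ _ _ _ (irreducible_X_sub_C _) (FractionRing A)
      ((aeval (algebraMap A (FractionRing A) (t j)) :
        (FractionRing A)[X] →ₐ[FractionRing A] FractionRing A).restrictScalars K)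
      (fun z => ⟨C z, by simp⟩) (by simp)]
    simp [Su.gp]
  simp only [e4] at key
  exact_mod_cast key

end Pool.Agent.MP_a9d3bd_yy
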