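import Pool.Agent.MP_a9d3bd_yy.BSt

namespace Pool.Agent.MP_a9d3bd_yy

open Polynomial IntermediateField Pool.Agent.MP_a9d3bd_q Pool.Agent.MP_a9d3bd_x

theorem sSum_rho {K L F : Type} [Field K] [Field L] [Field F] [Algebra K L] [Algebra K F]
    [Algebra L F] [IsScalarTower K L F] (O : DV L F) {t : F} (ht : t ∈ O.O) :
    ∃ ρ : L[X] →ₐ[K] (O.down K).K, ∀ p, ρ p = (O.down K).res (aeval t p) := by
  have hm : ∀ p : L[X], aeval t p ∈ (O.down K).O := fun p => (O.A1_paeval ht p).1
  refine ⟨⟨⟨⟨⟨fun p => (O.down K).res (aeval t p), ?_⟩, fun p q => ?_⟩, ?_, fun p q => ?_⟩,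
    fun c => ?_⟩, fun _ => rfl⟩
  · simp only [map_one]
    exact (O.down K).res_one
  · simp only [map_mul]
    exact (O.down K).res_mul (hm p) (hm q)
  · simp only [map_zero]
    exact (O.down K).res_zero
  · simp only [map_add]
    exact (O.down K).res_add (hm p) (hm q)
  · change (O.down K).res (aeval t (algebraMap K L[X] c)) = _
    rw [Polynomial.algebraMap_apply, aeval_C, ← IsScalarTower.algebraMap_apply]
    exact (O.down K).res_algebraMap c

theorem sSum {K : Type} [Field K] [IsAlgClosed K] (h1 : SHo1) (h2 : SHo2) (h3 : SMu K) :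
    SSum K := by
  intro Λ hΛ L F _ _ _ _ _ _ hL x π t w hg a b hsep
  have hs : ∀ O : DV K F, Bs Λ x t w a b O ≠ 0 →
      ((∀ z : L, algebraMap L F z ∈ O.O) ∧ t ∈ O.O ∧ w ∈ O.O) ∧ O.ord (w - aeval t a) ≠ 0 := by
    intro O hO
    unfold Bs at hO
    split_ifs at hO with h
    · exact ⟨h, fun e => hO (by rw [e, Int.cast_zero, zero_mul])⟩
    · exact absurd rfl hO
  refine ⟨finite_down hL.tr _ (fun O hO => (hs O hO).1.1)
    ((fs_one hg.ff (w - aeval t a)).subset fun O hO => (hs _ hO).2), ?_⟩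
  rw [finsum_down hL.tr _ fun O hO => (hs O hO).1.1]
  have hsub : Function.support (fun O : DV L F => Bs Λ x t w a b (O.down K)) ⊆
      {O | t ∈ O.O ∧ 0 < O.ord (w - aeval t a)} := fun O hO => by
    obtain ⟨⟨-, a1, a2⟩, a3⟩ := hs _ hO
    exact ⟨a1, lt_of_le_of_ne ((O.ord_nonneg_iff _).2 (sub_mem a2 (O.A1_paeval a1 a).1))
      (Ne.symm a3)⟩
  rw [← Set.indicator_eq_self.2 hsub, ← finsum_mem_def, Mq]
  refine finsum_mem_eq_of_bijOn (fun O : DV L F => minpoly L (O.res t)) ⟨fun O hO => ?_,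
    fun O hO O' hO' e => ?_, fun f hf => ?_⟩ fun O hO => ?_
  · exact (h1 L F π t w hg a hsep O hO.1 hO.2).2.1
  · exact (h2 L F π t w hg a hsep _ (h1 L F π t w hg a hsep O hO.1 hO.2).2.1).unique
      ⟨hO.1, hO.2, rfl⟩ ⟨hO'.1, hO'.2, e.symm⟩
  · obtain ⟨O, hO, -⟩ := h2 L F π t w hg a hsep f hf
    exact ⟨O, ⟨hO.1, hO.2.1⟩, hO.2.2⟩
  · obtain ⟨ht, hpos⟩ := hO
    obtain ⟨b1, b2, b3⟩ := h1 L F π t w hg a hsep O ht hpos
    obtain ⟨ρ, hρ⟩ := sSum_rho (K := K) O ht
    have hm : ∀ p : L[X], aeval t p ∈ (O.down K).O := fun p => (O.A1_paeval ht p).1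
    have m1 : w - aeval t a ∈ (O.down K).O := (O.ord_nonneg_iff _).1 hpos.le
    have hw : w ∈ (O.down K).O := by
      rw [← sub_add_cancel w (aeval t a)]
      exact add_mem m1 (hm a)
    have r1 : (O.down K).res w = ρ a := by
      have := (O.down K).res_sub hw (hm a)
      rw [(O.down K).res_eq_zero_of_pos hpos] at this
      rw [hρ]
      exact sub_eq_zero.1 this.symm
    have hint : (O.down K).Int ![1, algebraMap L F x, t, w] := fun i => by
      fin_cases i
      exacts [one_mem _, O.const x, ht, hw]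
    have hra : (O.down K).ra ![1, algebraMap L F x, t, w] = ![1, ρ (C x), ρ X, ρ a] := by
      funext i
      fin_cases i
      · exact (O.down K).res_one
      · rw [hρ, aeval_C]; rfl
      · rw [hρ X, aeval_X]; rfl
      · exact r1
    have hne : (O.down K).ra ![1, algebraMap L F x, t, w] ≠ 0 := fun e => by
      have := congrFun (hra.symm.trans e) 0
      exact one_ne_zero this
    have hf : ρ (minpoly L (O.res t)) = 0 := by
      rw [hρ]
      exact (O.A1_paeval ht _).2.trans (minpoly.aeval L _)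
    have hsurj : Function.Surjective ρ := fun z => by
      obtain ⟨p, hp⟩ := b3 z
      exact ⟨p, (hρ p).trans hp.symm⟩
    rw [h3 Λ hΛ L hL x a _ (a - b) b2.2.1 _ ρ hsurj hf, Bs, if_pos ⟨O.const, ht, hw⟩,
      down_ord, b1, Int.cast_one, one_mul, (O.down K).red_of_int hint hne, hra, map_sub,
      (O.down K).res_sub hw (hm b), r1, hρ b]

end Pool.Agent.MP_a9d3bd_yy
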