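import Pool.Agent.MP_a9d3bd_yy.BSt

namespace Pool.Agent.MP_a9d3bd_yy

open Polynomial IntermediateField Pool.Agent.MP_a9d3bd_q Pool.Agent.MP_a9d3bd_x

theorem sTm_pow {E : Type} [Field E] {φ : E → ℚ}
    (h : ∀ u v, u ≠ 0 → v ≠ 0 → φ (u * v) = φ u + φ v) {u v : E} (hu : u ≠ 0) (hv : v ≠ 0)
    (n : ℤ) : φ ((u / v) ^ n) = n * (φ u - φ v) := by
  have h0 : u / v ≠ 0 := div_ne_zero hu hv
  have h1 : φ (u / v) = φ u - φ v := by
    have := h (u / v) v h0 hv
    rw [div_mul_cancel₀ u hv] at this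
    linarith
  rw [← h1]
  induction n using Int.induction_on with
  | zero =>
    have := h 1 1 one_ne_zero one_ne_zero
    rw [mul_one] at this
    rw [zpow_zero]
    push_cast
    linarith
  | succ n ih =>
    rw [zpow_add_one₀ h0, h _ _ (zpow_ne_zero _ h0) h0, ih]
    push_cast
    ring
  | pred n ih =>
    have := h _ _ (zpow_ne_zero (-(n : ℤ) - 1) h0) h0
    rw [← zpow_add_one₀ h0, sub_add_cancel, ih] at this
    push_cast at this ⊢
    linarith

theorem sTm {K : Type} [Field K] [IsAlgClosed K] : STm K := by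
  intro F _ _ O φ h l hl h0
  have rn : ∀ i, O.ord (l i) = 0 → O.res (l i) ≠ 0 := fun i hi =>
    (O.res_ne_zero_iff _).2 ⟨hl i, hi⟩
  have rd : ∀ i j, O.ord (l i) = 0 → O.ord (l j) = 0 →
      O.res (l i / l j) = O.res (l i) / O.res (l j) := fun i j hi hj =>
    O.res_div ((O.ord_nonneg_iff _).1 hi.ge) hj
  rcases h0 with ⟨h1, h2⟩ | ⟨h1, h2⟩
  · rw [O.tame_of_left _ (by rw [O.ord_div (hl 1) (hl 0), h1, h2, sub_zero]), rd 1 0 h2 h1,
      sTm_pow h (rn 1 h2) (rn 0 h1), O.ord_div (hl 2) (hl 3), h1, h2]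
    push_cast
    ring
  · rw [O.tame_of_right _ (by rw [O.ord_div (hl 2) (hl 3), h1, h2, sub_zero]), rd 2 3 h1 h2,
      sTm_pow h (rn 2 h1) (rn 3 h2), O.ord_div (hl 1) (hl 0), h1, h2]
    push_cast
    ring

end Pool.Agent.MP_a9d3bd_yy
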