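import Pool.Agent.MP_a9d3bd_yy.BSt

/-! Admissible curves are reduced over the function field. -/

namespace Pool.Agent.MP_a9d3bd_yy

open Polynomial IntermediateField Pool.Agent.MP_a9d3bd_q Pool.Agent.MP_a9d3bd_x

theorem sZ1_top {K T : Type} [Field K] [CommRing T] [Algebra K T] (P : MvPolynomial (Fin 3) K)
    (d : ℕ) (hP : P.totalDegree ≤ d) (u : Fin 3 → T[X]) (hu : ∀ i, (u i).natDegree ≤ 1) :
    (MvPolynomial.aeval u P).natDegree ≤ d ∧ (MvPolynomial.aeval u P).coeff d =
      MvPolynomial.aeval (fun i => (u i).coeff 1) (MvPolynomial.homogeneousComponent d P) := by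
  have k : ∀ (s : Fin 3 →₀ ℕ) (a : K),
      (MvPolynomial.aeval u (MvPolynomial.monomial s a)).natDegree ≤ s.degree ∧
      (MvPolynomial.aeval u (MvPolynomial.monomial s a)).coeff s.degree =
        MvPolynomial.aeval (fun i => (u i).coeff 1) (MvPolynomial.monomial s a) := fun s a => by
    have p1 : ∀ i, (u i ^ s i).natDegree ≤ s i := fun i =>
      natDegree_pow_le.trans ((Nat.mul_le_mul_left _ (hu i)).trans_eq (mul_one _))
    have p2 : ∀ i, (u i ^ s i).coeff (s i) = (u i).coeff 1 ^ s i := fun i => by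
      rw [← coeff_pow_of_natDegree_le (hu i), mul_one]
    have p3 := natDegree_mul_le_of_le (p1 0) (p1 1)
    simp only [MvPolynomial.aeval_monomial, Finsupp.degree_eq_sum, Fin.sum_univ_three,
      Finsupp.prod_pow, Fin.prod_univ_three, Polynomial.algebraMap_apply]
    refine ⟨(natDegree_C_mul_le _ _).trans (natDegree_mul_le_of_le p3 (p1 2)), ?_⟩
    rw [coeff_C_mul, coeff_mul_add_eq_of_natDegree_le p3 (p1 2),
      coeff_mul_add_eq_of_natDegree_le (p1 0) (p1 1), p2, p2, p2]
  have l : ∀ s ∈ P.support, s.degree ≤ d := fun s hs => (MvPolynomial.le_totalDegree hs).trans hP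
  constructor
  · rw [P.as_sum, map_sum]
    exact natDegree_sum_le_of_forall_le _ _ fun s hs => (k s _).1.trans (l s hs)
  · rw [MvPolynomial.homogeneousComponent_apply, Finset.sum_filter, map_sum]
    conv_lhs => rw [P.as_sum, map_sum, finsetSum_coeff]
    refine Finset.sum_congr rfl fun s hs => ?_
    split_ifs with h
    · rw [← h]
      exact (k s _).2
    · rw [map_zero]
      exact coeff_eq_zero_of_natDegree_lt ((k s _).1.trans_lt (lt_of_le_of_ne (l s hs) h))

theorem sZ1_res {T : Type} [Field T] {f : T[X]} {n : ℕ} (h0 : f ≠ 0) (hn : f.natDegree = n) :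
    resultant f (derivative f) n n ≠ 0 ↔ f.Separable := by
  obtain ⟨k, hk⟩ := Nat.exists_eq_add_of_le ((natDegree_derivative_le f).trans (Nat.sub_le _ 1))
  have e := resultant_add_right_deg f (derivative f) f.natDegree _ k le_rfl
  rw [← hk, hn] at e
  rw [e, ← hn, mul_ne_zero_iff, Ne, Ne, resultant_eq_zero_iff, separable_def]
  simp [h0]

section
open MP_a9d3bd_zz MP_a9d3bd_zz.Su

variable {K A ι : Type} [Field K] [CommRing A] [IsDomain A] [Algebra K A]
  [Algebra K[X] A] [IsScalarTower K K[X] A] [Fintype ι] {m : ℕ} (S : Su K A ι m)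
  {T T' : Type} [CommRing T] [Algebra K T] [CommRing T'] [Algebra K T']

theorem sZ1_fp (θ : A →ₐ[K] T) (c : T) (g : Fin m × ι → T) :
    (S.fp θ c g).natDegree ≤ S.d ∧ (S.fp θ c g).coeff S.d = pd S.P S.d c := by
  have h := sZ1_top S.P S.d S.hP ![C (θ (xA K A)), X, S.wl θ c g] fun i => by
    fin_cases i
    · simp
    · exact natDegree_X_le
    · simp only [wl, Fin.reduceFinMk, Matrix.cons_val]
      compute_degree
  refine ⟨h.1, h.2.trans (congrArg (fun u => MvPolynomial.aeval u _) (funext fun i => ?_))⟩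
  fin_cases i
  · simp
  · simp
  · simp only [wl, Fin.reduceFinMk, Matrix.cons_val, coeff_add, coeff_C_mul, coeff_sub, coeff_X_one,
      coeff_C_succ]
    simp

theorem sZ1_map (φ : T →ₐ[K] T') (θ : A →ₐ[K] T) (c : T) (g : Fin m × ι → T) :
    (S.fp θ c g).map φ.toRingHom = S.fp (φ.comp θ) (φ c) fun v => φ (g v) := by
  refine (MvPolynomial.comp_aeval_apply _ (mapAlgHom φ) S.P).trans
    (congrArg (fun u => MvPolynomial.aeval u _) (funext fun i => ?_))
  fin_cases i <;> simp [wl, gam, Polynomial.map_sum]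

theorem sZ1_pd (φ : T →ₐ[K] T') (c : T) : φ (pd S.P S.d c) = pd S.P S.d (φ c) := by
  refine (MvPolynomial.comp_aeval_apply _ φ _).trans
    (congrArg (fun u => MvPolynomial.aeval u _) (funext fun i => ?_))
  fin_cases i <;> simp

end

theorem sZ1 {K : Type} [Field K] [IsAlgClosed K] : SZ1 K := by
  rintro A ι _ _ _ _ _ _ m S c g ⟨hc, θ, h1⟩
  have dg : ∀ (T : Type) [Field T] [Algebra K T] (φ : A →ₐ[K] T),
      (S.fp φ (algebraMap K T c) fun v => algebraMap K T (g v)) ≠ 0 ∧
      (S.fp φ (algebraMap K T c) fun v => algebraMap K T (g v)).natDegree = S.d := by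
    intro T _ _ φ
    have k0 := sZ1_fp S φ (algebraMap K T c) fun v => algebraMap K T (g v)
    have k : (S.fp φ (algebraMap K T c) fun v => algebraMap K T (g v)).coeff S.d ≠ 0 := by
      rw [k0.2]
      exact (sZ1_pd S (Algebra.ofId K T) c) ▸ (map_ne_zero (Algebra.ofId K T)).2 hc
    exact ⟨fun e => k (by rw [e, coeff_zero]), natDegree_eq_of_le_of_coeff_ne_zero k0.1 k⟩
  obtain ⟨F, hF⟩ : ∃ F, F = S.fp (AlgHom.id K A) (algebraMap K A c)
    fun v => algebraMap K A (g v) := ⟨_, rfl⟩
  have hr : ∀ (T : Type) [Field T] [Algebra K T] (φ : A →ₐ[K] T),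
      φ (resultant F (derivative F) S.d S.d) ≠ 0 ↔
        (S.fp φ (algebraMap K T c) fun v => algebraMap K T (g v)).Separable := by
    intro T _ _ φ
    have e : F.map φ.toRingHom = S.fp φ (algebraMap K T c) fun v => algebraMap K T (g v) := by
      rw [hF, sZ1_map]
      simp
    rw [← sZ1_res (dg T φ).1 (dg T φ).2, ← e, derivative_map, resultant_map_map]
    rfl
  refine (hr _ (MP_a9d3bd_zz.Su.gp K A)).1 fun e => (hr K θ).2 h1 ?_
  rw [(map_eq_zero_iff _ (IsFractionRing.injective A (FractionRing A))).1 e, map_zero]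

end Pool.Agent.MP_a9d3bd_yy
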