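import Pool.Agent.MP_a9d3bd_yy.BSt

namespace Pool.Agent.MP_a9d3bd_yy

open Polynomial IntermediateField Pool.Agent.MP_a9d3bd_q Pool.Agent.MP_a9d3bd_x

theorem sZ2_ev {K A : Type} [Field K] [CommRing A] [Algebra K A] [Algebra K[X] A]
    [IsScalarTower K K[X] A] (p : K[X]) :
    aeval (xL K A) p = algebraMap A (FractionRing A) (algebraMap K[X] A p) := by
  have h1 := aeval_algHom_apply ((IsScalarTower.toAlgHom K A (FractionRing A)).comp
    (IsScalarTower.toAlgHom K K[X] A)) X p
  rw [aeval_X_left_apply] at h1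
  exact h1

theorem sZ2 {K : Type} [Field K] [IsAlgClosed K] : SZ2 K := by
  intro A ι _ _ _ _ _ _ _ _ m S
  refine ⟨?_, fun V hV => ⟨fun hx a => ?_, fun hx g => ?_⟩⟩
  · rintro ⟨p, hp, h0⟩
    rw [sZ2_ev, map_eq_zero_iff _ (IsFractionRing.injective A _),
      map_eq_zero_iff _ (FaithfulSMul.algebraMap_injective K[X] A)] at h0
    exact hp h0
  · have h1 : ∀ p : K[X], ((algebraMap A (FractionRing A)).comp (algebraMap K[X] A)) p ∈ V := by
      intro p
      rw [RingHom.comp_apply, ← sZ2_ev, aeval_eq_sum_range]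
      refine sum_mem fun i _ => ?_
      rw [Algebra.smul_def]
      exact mul_mem (hV _) (pow_mem hx _)
    obtain ⟨y, hy⟩ := (isIntegrallyClosed_iff (FractionRing A)).1
      (inferInstance : IsIntegrallyClosed V)
      ((Algebra.IsIntegral.isIntegral (R := K[X]) a).map_of_comp_eq
        (((algebraMap A (FractionRing A)).comp (algebraMap K[X] A)).codRestrict V h1)
        (algebraMap A (FractionRing A)) rfl)
    rw [← hy]
    exact y.2
  · have h0 : xL K A ≠ 0 := fun e => hx (e ▸ zero_mem _)
    refine V.valuation.map_sum_lt ((_root_.map_ne_zero _).2 (pow_ne_zero _ h0)) fun v _ => ?_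
    have h1 := S.hinf V hV hx v.1 v.2
    rw [map_mul (algebraMap A (FractionRing A)), map_pow (algebraMap A (FractionRing A)),
      map_pow (algebraMap A (FractionRing A))] at h1
    rw [map_mul]
    exact lt_of_le_of_lt (mul_le_of_le_one_left' ((V.valuation_le_one_iff _).2 (hV _))) h1

end Pool.Agent.MP_a9d3bd_yy
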