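import Pool.Agent.MP_a9d3bd_yy.Fin0
import Pool.Agent.MP_a9d3bd_yy.BSc
import Pool.Agent.MP_a9d3bd_yy.BAdd
import Pool.Agent.MP_a9d3bd_yy.BAf
import Pool.Agent.MP_a9d3bd_yy.BCf
import Pool.Agent.MP_a9d3bd_yy.BCls
import Pool.Agent.MP_a9d3bd_yy.BGd
import Pool.Agent.MP_a9d3bd_yy.BGen
import Pool.Agent.MP_a9d3bd_yy.BHo1
import Pool.Agent.MP_a9d3bd_yy.BHo2
import Pool.Agent.MP_a9d3bd_yy.BLoc
import Pool.Agent.MP_a9d3bd_yy.BMp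
import Pool.Agent.MP_a9d3bd_yy.BMu
import Pool.Agent.MP_a9d3bd_yy.BNd
import Pool.Agent.MP_a9d3bd_yy.BPt
import Pool.Agent.MP_a9d3bd_yy.BRp
import Pool.Agent.MP_a9d3bd_yy.BSum
import Pool.Agent.MP_a9d3bd_yy.BTm
import Pool.Agent.MP_a9d3bd_yy.BZ1
import Pool.Agent.MP_a9d3bd_yy.BZ2
import Pool.Agent.MP_a9d3bd_zz.Core
import Pool.Agent.MP_a9d3bd_zz.ExSu

/-! The geometric front. -/

namespace Pool.Agent.MP_a9d3bd_yy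

open Pool.Agent.MP_a9d3bd_x

theorem coreK : CoreK := by
  refine coreK_of fun p _ K _ _ _ halg => sSc p halg ?_ ?_ ?_ sMu sAf
  · intro A ι _ _ _ _ _ _ _ _ _ m S h1 μ hμ J _ g t u ν r
    exact MP_a9d3bd_zz.core S p halg h1 hμ g t u ν r
  · intro A _ _ _ _ _ _ _ hG P d hd hP c0 h0 s
    exact MP_a9d3bd_zz.exists_su p halg hG.fin hG.inv hG.norm P d hd hP c0 h0 s
  · exact sGd sMp (sRp sGen sLoc sPt (sCls sNd) sTm (sSum (sHo1 sLoc) (sHo2 sLoc) sMu)) sAdd sAf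
      sZ1 sZ2 (sCf sAf sZ2)

end Pool.Agent.MP_a9d3bd_yy
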