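import Pool.Agent.MP_a9d3bd_yy.St

namespace Pool.Agent.MP_a9d3bd_yy

open Polynomial IntermediateField Pool.Agent.MP_a9d3bd_q

theorem sChart_ne {K E : Type} [Field K] [Field E] [Algebra K E] (hE : FF K E 1)
    {y : Fin 4 → E} (h : ND K y) : y ≠ 0 := by
  rintro rfl
  have hb : kf K (0 : Fin 4 → E) = ⊥ := by
    unfold kf
    rw [eq_bot_iff, adjoin_le_iff]
    rintro z ⟨i, j, rfl⟩
    simp
  unfold ND at h
  rw [hb] at h
  have h2 : Algebra.IsAlgebraic K E := Algebra.IsAlgebraic.trans K (⊥ : IntermediateField K E) E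
  have h3 := hE.tr
  rw [trdeg_eq_zero] at h3
  simp at h3

theorem sChart_mul {K : Type} [Field K] (s t : K) : shear K s * shear K t = shear K (t + s) := by
  ext i j
  fin_cases i <;> fin_cases j <;> simp [shear, Matrix.mul_apply, Fin.sum_univ_four]

theorem sChart_zero {K : Type} [Field K] : shear K 0 = 1 := by
  ext i j
  fin_cases i <;> fin_cases j <;> simp [shear]

theorem sChart_mv {K E : Type} [Field K] [Field E] [Algebra K E] (s : K) (y : Fin 4 → E) :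
    mv (shear K s) y = ![y 0, y 1 + algebraMap K E s * y 3, y 2, y 3] := by
  funext i
  fin_cases i <;> simp [mv, shear, Fin.sum_univ_four]

theorem sChart {K : Type} [Field K] [IsAlgClosed K] (h1 : SIrr K) (h2 : SCo K) (h3 : STw K)
    (h4 : SSh K) (h5 : SCtr K) : SChart K := by
  intro P d hd hP hN J _ E _ _ y u hE hon hnd hu
  have hy : ∀ j, y j ≠ 0 := fun j => sChart_ne (hE j) (hnd j)
  choose c hc0 hc using fun j (O : DV K (E j)) => (h5 (E j) (hE j) O).2.2.2.2.1 (y j) (hy j)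
  have O0 : ∀ j, DV K (E j) := fun j => (nonempty_dv (j := 0) (hE j)).some
  let S : Set (Fin 4 → K) := ⋃ j, c j '' insert (O0 j) {O : DV K (E j) | O.ord (u j) ≠ 0}
  have hS : S.Finite := Set.finite_iUnion fun j => ((fs_one (hE j) (u j)).insert _).image _
  obtain ⟨M0, N0, hMN, hNM, he, hp⟩ := h2 P d hd hP hN (h1 P d hd hP hN) S hS (by
    intro p hp
    obtain ⟨j, O, -, rfl⟩ := Set.mem_iUnion.1 hp
    exact ⟨hc0 j O, (h5 (E j) (hE j) O).2.2.2.2.2.1 (y j) _ P d hP (hon j) (hc j O)⟩)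
  have key : ∀ j (O : DV K (E j)), O ∈ insert (O0 j) {O : DV K (E j) | O.ord (u j) ≠ 0} →
      ∃ p : Fin 4 → K, Ctr O.O (mv M0 (y j)) p ∧ p 0 ≠ 0 ∧
        (lin (twP N0 P) p ![0, 0, 1, 0]).Separable := fun j O hO =>
    ⟨M0.mulVec (c j O), (h5 (E j) (hE j) O).2.2.2.2.2.2.1 _ _ _ (hc j O),
      hp _ (Set.mem_iUnion.2 ⟨j, O, hO, rfl⟩)⟩
  have H := fun j => h4 (twP N0 P) d hd (h3.1 P d N0 hP) he (E j) (hE j) (mv M0 (y j)) (u j)
    (by rw [(h3.2.2.2 (E j)).2.2.1, (h3.2.2.2 (E j)).2.1, hNM, (h3.2.2.2 (E j)).1]; exact hon j)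
    ((h3.2.2.2 (E j)).2.2.2 M0 N0 _ hNM (hnd j)) (hu j)
    ⟨O0 j, key j _ (Set.mem_insert _ _)⟩ fun O hO => key j O (Set.mem_insert_of_mem _ hO)
  obtain ⟨s, hs⟩ := (Set.finite_iUnion fun j => (H j).2).exists_notMem
  have e1 : shear K s * shear K (-s) = 1 := by rw [sChart_mul, neg_add_cancel, sChart_zero]
  have e2 : shear K (-s) * shear K s = 1 := by rw [sChart_mul, add_neg_cancel, sChart_zero]
  refine ⟨shear K s * M0, N0 * shear K (-s), ?_, ?_, ?_, fun j => ?_⟩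
  · rw [mul_assoc, ← mul_assoc M0, hMN, one_mul, e1]
  · rw [mul_assoc, ← mul_assoc (shear K (-s)), e2, one_mul, hNM]
  · rw [← h3.2.1]
    have a := (h3.2.2.2 K).2.2.1 (shear K (-s)) ![0, 0, 1, 0] (twP N0 P)
    rw [sChart_mv] at a
    simp only [MvPolynomial.aeval_eq_eval] at a
    rw [a]
    simpa using he
  · have b := not_not.1 fun h => hs (Set.mem_iUnion.2 ⟨j, h⟩)
    rw [← (h3.2.2.2 (E j)).2.1, sChart_mv, ← h3.2.1]
    exact ⟨(H j).1, b⟩

end Pool.Agent.MP_a9d3bd_yy
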