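import Pool.Agent.MP_a9d3bd_yy.St

namespace Pool.Agent.MP_a9d3bd_yy

open Polynomial IntermediateField Pool.Agent.MP_a9d3bd_q

theorem sCo_pt {K ι : Type} [Field K] [Infinite K] (F : MvPolynomial ι K) (h : F ≠ 0) :
    ∃ x, MvPolynomial.eval x F ≠ 0 := by
  by_contra hc
  push Not at hc
  exact h (MvPolynomial.funext fun x => by rw [hc x, map_zero])

theorem sCo_lin {K : Type} [Field K] (P : MvPolynomial (Fin 4) K)
    (N : Matrix (Fin 4) (Fin 4) K) (q e : Fin 4 → K) :
    lin (twP N P) q e = lin P (N.mulVec q) (N.mulVec e) := by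
  unfold lin twP
  rw [← AlgHom.comp_apply, MvPolynomial.comp_aeval]
  congr 2
  funext i
  simp only [map_sum, map_mul, MvPolynomial.aeval_C, MvPolynomial.aeval_X, algebraMap_eq,
    Matrix.mulVec, dotProduct, Finset.mul_sum, ← Finset.sum_add_distrib]
  exact Finset.sum_congr rfl fun j _ => by ring

theorem sCo_wit {K : Type} [Field K] (p : Fin 4 → K) (hp : p ≠ 0) :
    ∃ N : Matrix (Fin 4) (Fin 4) K, (N.updateCol 0 p).det ≠ 0 := by
  obtain ⟨k, hk⟩ := Function.ne_iff.1 hp
  refine ⟨(1 : Matrix (Fin 4) (Fin 4) K).submatrix id (Equiv.swap 0 k), ?_⟩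
  have h : ((1 : Matrix (Fin 4) (Fin 4) K).submatrix id (Equiv.swap 0 k)).updateCol 0 p =
      ((1 : Matrix (Fin 4) (Fin 4) K).updateCol k p).submatrix id (Equiv.swap 0 k) := by
    ext i j
    simp only [Matrix.updateCol_apply, Matrix.submatrix_apply, id]
    by_cases hj : j = 0
    · simp [hj]
    · have h : ¬ Equiv.swap 0 k j = k := fun h =>
        hj ((Equiv.swap 0 k).injective (by rw [h, Equiv.swap_apply_left]))
      rw [if_neg hj, if_neg h]
      rfl
  rw [h, Matrix.det_permute', ← Matrix.cramer_apply, Matrix.cramer_one]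
  refine mul_ne_zero ?_ hk
  rcases Int.units_eq_one_or (Equiv.Perm.sign (Equiv.swap (0 : Fin 4) k)) with h1 | h1 <;>
    simp [h1]

theorem sCo {K : Type} [Field K] [IsAlgClosed K] (h1 : SLine K) (h2 : STw K) : SCo K := by
  classical
  intro P d hd hP hN hi S hS hp
  have hδ : ∀ p : Fin 4 → K, ∃ δ : MvPolynomial (Fin 4) K, δ ≠ 0 ∧
      (p ∈ S → ∀ a, MvPolynomial.eval a δ ≠ 0 → (lin P p a).Separable) := fun p => by
    by_cases h : p ∈ S
    · obtain ⟨δ, h3, h4⟩ := h1 P d hd hP hN hi p (hp p h).1 (hp p h).2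
      exact ⟨δ, h3, fun _ => h4⟩
    · exact ⟨1, one_ne_zero, fun h' => absurd h' h⟩
  choose δ hδ0 hδ using hδ
  let G : Matrix (Fin 4) (Fin 4) (MvPolynomial (Fin 4 × Fin 4) K) :=
    Matrix.of fun i j => MvPolynomial.X (i, j)
  have e1 : ∀ x : Fin 4 × Fin 4 → K,
      MvPolynomial.eval x G.det = (Matrix.of fun i j => x (i, j)).det := fun x => by
    rw [RingHom.map_det]
    congr 1
    ext i j
    simp [G]
  have e2 : ∀ (x : Fin 4 × Fin 4 → K) (p : Fin 4 → K),
      MvPolynomial.eval x (G.updateCol 0 fun i => MvPolynomial.C (p i)).det =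
        ((Matrix.of fun i j => x (i, j)).updateCol 0 p).det := fun x p => by
    rw [RingHom.map_det]
    congr 1
    ext i j
    by_cases hj : j = 0 <;> simp [G, hj]
  have hinj : Function.Injective fun i : Fin 4 => (i, (2 : Fin 4)) := fun i j h =>
    congrArg Prod.fst h
  have hr : ∀ F : MvPolynomial (Fin 4) K, F ≠ 0 →
      MvPolynomial.rename (fun i : Fin 4 => (i, (2 : Fin 4))) F ≠ 0 := fun F hF h =>
    hF (MvPolynomial.rename_injective _ hinj (by rw [h, map_zero]))
  obtain ⟨x, hx⟩ := sCo_pt (G.det * MvPolynomial.rename (fun i : Fin 4 => (i, (2 : Fin 4))) P *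
      ∏ p ∈ hS.toFinset, (MvPolynomial.rename (fun i : Fin 4 => (i, (2 : Fin 4))) (δ p) *
        (G.updateCol 0 fun i => MvPolynomial.C (p i)).det)) (by
    refine mul_ne_zero (mul_ne_zero (fun h => ?_) (hr P hi.ne_zero))
      (Finset.prod_ne_zero_iff.2 fun p h => mul_ne_zero (hr _ (hδ0 p)) fun h' => ?_)
    · have := e1 fun z => (1 : Matrix (Fin 4) (Fin 4) K) z.1 z.2
      rw [h, map_zero] at this
      exact zero_ne_one (this.trans Matrix.det_one)
    · obtain ⟨N, hN⟩ := sCo_wit p (hp p (hS.mem_toFinset.1 h)).1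
      have := e2 (fun z => N z.1 z.2) p
      rw [h', map_zero] at this
      exact hN this.symm)
  rw [map_mul, map_mul, map_prod, mul_ne_zero_iff, mul_ne_zero_iff, Finset.prod_ne_zero_iff,
    e1, MvPolynomial.eval_rename] at hx
  obtain ⟨⟨x1, x2⟩, x3⟩ := hx
  set N : Matrix (Fin 4) (Fin 4) K := Matrix.of fun i j => x (i, j) with hNx
  have hu : IsUnit N.det := x1.isUnit
  have hcol : N.mulVec ![0, 0, 1, 0] = x ∘ fun i : Fin 4 => (i, (2 : Fin 4)) := by
    funext i
    simp [hNx, Matrix.mulVec, dotProduct, Fin.sum_univ_four]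
  refine ⟨N⁻¹, N, Matrix.nonsing_inv_mul N hu, Matrix.mul_nonsing_inv N hu, ?_, fun p h => ?_⟩
  · have h3 := (h2.2.2.2 K).2.2.1 N ![0, 0, 1, 0] P
    have h4 : mv N (![0, 0, 1, 0] : Fin 4 → K) = N.mulVec ![0, 0, 1, 0] := rfl
    rw [h4, hcol] at h3
    rw [← MvPolynomial.coe_aeval_eq_eval] at x2 ⊢
    exact fun h => x2 (h3.symm.trans h)
  · have h3 := x3 p (hS.mem_toFinset.2 h)
    rw [map_mul, mul_ne_zero_iff, e2, MvPolynomial.eval_rename] at h3
    constructor
    · intro h0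
      apply h3.2
      rw [← hNx, ← Matrix.cramer_apply, ← Matrix.det_smul_inv_mulVec_eq_cramer N p hu,
        Pi.smul_apply, h0, smul_zero]
    · rw [sCo_lin, Matrix.mulVec_mulVec, Matrix.mul_nonsing_inv N hu, Matrix.one_mulVec, hcol]
      exact hδ p h _ h3.1

end Pool.Agent.MP_a9d3bd_yy
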