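import Pool.Agent.MP_a9d3bd_yy.St

namespace Pool.Agent.MP_a9d3bd_yy

open Polynomial IntermediateField Pool.Agent.MP_a9d3bd_q

/-- the substitution that kills the variables in `S` -/
noncomputable def sCz_kill (k : Type) [Field k] {ι : Type} [DecidableEq ι] (S : Finset ι) :
    MvPolynomial ι k →ₐ[k] MvPolynomial ι k :=
  MvPolynomial.aeval fun i => if i ∈ S then 0 else MvPolynomial.X i

theorem sCz_height (k : Type) [Field k] {ι : Type} [DecidableEq ι] (S : Finset ι) :
    (S.card : ℕ∞) ≤ (RingHom.ker (sCz_kill k S)).height := by
  induction S using Finset.induction_on with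
  | empty => simp
  | insert i S hi ih =>
    have : (RingHom.ker (sCz_kill k S)).IsPrime := RingHom.ker_isPrime _
    have : (RingHom.ker (sCz_kill k (insert i S))).IsPrime := RingHom.ker_isPrime _
    have hc : (sCz_kill k (insert i S)).comp (sCz_kill k S) = sCz_kill k (insert i S) := by
      apply MvPolynomial.algHom_ext
      intro j
      by_cases hj : j ∈ S
      · simp [sCz_kill, hj]
      · simp [sCz_kill, hj]
    have hlt : RingHom.ker (sCz_kill k S) < RingHom.ker (sCz_kill k (insert i S)) := by
      refine lt_of_le_of_ne ?_ ?_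
      · intro p hp
        rw [RingHom.mem_ker] at hp ⊢
        rw [← hc, AlgHom.comp_apply, hp, map_zero]
      · intro he
        have h1 : MvPolynomial.X i ∈ RingHom.ker (sCz_kill k (insert i S)) := by
          simp [RingHom.mem_ker, sCz_kill]
        rw [← he, RingHom.mem_ker] at h1
        simp [sCz_kill, hi] at h1
    rw [Finset.card_insert_of_notMem hi, Nat.cast_add, Nat.cast_one]
    exact (add_le_add_left ih 1).trans (Ideal.height_add_one_le_of_lt_of_isPrime hlt)

theorem sCz {K : Type} [Field K] [IsAlgClosed K] : SCz K := by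
  intro ι κ _ _ h f h0
  classical
  by_contra hne
  have hz : MvPolynomial.zeroLocus K (Ideal.span (Set.range f)) = {0} := by
    rw [MvPolynomial.zeroLocus_span]
    ext a
    constructor
    · intro ha
      by_contra h1
      exact hne ⟨a, h1, fun j => by
        rw [← MvPolynomial.coe_aeval_eq_eval]
        exact ha _ ⟨j, rfl⟩⟩
    · rintro rfl _ ⟨j, rfl⟩
      have := h0 j
      rwa [← MvPolynomial.coe_aeval_eq_eval] at this
  have hr := MvPolynomial.vanishingIdeal_zeroLocus_eq_radical (K := K) (Ideal.span (Set.range f))
  rw [hz] at hr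
  have hmin : MvPolynomial.vanishingIdeal K ({0} : Set (ι → K)) ∈
      (Ideal.span ((Finset.univ.image f : Finset _) : Set (MvPolynomial ι K))).minimalPrimes := by
    rw [Finset.coe_image, Finset.coe_univ, Set.image_univ, ← Ideal.radical_minimalPrimes, ← hr,
      Ideal.minimalPrimes_eq_subsingleton_self]
    rfl
  have h1 := Ideal.height_le_card_of_mem_minimalPrimes_span_finset hmin
  have h2 : RingHom.ker (sCz_kill K (Finset.univ : Finset ι)) ≤
      MvPolynomial.vanishingIdeal K ({0} : Set (ι → K)) := by
    intro p hp
    rw [MvPolynomial.mem_vanishingIdeal_singleton_iff]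
    have hc : (MvPolynomial.aeval (0 : ι → K)).comp (sCz_kill K Finset.univ) =
        MvPolynomial.aeval (0 : ι → K) := by
      apply MvPolynomial.algHom_ext
      intro j
      simp [sCz_kill]
    rw [RingHom.mem_ker] at hp
    rw [← hc, AlgHom.comp_apply, hp, map_zero]
  have h3 := ((sCz_height K Finset.univ).trans (Ideal.height_mono h2)).trans h1
  have h4 : (Finset.univ : Finset ι).card ≤ (Finset.univ.image f).card := by exact_mod_cast h3
  have h5 := Finset.card_image_le (s := Finset.univ) (f := f)
  rw [Finset.card_univ] at h4 h5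
  omega

end Pool.Agent.MP_a9d3bd_yy
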