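import Pool.Agent.MP_a9d3bd_yy.St

/-! Descent to the separable closure. -/

namespace Pool.Agent.MP_a9d3bd_yy

open Polynomial IntermediateField Pool.Agent.MP_a9d3bd_q

theorem sDesc {K : Type} [Field K] [IsAlgClosed K] : SDesc K := by
  intro E _ _ hE x t w u hx ht hw
  have halg : Algebra.IsAlgebraic K⟮x⟯ E := by
    have h1 : Algebra.IsAlgebraic (af K (fun _ : Unit => x)) E := PF1_nda hE hx
    rwa [T1_single] at h1
  have hfin : FiniteDimensional K⟮x⟯ E := hE.finite_of_alg _ halg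
  have hF : FF K K⟮x⟯ 1 := by
    have h1 := hE.sub K⟮x⟯ (IntermediateField.fg_adjoin_of_finite (Set.finite_singleton x))
    have h2 : td K (af K (fun _ : Unit => x)) = 1 := by simpa using PF1_td hE hx
    rw [T1_single] at h2
    rwa [h2] at h1
  let S : IntermediateField K⟮x⟯ E := separableClosure K⟮x⟯ E
  have hS : FF K S 1 := FF.of_tower hF (ff_zero_iff.2 inferInstance)
  let ψ : S →ₐ[K] E := (S.val).restrictScalars K
  obtain ⟨n, u', hu'⟩ := IsPurelyInseparable.pow_mem S (ringExpChar S) u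
  let x' : S := algebraMap K⟮x⟯ S (AdjoinSimple.gen K x)
  have hx' : ψ x' = x := rfl
  have hmem : ∀ z : K⟮x⟯, algebraMap K⟮x⟯ S z ∈ K⟮x'⟯ := by
    intro z
    have h1 : (z : E) ∈ (K⟮x'⟯).map ψ := by
      rw [IntermediateField.adjoin_map, Set.image_singleton, hx']
      exact z.2
    obtain ⟨y, hy, hy2⟩ := h1
    have h2 : y = algebraMap K⟮x⟯ S z := Subtype.ext hy2
    rw [← h2]
    exact hy
  refine ⟨S, inferInstance, inferInstance, ψ, x', ⟨t, ht⟩, ⟨w, hw⟩, u', ringExpChar S ^ n, hS,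
    pow_pos (expChar_pos S _) n, hx', rfl, rfl, hu', ?_⟩
  letI : Algebra K⟮x⟯ K⟮x'⟯ :=
    ((algebraMap K⟮x⟯ S).codRestrict (K⟮x'⟯).toSubfield hmem).toAlgebra
  haveI : IsScalarTower K⟮x⟯ K⟮x'⟯ S := IsScalarTower.of_algebraMap_eq fun _ => rfl
  exact Algebra.isSeparable_tower_top_of_isSeparable K⟮x⟯ K⟮x'⟯ S

end Pool.Agent.MP_a9d3bd_yy
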