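import Pool.Agent.MP_a9d3bd_yy.St
import Pool.Agent.MP_a9d3bd_x.GF

namespace Pool.Agent.MP_a9d3bd_yy

open Pool.Agent.MP_a9d3bd_q Pool.Agent.MP_a9d3bd_x

section
variable {K E : Type} [Field K] [Field E] [Algebra K E] (N : Matrix (Fin 4) (Fin 4) K)

theorem Gf_map {L : Type} [Field L] [Algebra K L] (ψ : E →ₐ[K] L) (y : Fin 4 → E) :
    mv N (fun a => ψ (y a)) = fun a => ψ (mv N y a) := by
  funext i
  simp only [mv, map_sum, map_mul, AlgHom.commutes]

theorem Gf_smul (c : E) (y : Fin 4 → E) : mv N (c • y) = c • mv N y := by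
  funext i
  simp only [mv, Pi.smul_apply, smul_eq_mul, Finset.mul_sum]
  exact Finset.sum_congr rfl fun j _ => by ring

theorem Gf_zero : mv N (0 : Fin 4 → E) = 0 := by
  funext i
  simp [mv]

theorem Gf_ra (O : DV K E) {y : Fin 4 → E} (hy : O.Int y) :
    O.Int (mv N y) ∧ O.ra (mv N y) = mv N (O.ra y) := by
  have m : ∀ i j, algebraMap K E (N i j) * y j ∈ O.O := fun i j => mul_mem (O.const _) (hy j)
  refine ⟨fun i => sum_mem fun j _ => m i j, funext fun i => ?_⟩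
  change O.res (∑ j, _) = ∑ j, _
  rw [O.res_sum _ _ fun j _ => m i j]
  exact Finset.sum_congr rfl fun j _ => by
    rw [O.res_mul (O.const _) (hy j), O.res_algebraMap]; rfl

end

theorem gf_tw {K : Type} [Field K] (h1 : STw K) {P : MvPolynomial (Fin 4) K} {Λ : LF K (Fin 4)}
    (M N : Matrix (Fin 4) (Fin 4) K) (hMN : M * N = 1) (hNM : N * M = 1) (hL : GF {P} Λ) :
    GF {twP N P} (tw N Λ) := by
  have hinv : ∀ (E : Type) [Field E] [Algebra K E] (y : Fin 4 → E), mv M (mv N y) = y :=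
    fun E _ _ y => by rw [(h1.2.2.2 E).2.1, hMN, (h1.2.2.2 E).1]
  have hne : ∀ (E : Type) [Field E] [Algebra K E] (y : Fin 4 → E), y ≠ 0 → mv N y ≠ 0 :=
    fun E _ _ y hy h => hy (by rw [← hinv E y, h, Gf_zero])
  have hnd : ∀ (E : Type) [Field E] [Algebra K E] (y : Fin 4 → E), ND K (mv N y) ↔ ND K y :=
    fun E _ _ y => ⟨fun h => hinv E y ▸ (h1.2.2.2 E).2.2.2 M N _ hNM h,
      (h1.2.2.2 E).2.2.2 N M _ hMN⟩
  have hon : ∀ (E : Type) [Field E] [Algebra K E] (y : Fin 4 → E), On {twP N P} y →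
      On {P} (mv N y) := fun E _ _ y h G hG => by
    rw [Set.mem_singleton_iff.1 hG, ← (h1.2.2.2 E).2.2.1]
    exact h _ rfl
  have hred : ∀ (E : Type) [Field E] [Algebra K E] (O : DV K E) (y : Fin 4 → E), y ≠ 0 →
      ∃ c : O.K, c ≠ 0 ∧ mv N (O.red y) = c • O.red (mv N y) := fun E _ _ O y hy => by
    obtain ⟨h2, h3⟩ := Gf_ra N O (O.int_norm y)
    rw [O.ra_norm] at h3
    obtain ⟨c, hc, h4⟩ := O.red_smul (zpow_ne_zero (-O.mu y) O.pi_ne) (mv N y)
    refine ⟨c, hc, ?_⟩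
    rw [← h4, ← Gf_smul, O.red_of_int h2 (by rw [h3]; exact hne _ _ (O.red_ne hy)), h3]
  refine ⟨fun E L _ _ _ _ hE hF ψ y u => ?_, fun E _ _ hE c y u hc => ?_,
    fun E _ _ hE y u hy => ?_, fun E _ _ hE y u v hy hS hu hv => ?_,
    fun F _ _ hF y f g hy hS hN hf hg h => ?_⟩
  · change Λ L (mv N fun a => ψ (y a)) (ψ u) = hdeg ψ * Λ E (mv N y) u
    rw [Gf_map]
    exact hL.ext E L hE hF ψ _ u
  · change Λ E (mv N (c • y)) u = Λ E (mv N y) u
    rw [Gf_smul]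
    exact hL.scale E hE c _ u hc
  · exact hL.degen E hE _ u (mt (hnd E y).1 hy)
  · exact hL.mul E hE _ u v (hne E y hy) (hon E y hS) hu hv
  · rw [← hL.tame F hF (mv N y) f g (hne F y hy) (hon F y hS) ((hnd F y).2 hN) hf hg
      fun O hO => h O ?_]
    · refine finsum_congr fun O => ?_
      obtain ⟨c, hc, h2⟩ := hred F O y hy
      change Λ O.K (mv N (O.red y)) _ = _
      rw [h2]
      exact hL.scale _ (O.ff_K hF) c _ _ hc
    · obtain ⟨c, hc, h2⟩ := hred F O y hy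
      rw [← hnd, h2]
      exact (nd_smul hc _).2 hO

end Pool.Agent.MP_a9d3bd_yy
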