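import Pool.Agent.MP_a9d3bd_yy.St

namespace Pool.Agent.MP_a9d3bd_yy

open Polynomial IntermediateField Pool.Agent.MP_a9d3bd_q

theorem sLift_prod {B ι : Type} [CommRing B] (g : ι → B[X]) (hg : ∀ i, (g i).natDegree ≤ 1)
    (e : ι → ℕ) (s : Finset ι) : (∏ i ∈ s, g i ^ e i).natDegree ≤ ∑ i ∈ s, e i ∧
      (∏ i ∈ s, g i ^ e i).coeff (∑ i ∈ s, e i) = ∏ i ∈ s, (g i).coeff 1 ^ e i := by
  classical
  induction s using Finset.induction_on with
  | empty => simp
  | insert a s ha ih =>
    have h1 : (g a ^ e a).natDegree ≤ e a := (natDegree_pow_le_of_le _ (hg a)).trans_eq (mul_one _)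
    have h2 := coeff_pow_of_natDegree_le (m := e a) (hg a)
    rw [mul_one] at h2
    rw [Finset.prod_insert ha, Finset.sum_insert ha, Finset.prod_insert ha,
      coeff_mul_add_eq_of_natDegree_le h1 ih.1, h2, ih.2]
    exact ⟨natDegree_mul_le.trans (add_le_add h1 ih.1), rfl⟩

theorem sLift_top {K B ι : Type} [Field K] [CommRing B] [Algebra K B] (g : ι → B[X])
    (hg : ∀ i, (g i).natDegree ≤ 1) {P : MvPolynomial ι K} {d : ℕ} (hP : P.IsHomogeneous d) :
    (MvPolynomial.aeval g P).natDegree ≤ d ∧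
      (MvPolynomial.aeval g P).coeff d = MvPolynomial.aeval (fun i => (g i).coeff 1) P := by
  simp only [MvPolynomial.aeval_def, MvPolynomial.eval₂_eq, Polynomial.algebraMap_apply]
  refine ⟨natDegree_sum_le_of_forall_le _ _ fun s hs => (natDegree_C_mul_le _ _).trans ?_, ?_⟩
  · rw [hP.degree_eq_sum_deg_support hs]
    exact (sLift_prod g hg s _).1
  · rw [finsetSum_coeff]
    refine Finset.sum_congr rfl fun s hs => ?_
    rw [coeff_C_mul, hP.degree_eq_sum_deg_support hs, (sLift_prod g hg s _).2]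

theorem sLift_map {K B : Type} [Field K] [CommRing B] [Algebra K B] (x w : B)
    (Q : MvPolynomial (Fin 3) K) :
    (MvPolynomial.aeval ![C (MvPolynomial.X 0), X, C (MvPolynomial.X 1)] Q :
      (MvPolynomial (Fin 2) K)[X]).map
        (MvPolynomial.aeval ![x, w] : MvPolynomial (Fin 2) K →ₐ[K] B) =
      MvPolynomial.aeval ![C x, X, C w] Q := by
  induction Q using MvPolynomial.induction_on with
  | C c => simp [Polynomial.algebraMap_apply]
  | add p q hp hq => rw [map_add, map_add, Polynomial.map_add, hp, hq]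
  | mul_X p i hp =>
    rw [map_mul, map_mul, Polynomial.map_mul, hp]
    fin_cases i <;> simp

theorem sLift_aff {K B : Type} [Field K] [CommRing B] [Algebra K B] (x w : B)
    {P : MvPolynomial (Fin 4) K} {d : ℕ} (hP : P.IsHomogeneous d) :
    (MvPolynomial.aeval ![C x, X, C w] (aff P) : B[X]).natDegree ≤ d ∧
      (MvPolynomial.aeval ![C x, X, C w] (aff P) : B[X]).coeff d =
        MvPolynomial.aeval ![0, 0, 1, 0] P := by
  have e : (MvPolynomial.aeval ![C x, X, C w] (aff P) : B[X]) =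
      MvPolynomial.aeval ![1, C x, X, C w] P := by
    rw [aff, ← AlgHom.comp_apply, MvPolynomial.comp_aeval]
    refine congrArg (fun g => MvPolynomial.aeval g P) (funext fun i => ?_)
    fin_cases i <;> simp
  have h := sLift_top (![1, C x, X, C w] : Fin 4 → B[X])
    (fun i => by fin_cases i <;> simp [natDegree_X_le]) hP
  rw [e]
  refine ⟨h.1, h.2.trans (congrArg (fun g => MvPolynomial.aeval g P) (funext fun i => ?_))⟩
  fin_cases i <;> simp [coeff_one]

theorem sLift {K : Type} [Field K] [IsAlgClosed K] (h1 : SCtr K) : SLift K := by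
  intro E _ _ hE P d hP h0 O x w x0 w0 hx hw hs
  obtain ⟨-, -, c3, c4, -⟩ := h1 E hE O
  obtain ⟨F, hF⟩ : ∃ F : (MvPolynomial (Fin 2) K)[X], F =
    MvPolynomial.aeval ![C (MvPolynomial.X 0), X, C (MvPolynomial.X 1)] (aff P) := ⟨_, rfl⟩
  have m1 := sLift_map x w (aff P)
  have m2 := sLift_map x0 w0 (aff P)
  rw [← hF] at m1 m2
  have a1 := (sLift_aff x w hP).1
  obtain ⟨a2, a3⟩ := sLift_aff x0 w0 hP
  have n1 := c4 2 ![x, w] ![x0, w0] (resultant F (derivative F) d (d + 1))
    (fun i => by fin_cases i <;> assumption)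
  have r1 := resultant_map_map F (derivative F) d (d + 1)
    ((MvPolynomial.aeval ![x, w] : MvPolynomial (Fin 2) K →ₐ[K] E) : MvPolynomial (Fin 2) K →+* E)
  have r2 := resultant_map_map F (derivative F) d (d + 1)
    ((MvPolynomial.aeval ![x0, w0] : MvPolynomial (Fin 2) K →ₐ[K] K) :
      MvPolynomial (Fin 2) K →+* K)
  rw [← derivative_map, m1] at r1
  rw [← derivative_map, m2] at r2
  rw [fib] at hs
  generalize (MvPolynomial.aeval ![C x0, X, C w0] (aff P) : K[X]) = f0 at hs a2 a3 r2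
  generalize (MvPolynomial.aeval ![C x, X, C w] (aff P) : E[X]) = f at a1 r1 ⊢
  have a4 : f0.coeff d ≠ 0 := by rw [a3]; exact h0
  have a5 : f0.natDegree = d := natDegree_eq_of_le_of_coeff_ne_zero a2 a4
  have n2 : resultant f0 (derivative f0) d (d + 1) ≠ 0 := by
    obtain ⟨k, hk⟩ : ∃ k, d + 1 = (derivative f0).natDegree + k :=
      Nat.exists_eq_add_of_le ((natDegree_derivative_le f0).trans (by omega))
    rw [hk, resultant_add_right_deg _ _ _ _ _ le_rfl]
    refine mul_ne_zero (pow_ne_zero _ a4) ?_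
    rw [← a5]
    exact resultant_ne_zero _ _ hs
  have n3 : resultant f (derivative f) d (d + 1) ≠ 0 := fun h => by
    refine n2 (r2.trans (c3 0 _ 0 ?_ (by simp [Near])))
    rw [← h, r1]
    exact n1
  obtain ⟨p, q, -, -, e⟩ := exists_mul_add_mul_eq_C_resultant f (derivative f) a1
    ((natDegree_derivative_le f).trans (by omega : f.natDegree - 1 ≤ d + 1))
    (Or.inr d.succ_ne_zero)
  refine ⟨C (resultant f (derivative f) d (d + 1))⁻¹ * p,
    C (resultant f (derivative f) d (d + 1))⁻¹ * q, ?_⟩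
  rw [mul_assoc, mul_assoc, ← mul_add, mul_comm p, mul_comm q, e, ← C_mul, inv_mul_cancel₀ n3, C_1]

end Pool.Agent.MP_a9d3bd_yy
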