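import Pool.Agent.MP_a9d3bd_yy.St

/-! The general line through a point of a smooth surface is transversal. -/

namespace Pool.Agent.MP_a9d3bd_yy

open Polynomial IntermediateField Pool.Agent.MP_a9d3bd_q

theorem sLine_comb {R : Type} [CommRing R] [IsDomain R] [IsGCDMonoid R] {g h : R[X]}
    (hg : Irreducible g) (hd : ¬ g ∣ h) : ∃ δ : R, δ ≠ 0 ∧ ∃ u v, u * g + v * h = C δ := by
  by_cases h0 : g.natDegree = 0
  · refine ⟨g.coeff 0, fun e => hg.ne_zero ?_, 1, 0, ?_⟩
    · rw [eq_C_of_natDegree_eq_zero h0, e, map_zero]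
    · rw [one_mul, zero_mul, add_zero]
      exact eq_C_of_natDegree_eq_zero h0
  have hp := hg.isPrimitive h0
  have hi := (hp.irreducible_iff_irreducible_map_fraction_map (K := FractionRing R)).1 hg
  obtain ⟨a, b, hab⟩ := hi.coprime_iff_not_dvd.2 fun e =>
    hd (hp.dvd_of_fraction_map_dvd_fraction_map (K := FractionRing R) e)
  obtain ⟨s, hs, ha⟩ := IsLocalization.integerNormalization_spec (nonZeroDivisors R) a
  obtain ⟨t, ht, hb⟩ := IsLocalization.integerNormalization_spec (nonZeroDivisors R) b
  refine ⟨s * t, mul_ne_zero (nonZeroDivisors.ne_zero hs) (nonZeroDivisors.ne_zero ht),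
    C t * IsLocalization.integerNormalization (nonZeroDivisors R) a,
    C s * IsLocalization.integerNormalization (nonZeroDivisors R) b, ?_⟩
  apply map_injective (algebraMap R (FractionRing R)) (IsFractionRing.injective _ _)
  simp only [Polynomial.map_add, Polynomial.map_mul, map_C, ha, hb, map_mul, Algebra.smul_def,
    Polynomial.algebraMap_apply]
  linear_combination (C (algebraMap R (FractionRing R) s) * C (algebraMap R (FractionRing R) t)) * hab

variable {K : Type} [Field K]

theorem sLine_smul {F : MvPolynomial (Fin 4) K} {n : ℕ} (hF : F.IsHomogeneous n) (c : K)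
    (x : Fin 4 → K) : MvPolynomial.eval (c • x) F = c ^ n * MvPolynomial.eval x F := by
  rw [MvPolynomial.eval_eq', MvPolynomial.eval_eq', Finset.mul_sum]
  refine Finset.sum_congr rfl fun m hm => ?_
  have h1 : ∑ i, m i = n := by
    have := hF (MvPolynomial.mem_support_iff.1 hm)
    simpa [Finsupp.weight_apply, Finsupp.sum_fintype] using this
  simp only [Pi.smul_apply, smul_eq_mul, mul_pow, Finset.prod_mul_distrib,
    Finset.prod_pow_eq_pow_sum, h1]
  ring

theorem sLine_comm (i j : Fin 4) (F : MvPolynomial (Fin 4) K) :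
    MvPolynomial.pderiv i (MvPolynomial.pderiv j F) =
      MvPolynomial.pderiv j (MvPolynomial.pderiv i F) := by
  induction F using MvPolynomial.induction_on with
  | C a => simp
  | add p q hp hq => simp [hp, hq]
  | mul_X p n hp =>
    simp only [MvPolynomial.pderiv_mul, map_add, hp, MvPolynomial.pderiv_X, Pi.single_apply]
    split_ifs <;> simp <;> ring

theorem sLine_euler {F : MvPolynomial (Fin 4) K} {n : ℕ} (hF : F.IsHomogeneous n)
    (x : Fin 4 → K) :
    ∑ i, x i * MvPolynomial.eval x (MvPolynomial.pderiv i F) = n * MvPolynomial.eval x F := by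
  have := congrArg (MvPolynomial.eval x) hF.sum_X_mul_pderiv
  simpa [map_sum] using this

theorem sLine_eval (F : MvPolynomial (Fin 4) K) (p a : Fin 4 → K) (t : K) :
    (lin F p a).eval t = MvPolynomial.eval (p + t • a) F := by
  unfold lin
  induction F using MvPolynomial.induction_on with
  | C c => simp
  | add f g hf hg => simp only [map_add, eval_add, hf, hg]
  | mul_X f n hf =>
    rw [map_mul, map_mul, eval_mul, hf]
    simp [mul_comm t]

theorem sLine_der (F : MvPolynomial (Fin 4) K) (p a : Fin 4 → K) :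
    derivative (lin F p a) = ∑ i, C (a i) * lin (MvPolynomial.pderiv i F) p a := by
  unfold lin
  induction F using MvPolynomial.induction_on with
  | C c => simp
  | add f g hf hg => simp only [map_add, hf, hg, mul_add, Finset.sum_add_distrib]
  | mul_X f n hf =>
    have h1 : ∀ i, C (a i) * MvPolynomial.aeval (fun i => C (p i) + X * C (a i))
        (MvPolynomial.pderiv i (MvPolynomial.X n : MvPolynomial (Fin 4) K)) =
        if n = i then C (a i) else 0 := fun i => by
      rw [MvPolynomial.pderiv_X, Pi.single_apply]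
      split_ifs <;> simp
    have h2 : derivative (C (p n) + X * C (a n)) = C (a n) := by simp
    rw [map_mul, MvPolynomial.aeval_X, derivative_mul, hf, h2]
    have h3 : ∀ i, C (a i) * MvPolynomial.aeval (fun i => C (p i) + X * C (a i))
        (MvPolynomial.pderiv i (f * MvPolynomial.X n)) =
        C (a i) * MvPolynomial.aeval (fun i => C (p i) + X * C (a i)) (MvPolynomial.pderiv i f) *
          (C (p n) + X * C (a n)) + MvPolynomial.aeval (fun i => C (p i) + X * C (a i)) f *
            if n = i then C (a i) else 0 := fun i => by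
      rw [← h1, MvPolynomial.pderiv_mul, map_add, map_mul, map_mul, MvPolynomial.aeval_X]
      ring
    rw [Finset.sum_congr rfl fun i _ => h3 i, Finset.sum_add_distrib, ← Finset.sum_mul,
      ← Finset.mul_sum, Finset.sum_ite_eq, if_pos (Finset.mem_univ _)]

/-- The substitution of `Y + S p`. -/
noncomputable def sLine_sh (p : Fin 4 → K) :
    MvPolynomial (Fin 4) K →+* (MvPolynomial (Fin 4) K)[X] :=
  MvPolynomial.eval₂Hom (C.comp MvPolynomial.C)
    fun i => C (MvPolynomial.X i) + X * C (MvPolynomial.C (p i))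

theorem sLine_inv (p q : Fin 4 → K) (h : ∀ i, p i + q i = 0) :
    (eval₂RingHom (sLine_sh p) X).comp (eval₂RingHom (sLine_sh q) X) = RingHom.id _ := by
  refine Polynomial.ringHom_ext' (MvPolynomial.ringHom_ext (fun r => ?_) fun i => ?_) ?_
  · simp [sLine_sh]
  · have h2 : (C (MvPolynomial.C (p i)) : (MvPolynomial (Fin 4) K)[X]) +
        C (MvPolynomial.C (q i)) = 0 := by
      rw [← map_add, ← map_add, h i, map_zero, map_zero]
    simp [sLine_sh]
    linear_combination X * h2
  · simp

theorem sLine_irr (p : Fin 4 → K) {F : MvPolynomial (Fin 4) K} (hF : Irreducible F) :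
    Irreducible (sLine_sh p F) := by
  let e := RingEquiv.ofRingHom _ _ (sLine_inv p (-p) (by simp)) (sLine_inv (-p) p (by simp))
  have h1 : Irreducible (C F : (MvPolynomial (Fin 4) K)[X]) :=
    (prime_C_iff.2 hF.prime).irreducible
  have h2 : e (C F) = sLine_sh p F := by simp [e]
  rw [← h2]
  exact (MulEquiv.irreducible_iff e).2 h1

theorem sLine_ev (p a : Fin 4 → K) (s : K) (F : MvPolynomial (Fin 4) K) :
    eval₂RingHom (MvPolynomial.eval a) s (sLine_sh p F) = MvPolynomial.eval (a + s • p) F := by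
  have : (eval₂RingHom (MvPolynomial.eval a) s).comp (sLine_sh p) =
      MvPolynomial.eval (a + s • p) :=
    MvPolynomial.ringHom_ext (fun r => by simp [sLine_sh]) fun i => by simp [sLine_sh, mul_comm s]
  exact congrArg (fun f => f F) this

theorem sLine_zero (p : Fin 4 → K) (F : MvPolynomial (Fin 4) K) :
    evalRingHom 0 (sLine_sh p F) = F := by
  have : (evalRingHom 0).comp (sLine_sh p) = RingHom.id _ :=
    MvPolynomial.ringHom_ext (fun r => by simp [sLine_sh]) fun i => by simp [sLine_sh]
  exact congrArg (fun f => f F) this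

/-- The polar of `p` does not vanish in degree at least two. -/
theorem sLine_polar (h1 : SCz K) {P : MvPolynomial (Fin 4) K} {d : ℕ} (hd : 2 ≤ d)
    (hP : P.IsHomogeneous d) (hN : NS P) {p : Fin 4 → K} (hp : p ≠ 0)
    (h0 : MvPolynomial.eval p P = 0) :
    ∑ i, MvPolynomial.C (p i) * MvPolynomial.pderiv i P ≠ 0 := by
  intro hG
  obtain ⟨j, hj⟩ := hN p hp h0
  have h2 := congrArg (fun F => MvPolynomial.eval p (MvPolynomial.pderiv j F)) hG
  simp only [map_sum, MvPolynomial.pderiv_C_mul, map_mul, MvPolynomial.eval_C, map_zero,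
    sLine_comm j] at h2
  rw [sLine_euler (hP.pderiv (i := j)) p, Nat.cast_sub (by omega), Nat.cast_one] at h2
  have h3 : (d : K) ≠ 0 := by
    rw [sub_eq_zero.1 ((mul_eq_zero.1 h2).resolve_right hj)]
    exact one_ne_zero
  obtain ⟨k, hk⟩ := Function.ne_iff.1 hp
  obtain ⟨b, hb, hb'⟩ := h1 (Fin 4) (Fin 3) (by simp)
    (fun i => MvPolynomial.pderiv (k.succAbove i) P) fun i => by
      have := sLine_smul (hP.pderiv (i := k.succAbove i)) 0 0
      rwa [zero_pow (by omega), zero_mul, smul_zero] at this
  have h4 := congrArg (MvPolynomial.eval b) hG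
  rw [map_sum, Fin.sum_univ_succAbove _ k] at h4
  simp only [map_mul, MvPolynomial.eval_C, hb', mul_zero, Finset.sum_const_zero, add_zero,
    map_zero] at h4
  have h5 : ∀ i, MvPolynomial.eval b (MvPolynomial.pderiv i P) = 0 := fun i =>
    Fin.succAboveCases k ((mul_eq_zero.1 h4).resolve_left hk) hb' i
  have h6 := sLine_euler hP b
  simp only [h5, mul_zero, Finset.sum_const_zero] at h6
  obtain ⟨i, hi⟩ := hN b hb ((mul_eq_zero.1 h6.symm).resolve_left h3)
  exact hi (h5 i)

theorem sLine {K : Type} [Field K] [IsAlgClosed K] (h1 : SCz K) : SLine K := by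
  intro P d hd hP hN hI p hp h0
  obtain ⟨j, hj⟩ := hN p hp h0
  obtain ⟨L, hL⟩ : ∃ L : MvPolynomial (Fin 4) K, L = ∑ i, MvPolynomial.X i *
    MvPolynomial.C (MvPolynomial.eval p (MvPolynomial.pderiv i P)) := ⟨_, rfl⟩
  have hLa : ∀ a, MvPolynomial.eval a L =
      ∑ i, a i * MvPolynomial.eval p (MvPolynomial.pderiv i P) := fun a => by simp [hL]
  have hL0 : L ≠ 0 := fun e => hj (by simpa [e, Pi.single_apply] using (hLa (Pi.single j 1)).symm)
  have hder : ∀ a t, (derivative (lin P p a)).eval t =
      ∑ i, a i * MvPolynomial.eval (p + t • a) (MvPolynomial.pderiv i P) := fun a t => by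
    simp [sLine_der, eval_finsetSum, sLine_eval]
  rcases Nat.lt_or_ge d 2 with h2 | h2
  · obtain rfl : d = 1 := by omega
    refine ⟨L, hL0, fun a ha => ?_⟩
    refine (isCoprime_iff_aeval_ne_zero_of_isAlgClosed K K _ _).2 fun t => Or.inr ?_
    have hc : ∀ i x, MvPolynomial.eval x (MvPolynomial.pderiv i P) =
        MvPolynomial.eval 0 (MvPolynomial.pderiv i P) := fun i x => by
      simpa using (sLine_smul (hP.pderiv (i := i)) 0 x).symm
    rw [hLa] at ha
    rw [coe_aeval_eq_eval, hder]
    simpa only [hc _ p, hc _ (p + t • a)] using ha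
  have hG := sLine_polar h1 h2 hP hN hp h0
  obtain ⟨G, hGe⟩ : ∃ G : MvPolynomial (Fin 4) K,
    G = ∑ i, MvPolynomial.C (p i) * MvPolynomial.pderiv i P := ⟨_, rfl⟩
  have hGh : G.IsHomogeneous (d - 1) := hGe ▸ MvPolynomial.IsHomogeneous.sum _ _ _ fun i _ =>
    (hP.pderiv (i := i)).C_mul _
  rw [← hGe] at hG
  have hnd : ¬ sLine_sh p P ∣ sLine_sh p G := fun e => by
    have h3 := map_dvd (evalRingHom 0) e
    rw [sLine_zero, sLine_zero] at h3
    have h4 := MvPolynomial.totalDegree_le_of_dvd_of_isDomain h3 hG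
    rw [hP.totalDegree hI.ne_zero, hGh.totalDegree hG] at h4
    omega
  obtain ⟨δ, hδ, u, v, huv⟩ := sLine_comb (sLine_irr p hI) hnd
  refine ⟨L * δ, mul_ne_zero hL0 hδ, fun a ha => ?_⟩
  rw [map_mul, mul_ne_zero_iff, hLa] at ha
  refine (isCoprime_iff_aeval_ne_zero_of_isAlgClosed K K _ _).2 fun t => ?_
  rw [coe_aeval_eq_eval, hder, sLine_eval]
  by_contra hc
  push Not at hc
  obtain ⟨c1, c2⟩ := hc
  have ht : t ≠ 0 := fun e => ha.1 (by simpa [e] using c2)
  have c3 : MvPolynomial.eval (p + t • a) G = 0 := by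
    have h3 := sLine_euler hP (p + t • a)
    rw [c1, mul_zero] at h3
    simp only [Pi.add_apply, Pi.smul_apply, smul_eq_mul, add_mul, Finset.sum_add_distrib,
      mul_assoc, ← Finset.mul_sum, c2, mul_zero, add_zero] at h3
    simpa [hGe] using h3
  have e1 : a + t⁻¹ • p = t⁻¹ • (p + t • a) := by
    rw [smul_add, inv_smul_smul₀ ht, add_comm]
  have h5 := congrArg (eval₂RingHom (MvPolynomial.eval a) t⁻¹) huv
  rw [map_add, map_mul, map_mul, sLine_ev, sLine_ev, e1, sLine_smul hP, sLine_smul hGh, c1,
    c3] at h5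
  exact ha.2 (by simpa using h5.symm)

end Pool.Agent.MP_a9d3bd_yy
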