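import Pool.Agent.MP_a9d3bd_yy.St

namespace Pool.Agent.MP_a9d3bd_yy

open Polynomial IntermediateField Pool.Agent.MP_a9d3bd_q

theorem sMB_ite (p : Prop) (i i' : Decidable p) (a b : ℚ) :
    @ite _ p i a b = @ite _ p i' a b := by
  rw [Subsingleton.elim i i']

theorem sMB {K : Type} [Field K] [IsAlgClosed K] (h1 : SRing K) (h2 : SPl K) (h3 : SDv K)
    (h4 : SExt K) (h5 : SCtr K) : SMB K := by
  intro P Λ hΛ hB J _ E _ _ x t w u r hE hP hS hC
  obtain ⟨A, _, _, _, _, _, _, _, hG, hA, ψ, hψ⟩ := h1 J E x hE (fun j => (hP j).tr) hS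
  obtain ⟨p1, p2, -, -, -, p6⟩ := h2 A hA
  have hP' : ∀ j, Pos P (xL K A) (ψ j (t j)) (ψ j (w j)) (ψ j (u j)) := fun j => by
    rw [← hψ j]
    exact ((h4 (E j) _ (hE j) hA (ψ j) (x j) (t j) (w j) (u j)).1 P).2 (hP j)
  choose t' ht' using fun j => p6 (ψ j (t j)) fun O hO => ((hP' j).int O hO).1
  choose w' hw' using fun j => p6 (ψ j (w j)) fun O hO => ((hP' j).int O hO).2
  choose ν hν1 hν2 hν3 hν4 using fun j => h3 A hA (ψ j (u j)) (hP' j).ne (hP' j).inf
  have hd : ∀ j, (hdeg (ψ j) : ℚ) ≠ 0 := fun j =>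
    Nat.cast_ne_zero.2 (hdeg_pos (hE j) hA (ψ j)).ne'
  have nr : ∀ (β : A →ₐ[K] K) (O : DV K (FractionRing A)), Pl β O → ∀ (a : A) (c : K),
      β a = c ↔ Near O.O (algebraMap A (FractionRing A) a) c :=
    fun β O h a c => ⟨fun k => k ▸ h a, fun k => (h5 _ hA O).2.2.1 _ _ _ (h a) k⟩
  have key := hB A hG hA J t' w' (fun j => ψ j (u j)) ν (fun j => r j / hdeg (ψ j))
    (fun j => ?_) hν1 hν2 (fun j => ?_) (fun j β hβ => ?_) (fun x0 t0 w0 => ?_)
  · refine Eq.trans (Finset.sum_congr rfl fun j _ => ?_) key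
    have e : (![1, xL K A, algebraMap A _ (t' j), algebraMap A _ (w' j)] :
        Fin 4 → FractionRing A) = fun i => ψ j (![1, x j, t j, w j] i) := by
      funext i
      fin_cases i
      · exact (map_one (ψ j)).symm
      · exact (hψ j).symm
      · exact ht' j
      · exact hw' j
    rw [e, hΛ.ext (E j) _ (hE j) hA (ψ j), ← mul_assoc, div_mul_cancel₀ _ (hd j)]
  · refine IsFractionRing.injective A (FractionRing A) ?_
    have e : (algebraMap A (FractionRing A) ∘ ![xA K A, t' j, w' j]) =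
        ![xL K A, ψ j (t j), ψ j (w j)] := by
      funext i
      fin_cases i
      · rfl
      · exact ht' j
      · exact hw' j
    rw [← MvPolynomial.aeval_algebraMap_apply, e, map_zero]
    exact (hP' j).on
  · obtain ⟨O, x0, w0, a1, a2, a3⟩ := (hP' j).adm
    obtain ⟨β, hβ⟩ := p2 O ((h5 _ hA O).2.1 _ _ a1)
    rw [← hw' j] at a2
    exact ⟨β, by rw [(nr β O hβ _ _).2 a1, (nr β O hβ _ _).2 a2]; exact a3⟩
  · obtain ⟨O, hO⟩ := p1 β
    refine (hP' j).sep O ?_ _ _ (hO _) ?_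
    · rw [← hν3 j β O hO]
      exact Finsupp.mem_support_iff.1 hβ
    · rw [← hw' j]
      exact hO _
  · refine Eq.trans (Finset.sum_congr rfl fun j _ => ?_) (hC x0 t0 w0)
    have e := hν4 j (fun β => β (xA K A) = x0 ∧ β (t' j) = t0 ∧ β (w' j) = w0)
      (fun O => Near O.O (ψ j (x j)) x0 ∧ Near O.O (ψ j (t j)) t0 ∧ Near O.O (ψ j (w j)) w0)
      fun β O hO => by
        rw [hψ j, ← ht' j, ← hw' j]
        exact and_congr (nr β O hO _ _) (and_congr (nr β O hO _ _) (nr β O hO _ _))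
    have e' := (h4 (E j) _ (hE j) hA (ψ j) (x j) (t j) (w j) (u j)).2 x0 t0 w0
    have e2 : ((ν j).sum fun β z => (open Classical in
        if β (xA K A) = x0 ∧ β (t' j) = t0 ∧ β (w' j) = w0 then (z : ℚ) else 0)) = _ :=
      ((congrArg (ν j).sum (funext fun β => funext fun z => sMB_ite _ _ _ _ _)).trans e).trans
        ((finsum_congr fun O => sMB_ite _ _ _ _ _).trans e')
    rw [e2, ← mul_assoc, div_mul_cancel₀ _ (hd j)]

end Pool.Agent.MP_a9d3bd_yy
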