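import Pool.Agent.MP_a9d3bd_yy.St

/-! From the chart to projective coordinates. -/

namespace Pool.Agent.MP_a9d3bd_yy

open Polynomial IntermediateField Pool.Agent.MP_a9d3bd_q

theorem sPM_pos {K E : Type} [Field K] [Field E] [Algebra K E] {P : MvPolynomial (Fin 3) K}
    {x t w u : E} (h : Pos P x t w u) (q : ℕ) : Pos P x t w (u ^ q) where
  on := h.on
  ne := pow_ne_zero _ h.ne
  tr := h.tr
  int := h.int
  inf := fun O hO => by rw [O.ord_pow, h.inf O hO, mul_zero]
  adm := h.adm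
  sep := fun O hO => h.sep O (by
    rw [O.ord_pow] at hO
    exact right_ne_zero_of_mul hO)

theorem sPM_pow {E : Type} [Field E] (f : E → ℚ)
    (h : ∀ u v, u ≠ 0 → v ≠ 0 → f (u * v) = f u + f v) {u : E} (hu : u ≠ 0) (q : ℕ) :
    f (u ^ q) = q * f u := by
  induction q with
  | zero =>
    have := h 1 1 one_ne_zero one_ne_zero
    rw [mul_one] at this
    rw [pow_zero, Nat.cast_zero, zero_mul]
    linarith
  | succ q ih =>
    rw [pow_succ, h _ _ (pow_ne_zero _ hu) hu, ih]
    push_cast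
    ring

theorem sPM {K : Type} [Field K] [IsAlgClosed K] (h1 : SChart K) (h2 : SDesc K) (h3 : SExt K)
    (h4 : STw K) (h5 : SCtr K) : SPM K := by
  intro P d hd hP hN Λ hΛ hm hC J _ E _ _ y u r hE hy hnd hu hcl
  obtain ⟨M, N, hMN, hNM, he, hch⟩ := h1 P d hd hP hN J E y u hE hy hnd hu
  obtain ⟨-, -, t3, t4⟩ := h4
  have hΛ' := t3 Λ N hΛ
  have hback : ∀ j, mv N (mv M (y j)) = y j := fun j => by
    rw [(t4 (E j)).2.1, hNM, (t4 (E j)).1]
  choose E' f1 f2 ψ x' t' w' u' q hE' hq ex et ew eu hsep using fun j =>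
    h2 (E j) (hE j) _ _ _ (u j) (hch j).2.1.tr (hch j).2.2.1 (hch j).2.2.2
  have hq' : ∀ j, (q j : ℚ) ≠ 0 := fun j => Nat.cast_ne_zero.2 (hq j).ne'
  have key := hC M N hMN hNM he J E' x' t' w' u' (fun j => r j * hdeg (ψ j) / q j) hE'
    (fun j => ((h3 _ _ (hE' j) (hE j) (ψ j) (x' j) (t' j) (w' j) (u' j)).1 _).1 (by
      rw [ex, et, ew, eu]; exact sPM_pos (hch j).2.1 _)) hsep ?_
  · refine Eq.trans (Finset.sum_congr rfl fun j _ => ?_) key
    have e1 := hΛ'.ext _ _ (hE' j) (hE j) (ψ j) ![1, x' j, t' j, w' j] (u' j)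
    have e2 : (fun i => ψ j (![1, x' j, t' j, w' j] i)) = (mv M (y j) 0)⁻¹ • mv M (y j) := by
      have h0 := (hch j).1
      funext i
      fin_cases i
      · simp [h0]
      · simp [ex, div_eq_inv_mul]
      · simp [et, div_eq_inv_mul]
      · simp [ew, div_eq_inv_mul]
    have hy0 : y j ≠ 0 := fun h => (hch j).1 (by simp [mv, h])
    rw [e2, eu, hΛ'.scale _ (hE j) _ _ _ (inv_ne_zero (hch j).1)] at e1
    have e3 : tw N Λ (E j) (mv M (y j)) (u j ^ q j) = q j * Λ (E j) (y j) (u j) := by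
      change Λ (E j) (mv N (mv M (y j))) (u j ^ q j) = _
      rw [hback]
      exact sPM_pow _ (fun a b => hm (E j) (hE j) (y j) a b hy0 (hy j)) (hu j) _
    rw [e3] at e1
    have := hq' j
    rw [mul_div_assoc, mul_assoc, div_mul_eq_mul_div, ← e1]
    field_simp
  · intro x0 t0 w0
    have hp : N.mulVec ![1, x0, t0, w0] ≠ 0 := fun h => by
      have := congrArg (fun v => M.mulVec v 0) h
      simp only [Matrix.mulVec_mulVec, hMN, Matrix.one_mulVec, Matrix.mulVec_zero] at this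
      simp at this
    refine Eq.trans (Finset.sum_congr rfl fun j _ => ?_) (hcl _ hp)
    have e1 := (h3 _ _ (hE' j) (hE j) (ψ j) (x' j) (t' j) (w' j) (u' j)).2 x0 t0 w0
    rw [ex, et, ew, eu] at e1
    have := hq' j
    rw [mul_div_assoc, mul_assoc, div_mul_eq_mul_div, ← e1, eq_comm, mul_div_assoc']
    rw [eq_div_iff this, mul_assoc, mul_comm _ (q j : ℚ), mul_finsum]
    congr 1
    refine finsum_congr fun O => ?_
    obtain ⟨-, -, -, -, -, -, c7, -, -, c10⟩ := h5 _ (hE j) O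
    have e2 : Ctr O.O (y j) (N.mulVec ![1, x0, t0, w0]) ↔ Ctr O.O (mv M (y j)) ![1, x0, t0, w0] := by
      constructor
      · intro h
        have := c7 _ _ M h
        rwa [Matrix.mulVec_mulVec, hMN, Matrix.one_mulVec] at this
      · intro h
        have := c7 _ _ N h
        rwa [hback] at this
    rw [e2, c10 _ _ _ _ (hch j).1, O.ord_pow]
    split_ifs
    · push_cast; ring
    · exact mul_zero _

end Pool.Agent.MP_a9d3bd_yy
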