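import Pool.Agent.MP_a9d3bd_yy.St

namespace Pool.Agent.MP_a9d3bd_yy

open Polynomial IntermediateField Pool.Agent.MP_a9d3bd_q

variable {K : Type} [Field K]

theorem sSh_hom {A : Type} [CommRing A] [Algebra K A] {P : MvPolynomial (Fin 4) K} {d : ℕ}
    (hP : P.IsHomogeneous d) (c : A) (v : Fin 4 → A) :
    MvPolynomial.aeval (fun i => c * v i) P = c ^ d * MvPolynomial.aeval v P := by
  rw [MvPolynomial.aeval_def, MvPolynomial.aeval_def, MvPolynomial.eval₂_eq',
    MvPolynomial.eval₂_eq', Finset.mul_sum]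
  refine Finset.sum_congr rfl fun m hm => ?_
  have h1 : ∑ i, m i = d := by
    have := hP (MvPolynomial.mem_support_iff.1 hm)
    rw [← this, Finsupp.weight_apply, Finsupp.sum_fintype _ _ (by simp)]
    simp
  simp only [mul_pow, Finset.prod_mul_distrib, Finset.prod_pow_eq_pow_sum, h1]
  ring

theorem sSh_tw {A : Type} [CommRing A] [Algebra K A] (P : MvPolynomial (Fin 4) K) (s : K)
    (a x t w : A) : MvPolynomial.aeval ![a, x, t, w] (twP (shear K (-s)) P) =
      MvPolynomial.aeval ![a, x - algebraMap K A s * w, t, w] P := by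
  rw [twP, MvPolynomial.comp_aeval_apply]
  congr 2
  funext i
  fin_cases i <;> simp [shear, Fin.sum_univ_four, sub_eq_add_neg]

theorem sSh_aff {A : Type} [CommRing A] [Algebra K A] (P : MvPolynomial (Fin 4) K) (x t w : A) :
    MvPolynomial.aeval ![x, t, w] (aff P) = MvPolynomial.aeval ![1, x, t, w] P := by
  rw [aff, MvPolynomial.comp_aeval_apply]
  congr 2
  funext i
  fin_cases i <;> simp

theorem sSh_lin {P : MvPolynomial (Fin 4) K} {d : ℕ} (hP : P.IsHomogeneous d) {p : Fin 4 → K}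
    (h0 : p 0 ≠ 0) (hs : (lin P p ![0, 0, 1, 0]).Separable) :
    (MvPolynomial.aeval ![1, C (p 1 / p 0), X, C (p 3 / p 0)] P : K[X]).Separable := by
  have h1 : ((lin P p ![0, 0, 1, 0]).comp (C (p 0) * X - C (p 2))).Separable := by
    obtain ⟨a, b, h⟩ := hs
    refine ⟨a.comp (C (p 0) * X - C (p 2)), b.comp (C (p 0) * X - C (p 2)) * C (p 0)⁻¹, ?_⟩
    have h2 := congrArg (fun q => q.comp (C (p 0) * X - C (p 2))) h
    have h3 : (C (p 0)⁻¹ * C (p 0) : K[X]) = 1 := by rw [← C_mul, inv_mul_cancel₀ h0, C_1]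
    simp only [add_comp, mul_comp, one_comp] at h2
    rw [derivative_comp]
    simp only [derivative_sub, derivative_C_mul, derivative_X, derivative_C, mul_one, sub_zero]
    linear_combination h2 + (b.comp (C (p 0) * X - C (p 2)) *
      (derivative (lin P p ![0, 0, 1, 0])).comp (C (p 0) * X - C (p 2))) * h3
  refine h1.of_dvd ⟨C (p 0) ^ d, ?_⟩
  rw [mul_comm _ (C (p 0) ^ d), ← sSh_hom hP, comp_eq_aeval, lin, MvPolynomial.comp_aeval_apply]
  congr 2
  funext i
  fin_cases i <;> simp [← C_mul, mul_div_cancel₀ _ h0]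

theorem sSh_fib {P : MvPolynomial (Fin 4) K} {d : ℕ} (hP : P.IsHomogeneous d) {p : Fin 4 → K}
    (h0 : p 0 ≠ 0) (hs : (lin P p ![0, 0, 1, 0]).Separable) (s : K) :
    (fib (aff (twP (shear K (-s)) P)) ((p 1 + s * p 3) / p 0) (p 3 / p 0)).Separable := by
  rw [fib, sSh_aff, sSh_tw, algebraMap_eq, ← C_mul, ← C_sub,
    show (p 1 + s * p 3) / p 0 - s * (p 3 / p 0) = p 1 / p 0 by ring]
  exact sSh_lin hP h0 hs

theorem sSh_sep {F E : Type} [Field F] [Field E] [Algebra K F] [Algebra F E] [Algebra K E]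
    [IsScalarTower K F E] (Q : MvPolynomial (Fin 3) K) (x : F) (t w : E) (hw : IsSeparable F w)
    (hs : (MvPolynomial.aeval ![C (algebraMap F E x), X, C w] Q : E[X]).Separable)
    (h0 : MvPolynomial.aeval ![algebraMap F E x, t, w] Q = 0) : IsSeparable F t := by
  have := (isSeparable_adjoin_simple_iff_isSeparable F E).2 hw
  have : IsScalarTower K F⟮w⟯ E := IsScalarTower.of_algebraMap_eq fun c => by
    rw [IsScalarTower.algebraMap_apply K F F⟮w⟯, ← IsScalarTower.algebraMap_apply F F⟮w⟯ E,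
      ← IsScalarTower.algebraMap_apply]
  obtain ⟨G, hG⟩ : ∃ G : F⟮w⟯[X], G.map (algebraMap F⟮w⟯ E) =
      MvPolynomial.aeval ![C (algebraMap F E x), X, C w] Q := by
    refine ⟨MvPolynomial.aeval ![C (algebraMap F F⟮w⟯ x), X, C (AdjoinSimple.gen F w)] Q, ?_⟩
    have h1 := MvPolynomial.comp_aeval_apply
      ![C (algebraMap F F⟮w⟯ x), X, C (AdjoinSimple.gen F w)]
      (mapAlgHom (IsScalarTower.toAlgHom K F⟮w⟯ E)) Q
    refine Eq.trans h1 ?_
    congr 2
    funext i
    fin_cases i <;> simp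
  have h2 : aeval t G = 0 := by
    rw [← eval_map_algebraMap, hG, ← h0]
    have h1 := MvPolynomial.comp_aeval_apply ![C (algebraMap F E x), X, C w]
      ((aeval t : E[X] →ₐ[E] E).restrictScalars K) Q
    refine Eq.trans h1 ?_
    congr 2
    funext i
    fin_cases i <;> simp
  rw [← hG, separable_map] at hs
  exact IsSeparable.of_algebra_isSeparable_of_isSeparable F
    (E := F⟮w⟯) (hs.of_dvd (minpoly.dvd _ _ h2))

theorem sSh_alg [IsAlgClosed K] {E : Type} [Field E] [Algebra K E] {z : E}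
    (h : IsAlgebraic K z) : ∃ a, algebraMap K E a = z :=
  minpoly.mem_range_of_degree_eq_one K z
    (IsAlgClosed.degree_eq_one_of_irreducible K (minpoly.irreducible h.isIntegral))

theorem sSh_mv {E : Type} [Field E] [Algebra K E] (s : K) (y : Fin 4 → E) :
    mv (shear K s) y = ![y 0, y 1 + algebraMap K E s * y 3, y 2, y 3] := by
  funext i
  fin_cases i <;> simp [mv, shear, Fin.sum_univ_four]

theorem sSh_mul (s : K) (p : Fin 4 → K) :
    (shear K s).mulVec p = ![p 0, p 1 + s * p 3, p 2, p 3] := by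
  funext i
  fin_cases i <;> simp [shear, Matrix.mulVec, dotProduct, Fin.sum_univ_four]

theorem sSh {K : Type} [Field K] [IsAlgClosed K] (h1 : SSep K) (h2 : SCtr K) (h3 : STw K)
    (h4 : SLift K) : SSh K := by
  intro P d hd hP he E _ _ hE y u hy hN hu ha hs
  obtain ⟨O0, p0, c0, n0, s0⟩ := ha
  have y0 : y 0 ≠ 0 := ((h2 E hE O0).2.2.2.2.2.2.2.1 y p0 c0 n0).1
  refine ⟨y0, ?_⟩
  have nr : ∀ (O : DV K E) (p : Fin 4 → K) (s : K), Ctr O.O y p → p 0 ≠ 0 →
      Near O.O ((y 1 + algebraMap K E s * y 3) / y 0) ((p 1 + s * p 3) / p 0) ∧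
        Near O.O (y 3 / y 0) (p 3 / p 0) := by
    intro O p s c n
    have c' := (h2 E hE O).2.2.2.2.2.2.1 y p (shear K s) c
    rw [sSh_mv, sSh_mul] at c'
    have := ((h2 E hE O).2.2.2.2.2.2.2.1 _ _ c' n).2
    exact ⟨this 1, this 3⟩
  have on : MvPolynomial.aeval ![1, y 1 / y 0, y 2 / y 0, y 3 / y 0] P = 0 := by
    have := sSh_hom hP (y 0)⁻¹ y
    rw [hy, mul_zero] at this
    rw [← this]
    congr 2
    funext i
    fin_cases i <;> simp [div_eq_inv_mul, inv_mul_cancel₀ y0]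
  have na : ¬ (IsAlgebraic K (y 1 / y 0) ∧ IsAlgebraic K (y 3 / y 0)) := by
    rintro ⟨a1, a3⟩
    obtain ⟨a, ha⟩ := sSh_alg a1
    obtain ⟨b, hb⟩ := sSh_alg a3
    have n1 := ((h2 E hE O0).2.2.2.2.2.2.2.1 y p0 c0 n0).2
    have ea : a = p0 1 / p0 0 := (h2 E hE O0).2.2.1 _ _ _ (by simp [Near, ha]) (n1 1)
    have eb : b = p0 3 / p0 0 := (h2 E hE O0).2.2.1 _ _ _ (by simp [Near, hb]) (n1 3)
    have a2 : IsAlgebraic K (y 2 / y 0) := by
      refine ⟨_, (sSh_lin hP n0 s0).ne_zero, ?_⟩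
      rw [MvPolynomial.comp_aeval_apply, ← on, ← ea, ← eb, ← ha, ← hb]
      congr 2
      funext i
      fin_cases i <;> simp
    have al : ∀ i, ∃ c, algebraMap K E c = y i / y 0 := by
      intro i
      fin_cases i
      exacts [⟨1, by simp [div_self y0]⟩, ⟨a, ha⟩, sSh_alg a2, ⟨b, hb⟩]
    have k1 : Algebra.IsAlgebraic K (kf K y) := by
      refine isAlgebraic_adjoin ?_
      rintro _ ⟨i, j, rfl⟩
      obtain ⟨c, hc⟩ := al i
      obtain ⟨c', hc'⟩ := al j
      rw [← div_div_div_cancel_right₀ y0, ← hc, ← hc', ← map_div₀]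
      exact isIntegral_algebraMap
    have k2 : Algebra.IsAlgebraic (kf K y) E := hN
    have k3 : Algebra.IsAlgebraic K E := Algebra.IsAlgebraic.trans K (kf K y) E
    have k4 := hE.tr
    rw [trdeg_eq_zero] at k4
    simp at k4
  have yn : y ≠ 0 := fun h => y0 (congrFun h 0)
  choose c c1 c2 using fun O : DV K E => (h2 E hE O).2.2.2.2.1 y yn
  have fin := ((fs_one hE (y 2 / y 0)).union (fs_one hE (y 3 / y 0))).image
    fun O => -c O 1 / c O 3
  refine ((h1 E hE _ _ na).union fin).subset fun s hs' => ?_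
  by_contra hn
  rw [Set.mem_union, not_or] at hn
  obtain ⟨g1, g2⟩ := hn
  apply hs'
  have ex : y 1 / y 0 + algebraMap K E s * (y 3 / y 0) =
      (y 1 + algebraMap K E s * y 3) / y 0 := by ring
  rw [Set.mem_ofPred_eq, not_not, ex] at g1
  have on' : MvPolynomial.aeval ![(y 1 + algebraMap K E s * y 3) / y 0, y 2 / y 0, y 3 / y 0]
      (aff (twP (shear K (-s)) P)) = 0 := by
    rw [sSh_aff, sSh_tw, ← ex, add_sub_cancel_right, on]
  refine ⟨⟨on', hu, g1.1, fun O hx => ?_, fun O hx => ?_,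
    ⟨O0, _, _, (nr O0 p0 s c0 n0).1, (nr O0 p0 s c0 n0).2, sSh_fib hP n0 s0 s⟩,
    fun O hO x0 w0 hx hw => ?_⟩, ?_, g1.2⟩
  · by_contra hn
    have z0 : c O 0 = 0 := by
      by_contra z0
      have := ((h2 E hE O).2.2.2.2.2.2.2.1 y _ (c2 O) z0).2
      exact hn ⟨(h2 E hE O).2.1 _ _ (this 2), (h2 E hE O).2.1 _ _ (this 3)⟩
    have z1 : c O 1 + s * c O 3 = 0 := by
      by_contra z1
      have c' := (h2 E hE O).2.2.2.2.2.2.1 y _ (shear K s) (c2 O)
      rw [sSh_mv, sSh_mul] at c'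
      exact (h2 E hE O).2.2.2.2.2.2.2.2.1 _ _ 1 c' y0 z0 z1 hx
    have z3 : c O 3 ≠ 0 := by
      intro z3
      rw [z3, mul_zero, add_zero] at z1
      have e1 : c O = fun i => c O 2 * ![0, 0, 1, 0] i := by
        funext i
        fin_cases i <;> simp [z0, z1, z3]
      have e2 := (h2 E hE O).2.2.2.2.2.1 y _ P d hP hy (c2 O)
      rw [e1, ← MvPolynomial.coe_aeval_eq_eval] at e2
      have e3 := (sSh_hom hP (c O 2) ![0, 0, 1, 0]).symm.trans e2
      rcases mul_eq_zero.1 e3 with e4 | e4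
      · apply c1 O
        rw [e1, pow_eq_zero_iff hd.ne' |>.1 e4]
        funext i
        simp
      · exact he e4
    refine g2 ⟨O, ?_, ?_⟩
    · by_contra ho
      simp only [Set.mem_union, Set.mem_ofPred_eq, not_or, not_not] at ho
      exact hn ⟨((O.ord_eq_zero_iff _).1 ho.1).1, ((O.ord_eq_zero_iff _).1 ho.2).1⟩
    · change -c O 1 / c O 3 = s
      rw [div_eq_iff z3]
      linear_combination -z1
  · by_contra hO
    obtain ⟨p, cp, np, -⟩ := hs O hO
    exact hx ((h2 E hE O).2.1 _ _ (nr O p s cp np).1)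
  · obtain ⟨p, cp, np, sp⟩ := hs O hO
    rw [(h2 E hE O).2.2.1 _ _ _ hx (nr O p s cp np).1,
      (h2 E hE O).2.2.1 _ _ _ hw (nr O p s cp np).2]
    exact sSh_fib hP np sp s
  · refine sSh_sep (aff (twP (shear K (-s)) P)) (AdjoinSimple.gen K _) _ _ g1.2 ?_ on'
    refine h4 E hE _ d (h3.1 P d _ hP) ?_ O0 _ _ _ _ (nr O0 p0 s c0 n0).1 (nr O0 p0 s c0 n0).2
      (sSh_fib hP n0 s0 s)
    have := sSh_tw P s (0 : K) 0 1 0
    rw [mul_zero, sub_zero] at this
    exact fun h => he (this.symm.trans h)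

end Pool.Agent.MP_a9d3bd_yy
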