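import Pool.Agent.MP_a9d3bd_yy.St

/-! Formal properties of a change of coordinates. -/

namespace Pool.Agent.MP_a9d3bd_yy

open Polynomial IntermediateField Pool.Agent.MP_a9d3bd_q

variable {K : Type} [Field K]

theorem sTw_aeval {A : Type} [CommRing A] [Algebra K A] (N : Matrix (Fin 4) (Fin 4) K)
    (y : Fin 4 → A) (P : MvPolynomial (Fin 4) K) :
    MvPolynomial.aeval y (twP N P) =
      MvPolynomial.aeval (fun i => ∑ j, algebraMap K A (N i j) * y j) P := by
  unfold twP
  rw [← AlgHom.comp_apply, MvPolynomial.comp_aeval]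
  simp only [map_sum, map_mul, MvPolynomial.aeval_X, MvPolynomial.aeval_C]

theorem sTw_mul {A : Type} [CommRing A] [Algebra K A] (M N : Matrix (Fin 4) (Fin 4) K)
    (y : Fin 4 → A) (i : Fin 4) :
    ∑ j, algebraMap K A (M i j) * ∑ l, algebraMap K A (N j l) * y l =
      ∑ l, algebraMap K A ((M * N) i l) * y l := by
  simp only [Matrix.mul_apply, map_sum, map_mul, Finset.mul_sum, Finset.sum_mul, mul_assoc]
  exact Finset.sum_comm

theorem sTw_one {E : Type} [Field E] [Algebra K E] (y : Fin 4 → E) :
    mv (1 : Matrix (Fin 4) (Fin 4) K) y = y := by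
  funext i
  simp [mv, Matrix.one_apply, apply_ite (algebraMap K E)]

theorem sTw_kf {E : Type} [Field E] [Algebra K E] (N : Matrix (Fin 4) (Fin 4) K) (z : Fin 4 → E) :
    kf K (mv N z) ≤ kf K z := by
  unfold kf
  rw [adjoin_le_iff]
  rintro _ ⟨a, b, rfl⟩
  by_cases h : ∀ c, z c = 0
  · simp [mv, h]
  · push Not at h
    obtain ⟨c, hc⟩ := h
    have hm : ∀ i, mv N z i / z c ∈ adjoin K {w | ∃ a b, w = z a / z b} := by
      intro i
      unfold mv
      rw [Finset.sum_div]
      refine sum_mem fun j _ => ?_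
      rw [mul_div_assoc]
      exact mul_mem (IntermediateField.algebraMap_mem _ _) (subset_adjoin _ _ ⟨j, c, rfl⟩)
    have := div_mem (hm a) (hm b)
    rwa [div_div_div_cancel_right₀ hc] at this

theorem sTw_alg {E : Type} [Field E] [Algebra K E] {F F' : IntermediateField K E} (h : F ≤ F')
    (ha : Algebra.IsAlgebraic F E) : Algebra.IsAlgebraic F' E := by
  refine ⟨fun x => ?_⟩
  obtain ⟨p, hp, hx⟩ := ha.isAlgebraic x
  refine ⟨p.map (inclusion h).toRingHom, (Polynomial.map_ne_zero_iff
    (inclusion h).toRingHom.injective).2 hp, ?_⟩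
  rw [aeval_def, eval₂_map]
  exact hx

theorem sTw {K : Type} [Field K] [IsAlgClosed K] : STw K := by
  refine ⟨fun P d N hP => ?_, fun P N N' => ?_, fun Λ N h => ⟨?_, ?_⟩, fun E _ _ =>
    ⟨sTw_one, fun M N y => funext fun i => sTw_mul M N y i, fun N y P => sTw_aeval N y P,
      fun M N y hNM hy => ?_⟩⟩
  · have := hP.aeval (fun i => ∑ j, MvPolynomial.C (N i j) * MvPolynomial.X j) (n := 1)
      fun i => MvPolynomial.IsHomogeneous.sum _ _ _ fun j _ =>
        (MvPolynomial.isHomogeneous_X K j).C_mul _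
    rwa [one_mul] at this
  · have h1 := sTw_aeval N (fun i => ∑ j, (MvPolynomial.C (N' i j) * MvPolynomial.X j :
      MvPolynomial (Fin 4) K)) P
    have h2 : ∀ i, ∑ j, algebraMap K (MvPolynomial (Fin 4) K) (N i j) *
        ∑ l, (MvPolynomial.C (N' j l) * MvPolynomial.X l : MvPolynomial (Fin 4) K) =
        ∑ l, MvPolynomial.C ((N * N') i l) * MvPolynomial.X l := by
      intro i
      have := sTw_mul (A := MvPolynomial (Fin 4) K) N N' MvPolynomial.X i
      simpa only [MvPolynomial.algebraMap_eq] using this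
    simp only [h2] at h1
    exact h1
  · intro E L _ _ _ _ hE hL ψ y u
    have := h.ext E L hE hL ψ (mv N y) u
    unfold tw
    rw [← this]
    congr 1
    funext i
    simp [mv]
  · intro E _ _ hE c y u hc
    have := h.scale E hE c (mv N y) u hc
    unfold tw
    rw [← this]
    congr 1
    funext i
    simp only [mv, Pi.smul_apply, smul_eq_mul, Finset.mul_sum]
    exact Finset.sum_congr rfl fun j _ => by ring
  · have e : mv N (mv M y) = y := by
      rw [show mv N (mv M y) = mv (N * M) y from funext fun i => sTw_mul N M y i, hNM, sTw_one]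
    have hle := sTw_kf N (mv M y)
    rw [e] at hle
    exact sTw_alg hle hy

end Pool.Agent.MP_a9d3bd_yy
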