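import Pool.Agent.MP_a9d3bd_yy.Asm
import Pool.Agent.MP_a9d3bd_yy.BA
import Pool.Agent.MP_a9d3bd_yy.Chart
import Pool.Agent.MP_a9d3bd_yy.Cl
import Pool.Agent.MP_a9d3bd_yy.Co
import Pool.Agent.MP_a9d3bd_yy.Conj
import Pool.Agent.MP_a9d3bd_yy.Ctr
import Pool.Agent.MP_a9d3bd_yy.Cz
import Pool.Agent.MP_a9d3bd_yy.Desc
import Pool.Agent.MP_a9d3bd_yy.Dv
import Pool.Agent.MP_a9d3bd_yy.Ext
import Pool.Agent.MP_a9d3bd_yy.Gf
import Pool.Agent.MP_a9d3bd_yy.Irr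
import Pool.Agent.MP_a9d3bd_yy.Lift
import Pool.Agent.MP_a9d3bd_yy.Line
import Pool.Agent.MP_a9d3bd_yy.MB
import Pool.Agent.MP_a9d3bd_yy.PM
import Pool.Agent.MP_a9d3bd_yy.Pl
import Pool.Agent.MP_a9d3bd_yy.Ring
import Pool.Agent.MP_a9d3bd_yy.Sep
import Pool.Agent.MP_a9d3bd_yy.Sh
import Pool.Agent.MP_a9d3bd_yy.Tw

/-! The geometric front, reduced to the statement for sections. -/

namespace Pool.Agent.MP_a9d3bd_yy

open Pool.Agent.MP_a9d3bd_x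

theorem coreK_of (h : ∀ (p : ℕ) [Fact p.Prime] (K : Type) [Field K] [IsAlgClosed K] [CharP K p],
    (∀ a : K, ∃ n, 0 < n ∧ a ^ p ^ n = a) → SC K) : CoreK := by
  intro p _ K _ _ _ halg P d hP h0 hs
  have a1 : SCz K := sCz
  have a2 : SCtr K := sCtr
  have a3 : STw K := sTw
  have a4 : SExt K := sExt a2
  have a5 : SSh K := sSh sSep a2 a3 (sLift a2)
  have a6 : SChart K := sChart (sIrr a1) (sCo (sLine a1) a3) a3 a5 a2
  exact asm_main (sCl a2) (sPM a6 sDesc a4 a3 a2) (sMB sRing (sPl a2) (sDv (sPl a2) a2) a4 a2)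
    (sBA sConj) a3 (fun P Λ M N h1 h2 h3 => gf_tw a3 M N h1 h2 h3) (h p K halg) P d hP h0 hs

end Pool.Agent.MP_a9d3bd_yy
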