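import Pool.Agent.MP_a9d3bd_yy.Defs

/-! The steps of the reduction. -/

namespace Pool.Agent.MP_a9d3bd_yy

open Polynomial IntermediateField Pool.Agent.MP_a9d3bd_q

variable (K : Type) [Field K]

/-- common zeros of few polynomials without constant term -/
def SCz : Prop := ∀ (ι κ : Type) [Fintype ι] [Fintype κ], Fintype.card κ < Fintype.card ι →
  ∀ f : κ → MvPolynomial ι K, (∀ j, MvPolynomial.eval 0 (f j) = 0) →
    ∃ a : ι → K, a ≠ 0 ∧ ∀ j, MvPolynomial.eval a (f j) = 0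

/-- a form without singular point is irreducible -/
def SIrr : Prop := ∀ (P : MvPolynomial (Fin 4) K) (d : ℕ), 0 < d → P.IsHomogeneous d → NS P →
  Irreducible P

/-- the general line through a point of the surface is transversal -/
def SLine : Prop := ∀ (P : MvPolynomial (Fin 4) K) (d : ℕ), 0 < d → P.IsHomogeneous d → NS P →
  Irreducible P → ∀ p : Fin 4 → K, p ≠ 0 → MvPolynomial.eval p P = 0 →
  ∃ δ : MvPolynomial (Fin 4) K, δ ≠ 0 ∧ ∀ a, MvPolynomial.eval a δ ≠ 0 → (lin P p a).Separable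

/-- separating elements -/
def SSep : Prop := ∀ (E : Type) [Field E] [Algebra K E], FF K E 1 → ∀ ξ ζ : E,
  ¬ (IsAlgebraic K ξ ∧ IsAlgebraic K ζ) →
  {s : K | ¬ (Transcendental K (ξ + algebraMap K E s * ζ) ∧
    IsSeparable K⟮ξ + algebraMap K E s * ζ⟯ ζ)}.Finite

/-- values at places -/
def SCtr : Prop := ∀ (E : Type) [Field E] [Algebra K E], FF K E 1 → ∀ O : DV K E,
  (∀ z ∈ O.O, ∃ a : K, Near O.O z a) ∧ (∀ z (a : K), Near O.O z a → z ∈ O.O) ∧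
  (∀ z (a b : K), Near O.O z a → Near O.O z b → a = b) ∧
  (∀ (n : ℕ) (z : Fin n → E) (a : Fin n → K) (F : MvPolynomial (Fin n) K),
    (∀ i, Near O.O (z i) (a i)) → Near O.O (MvPolynomial.aeval z F) (MvPolynomial.eval a F)) ∧
  (∀ y : Fin 4 → E, y ≠ 0 → ∃ p : Fin 4 → K, p ≠ 0 ∧ Ctr O.O y p) ∧
  (∀ (y : Fin 4 → E) (p : Fin 4 → K) (P : MvPolynomial (Fin 4) K) (d : ℕ), P.IsHomogeneous d →
    MvPolynomial.aeval y P = 0 → Ctr O.O y p → MvPolynomial.eval p P = 0) ∧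
  (∀ (y : Fin 4 → E) (p : Fin 4 → K) (M : Matrix (Fin 4) (Fin 4) K), Ctr O.O y p →
    Ctr O.O (mv M y) (M.mulVec p)) ∧
  (∀ (y : Fin 4 → E) (p : Fin 4 → K), Ctr O.O y p → p 0 ≠ 0 →
    y 0 ≠ 0 ∧ ∀ i, Near O.O (y i / y 0) (p i / p 0)) ∧
  (∀ (y : Fin 4 → E) (p : Fin 4 → K) (i : Fin 4), Ctr O.O y p → y 0 ≠ 0 → p 0 = 0 → p i ≠ 0 →
    y i / y 0 ∉ O.O) ∧
  (∀ (y : Fin 4 → E) (x0 t0 w0 : K), y 0 ≠ 0 → (Ctr O.O y ![1, x0, t0, w0] ↔
    Near O.O (y 1 / y 0) x0 ∧ Near O.O (y 2 / y 0) t0 ∧ Near O.O (y 3 / y 0) w0))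

/-- coordinates adapted to a finite set of points -/
def SCo : Prop := ∀ (P : MvPolynomial (Fin 4) K) (d : ℕ), 0 < d → P.IsHomogeneous d → NS P →
  Irreducible P → ∀ S : Set (Fin 4 → K), S.Finite →
  (∀ p ∈ S, p ≠ 0 ∧ MvPolynomial.eval p P = 0) →
  ∃ M N : Matrix (Fin 4) (Fin 4) K, M * N = 1 ∧ N * M = 1 ∧
    MvPolynomial.eval ![0, 0, 1, 0] (twP N P) ≠ 0 ∧
    ∀ p ∈ S, M.mulVec p 0 ≠ 0 ∧ (lin (twP N P) (M.mulVec p) ![0, 0, 1, 0]).Separable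

/-- formal properties of a change of coordinates -/
def STw : Prop :=
  (∀ (P : MvPolynomial (Fin 4) K) (d : ℕ) (N : Matrix (Fin 4) (Fin 4) K), P.IsHomogeneous d →
    (twP N P).IsHomogeneous d) ∧
  (∀ (P : MvPolynomial (Fin 4) K) (N N' : Matrix (Fin 4) (Fin 4) K),
    twP N' (twP N P) = twP (N * N') P) ∧
  (∀ (Λ : Lm K) (N : Matrix (Fin 4) (Fin 4) K), Pre Λ → Pre (tw N Λ)) ∧
  ∀ (E : Type) [Field E] [Algebra K E],
    (∀ y : Fin 4 → E, mv (1 : Matrix (Fin 4) (Fin 4) K) y = y) ∧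
    (∀ (M N : Matrix (Fin 4) (Fin 4) K) (y : Fin 4 → E), mv M (mv N y) = mv (M * N) y) ∧
    (∀ (N : Matrix (Fin 4) (Fin 4) K) (y : Fin 4 → E) (P : MvPolynomial (Fin 4) K),
      MvPolynomial.aeval y (twP N P) = MvPolynomial.aeval (mv N y) P) ∧
    (∀ (M N : Matrix (Fin 4) (Fin 4) K) (y : Fin 4 → E), N * M = 1 → ND K y → ND K (mv M y))

/-- the shear `y 1 ↦ y 1 + s y 3` -/
def shear (s : K) : Matrix (Fin 4) (Fin 4) K := !![1, 0, 0, 0; 0, 1, 0, s; 0, 0, 1, 0; 0, 0, 0, 1]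

/-- separability lifts from a place -/
def SLift : Prop := ∀ (E : Type) [Field E] [Algebra K E], FF K E 1 →
  ∀ (P : MvPolynomial (Fin 4) K) (d : ℕ), P.IsHomogeneous d →
  MvPolynomial.eval ![0, 0, 1, 0] P ≠ 0 → ∀ (O : DV K E) (x w : E) (x0 w0 : K), Near O.O x x0 →
  Near O.O w w0 → (fib (aff P) x0 w0).Separable →
  (MvPolynomial.aeval ![C x, X, C w] (aff P) : E[X]).Separable

/-- one curve is in general position after almost every shear -/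
def SSh : Prop := ∀ (P : MvPolynomial (Fin 4) K) (d : ℕ), 0 < d → P.IsHomogeneous d →
  MvPolynomial.eval ![0, 0, 1, 0] P ≠ 0 → ∀ (E : Type) [Field E] [Algebra K E], FF K E 1 →
  ∀ (y : Fin 4 → E) (u : E), MvPolynomial.aeval y P = 0 → ND K y → u ≠ 0 →
  (∃ (O : DV K E) (p : Fin 4 → K), Ctr O.O y p ∧ p 0 ≠ 0 ∧ (lin P p ![0, 0, 1, 0]).Separable) →
  (∀ O : DV K E, O.ord u ≠ 0 →
    ∃ p : Fin 4 → K, Ctr O.O y p ∧ p 0 ≠ 0 ∧ (lin P p ![0, 0, 1, 0]).Separable) →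
  y 0 ≠ 0 ∧ {s : K | ¬ (Pos (aff (twP (shear K (-s)) P)) ((y 1 + algebraMap K E s * y 3) / y 0)
      (y 2 / y 0) (y 3 / y 0) u ∧
    IsSeparable K⟮(y 1 + algebraMap K E s * y 3) / y 0⟯ (y 2 / y 0) ∧
    IsSeparable K⟮(y 1 + algebraMap K E s * y 3) / y 0⟯ (y 3 / y 0))}.Finite

/-- the chart -/
def SChart : Prop := ∀ (P : MvPolynomial (Fin 4) K) (d : ℕ), 0 < d → P.IsHomogeneous d → NS P →
  ∀ (J : Type) [Fintype J] (E : J → Type) [∀ j, Field (E j)] [∀ j, Algebra K (E j)]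
    (y : ∀ j, Fin 4 → E j) (u : ∀ j, E j), (∀ j, FF K (E j) 1) →
    (∀ j, MvPolynomial.aeval (y j) P = 0) → (∀ j, ND K (y j)) → (∀ j, u j ≠ 0) →
    ∃ M N : Matrix (Fin 4) (Fin 4) K, M * N = 1 ∧ N * M = 1 ∧
      MvPolynomial.eval ![0, 0, 1, 0] (twP N P) ≠ 0 ∧ ∀ j, mv M (y j) 0 ≠ 0 ∧
      Pos (aff (twP N P)) (mv M (y j) 1 / mv M (y j) 0) (mv M (y j) 2 / mv M (y j) 0)
        (mv M (y j) 3 / mv M (y j) 0) (u j) ∧
      IsSeparable K⟮mv M (y j) 1 / mv M (y j) 0⟯ (mv M (y j) 2 / mv M (y j) 0) ∧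
      IsSeparable K⟮mv M (y j) 1 / mv M (y j) 0⟯ (mv M (y j) 3 / mv M (y j) 0)

/-- descent to the separable closure -/
def SDesc : Prop := ∀ (E : Type) [Field E] [Algebra K E], FF K E 1 → ∀ x t w u : E,
  Transcendental K x → IsSeparable K⟮x⟯ t → IsSeparable K⟮x⟯ w →
  ∃ (E' : Type) (_ : Field E') (_ : Algebra K E') (ψ : E' →ₐ[K] E) (x' t' w' u' : E') (q : ℕ),
    FF K E' 1 ∧ 0 < q ∧ ψ x' = x ∧ ψ t' = t ∧ ψ w' = w ∧ ψ u' = u ^ q ∧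
    Algebra.IsSeparable K⟮x'⟯ E'

open Classical in
/-- change of the field -/
def SExt : Prop := ∀ (E L : Type) [Field E] [Algebra K E] [Field L] [Algebra K L], FF K E 1 →
  FF K L 1 → ∀ (ψ : E →ₐ[K] L) (x t w u : E),
  (∀ P : MvPolynomial (Fin 3) K, Pos P (ψ x) (ψ t) (ψ w) (ψ u) ↔ Pos P x t w u) ∧
  ∀ x0 t0 w0 : K, ∑ᶠ O : DV K L, (if Near O.O (ψ x) x0 ∧ Near O.O (ψ t) t0 ∧ Near O.O (ψ w) w0
      then (O.ord (ψ u) : ℚ) else 0) =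
    hdeg ψ * ∑ᶠ O : DV K E, (if Near O.O x x0 ∧ Near O.O t t0 ∧ Near O.O w w0
      then (O.ord u : ℚ) else 0)

/-- from the chart to projective coordinates -/
def SPM : Prop := ∀ (P : MvPolynomial (Fin 4) K) (d : ℕ), 0 < d → P.IsHomogeneous d → NS P →
  ∀ Λ : Lm K, Pre Λ → (∀ (E : Type) [Field E] [Algebra K E], FF K E 1 →
    ∀ (y : Fin 4 → E) (u v : E), y ≠ 0 → MvPolynomial.aeval y P = 0 → u ≠ 0 → v ≠ 0 →
      Λ E y (u * v) = Λ E y u + Λ E y v) →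
  (∀ M N : Matrix (Fin 4) (Fin 4) K, M * N = 1 → N * M = 1 →
    MvPolynomial.eval ![0, 0, 1, 0] (twP N P) ≠ 0 → CoreF (aff (twP N P)) (tw N Λ)) → CoreP P Λ

/-- the Galois cover -/
def SRing : Prop := ∀ (J : Type) [Fintype J] (E : J → Type) [∀ j, Field (E j)]
  [∀ j, Algebra K (E j)] (x : ∀ j, E j), (∀ j, FF K (E j) 1) → (∀ j, Transcendental K (x j)) →
  (∀ j, Algebra.IsSeparable K⟮x j⟯ (E j)) →
  ∃ (A : Type) (_ : CommRing A) (_ : IsDedekindDomain A) (_ : Algebra K A) (_ : Algebra K[X] A)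
    (_ : IsScalarTower K K[X] A) (_ : Module.Finite K[X] A) (_ : Module.IsTorsionFree K[X] A),
    Gal K A ∧ FF K (FractionRing A) 1 ∧
    ∃ ψ : ∀ j, E j →ₐ[K] FractionRing A, ∀ j, ψ j (x j) = xL K A

/-- points and places -/
def SPl : Prop := ∀ (A : Type) [CommRing A] [IsDedekindDomain A] [Algebra K A] [Algebra K[X] A]
  [IsScalarTower K K[X] A] [Module.Finite K[X] A] [Module.IsTorsionFree K[X] A],
  FF K (FractionRing A) 1 →
  (∀ β : A →ₐ[K] K, ∃ O, Pl β O) ∧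
  (∀ O : DV K (FractionRing A), xL K A ∈ O.O → ∃ β : A →ₐ[K] K, Pl β O) ∧
  (∀ (β : A →ₐ[K] K) O O', Pl β O → Pl β O' → O = O') ∧
  (∀ (β β' : A →ₐ[K] K) O, Pl β O → Pl β' O → β = β') ∧
  (∀ (β : A →ₐ[K] K) O, Pl β O → xL K A ∈ O.O) ∧
  (∀ z : FractionRing A, (∀ O : DV K (FractionRing A), xL K A ∈ O.O → z ∈ O.O) →
    ∃ a : A, algebraMap A _ a = z)

/-- the divisor of a function -/
def SDv : Prop := ∀ (A : Type) [CommRing A] [IsDedekindDomain A] [Algebra K A] [Algebra K[X] A]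
  [IsScalarTower K K[X] A] [Module.Finite K[X] A] [Module.IsTorsionFree K[X] A],
  FF K (FractionRing A) 1 → ∀ u : FractionRing A, u ≠ 0 →
  (∀ O : DV K (FractionRing A), xL K A ∉ O.O → O.ord u = 0) →
  ∃ ν : (A →ₐ[K] K) →₀ ℤ, Dvs K u ν ∧ (ν.sum fun _ z => z) = 0 ∧
    (∀ β O, Pl β O → ν β = O.ord u) ∧
    ∀ (Q : (A →ₐ[K] K) → Prop) (Q' : DV K (FractionRing A) → Prop),
      (∀ β O, Pl β O → (Q β ↔ Q' O)) →
      (ν.sum fun β z => (open Classical in if Q β then (z : ℚ) else 0)) =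
        ∑ᶠ O, (open Classical in if Q' O then (O.ord u : ℚ) else 0)

/-- from the cover to the fields -/
def SMB : Prop := ∀ (P : MvPolynomial (Fin 3) K) (Λ : Lm K), Pre Λ → CoreB P Λ → CoreF P Λ

/-- conjugation by the Galois group -/
def SConj : Prop := ∀ (A : Type) [CommRing A] [IsDedekindDomain A] [Algebra K A] [Algebra K[X] A]
  [IsScalarTower K K[X] A] [Module.Finite K[X] A] [Module.IsTorsionFree K[X] A], Gal K A →
  (∀ β β' : A →ₐ[K] K, β (xA K A) = β' (xA K A) → ∃ g : A ≃ₐ[K[X]] A, ∀ a, β' a = β (g a)) ∧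
  (∀ x0 : K, {β : A →ₐ[K] K | β (xA K A) = x0}.Finite) ∧
  ∀ g : A ≃ₐ[K[X]] A, ∃ (G : FractionRing A ≃ₐ[K] FractionRing A)
    (e : (A →ₐ[K] K) ≃ (A →ₐ[K] K)), (∀ a : A, G (algebraMap A _ a) = algebraMap A _ (g a)) ∧
    (∀ β a, e β a = β (g a)) ∧ ∀ u ν, Dvs K u ν → Dvs K (G u) (Finsupp.equivMapDomain e.symm ν)

/-- averaging over the Galois group -/
def SBA : Prop := ∀ (P : MvPolynomial (Fin 3) K) (Λ : Lm K), Pre Λ → CoreA P Λ → CoreB P Λ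

/-- closedness point by point -/
def SCl : Prop := ∀ p : Fin 4 → K, p ≠ 0 → ∃ Φ : Raw K (Fin 4), IsPre 0 Φ ∧
  ∀ (E : Type) [Field E] [Algebra K E], FF K E 1 → ∀ (y : Fin 4 → E) (u : E), y ≠ 0 →
    Dv Φ E y u = ∑ᶠ O : DV K E,
      (open Classical in if Ctr O.O y p then (O.ord u : ℚ) else 0)

end Pool.Agent.MP_a9d3bd_yy
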