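import Pool.Agent.MP_a9d3bd_yy.BSt

namespace Pool.Agent.MP_a9d3bd_yy

open Polynomial IntermediateField Pool.Agent.MP_a9d3bd_q Pool.Agent.MP_a9d3bd_x

theorem sMp_ev {K L : Type} [Field K] [Field L] [Algebra K L] (P : MvPolynomial (Fin 4) K) (x : L)
    (a f : L[X]) :
    MvPolynomial.aeval ![1, AdjoinRoot.mk f (C x), AdjoinRoot.mk f X, AdjoinRoot.mk f a] P =
      AdjoinRoot.mk f ((PL P x).eval a) := by
  unfold PL
  induction P using MvPolynomial.induction_on with
  | C c =>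
    rw [MvPolynomial.aeval_C, MvPolynomial.aeval_C, Polynomial.algebraMap_apply,
      Polynomial.algebraMap_apply, eval_C, AdjoinRoot.mk_C, AdjoinRoot.algebraMap_eq']
    rfl
  | add p q hp hq => rw [map_add, map_add, eval_add, map_add, hp, hq]
  | mul_X p i hp =>
    rw [map_mul, map_mul, eval_mul, map_mul, hp, MvPolynomial.aeval_X, MvPolynomial.aeval_X]
    congr 1
    fin_cases i <;> simp

theorem sMp {K : Type} [Field K] [IsAlgClosed K] : SMp K := by
  intro P Λ hG hC L _ _ hL x a f hf hd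
  have := Fact.mk hf
  have hfin : FiniteDimensional L (AdjoinRoot f) := (AdjoinRoot.powerBasis hf.ne_zero).finite
  have hE : FF K (AdjoinRoot f) 1 := FF.of_tower (a := 1) (b := 0) hL (ff_zero_iff.2 hfin)
  have hy : (![1, AdjoinRoot.mk f (C x), AdjoinRoot.mk f X, AdjoinRoot.mk f a] :
      Fin 4 → AdjoinRoot f) ≠ 0 := fun e => one_ne_zero (congrFun e 0)
  have h0 := (sMp_ev P x a f).trans (AdjoinRoot.mk_eq_zero.2 hd)
  simp only [mu0, dif_pos hf]
  refine ⟨fun u u' hu hu' => ?_, fun u u' h => ?_, fun κ hκ => ?_⟩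
  · rw [map_mul]
    exact hG.mul _ hE _ _ _ hy (fun G h => by rw [h]; exact h0)
      (fun e => hu (AdjoinRoot.mk_eq_zero.1 e)) fun e => hu' (AdjoinRoot.mk_eq_zero.1 e)
  · rw [AdjoinRoot.mk_eq_mk.2 h]
  · exact hC _ hE _ hy h0 κ hκ

end Pool.Agent.MP_a9d3bd_yy
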