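import Pool.Agent.MP_a9d3bd_yy.Asm
import Pool.Agent.MP_a9d3bd_zz.Defs

/-! Plane sections of the generic fibre: the reciprocity relation for four lines. -/

namespace Pool.Agent.MP_a9d3bd_yy

open Polynomial IntermediateField Pool.Agent.MP_a9d3bd_q Pool.Agent.MP_a9d3bd_x

section
variable {L F : Type} [Field L] [Field F] [Algebra L F]

/-- `(t, w)` is a generic point of the plane curve `π = 0`. -/
structure Gen (π : L[X][X]) (t w : F) : Prop where
  ff : FF L F 1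
  ker : ∀ Q : L[X][X], aevalAeval t w Q = 0 ↔ π ∣ Q
  top : L⟮t, w⟯ = ⊤

/-- The monic irreducible factors. -/
def Cq (a : L[X]) : Set L[X] := {f | f.Monic ∧ Irreducible f ∧ f ∣ a}

end

section
variable {K L : Type} [Field K] [Field L] [Algebra K L]

/-- The equation of the generic fibre. -/
noncomputable def PL (P : MvPolynomial (Fin 4) K) (x : L) : L[X][X] :=
  MvPolynomial.aeval ![1, C (C x), C X, X] P

/-- A line. -/
noncomputable def ln (c : K) (δ : L) : L[X] := C δ + C (algebraMap K L c) * X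

open Classical in
/-- The functional on the component `f` of the curve `w = a(t)`. -/
noncomputable def mu0 (Λ : Lm K) (x : L) (a f u : L[X]) : ℚ :=
  if h : Irreducible f then
    haveI := Fact.mk h
    Λ (AdjoinRoot f) ![1, AdjoinRoot.mk f (C x), AdjoinRoot.mk f X, AdjoinRoot.mk f a]
      (AdjoinRoot.mk f u)
  else 0

/-- The sum over the components of the section of `Q = 0` by `w = a(t)`. -/
noncomputable def Mq (Λ : Lm K) (x : L) (Q : L[X][X]) (a b : L[X]) : ℚ :=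
  ∑ᶠ f ∈ Cq (Q.eval a), mu0 Λ x a f (a - b)

/-- The relation for four lines. -/
noncomputable def R8 (Λ : Lm K) (x : L) (Q : L[X][X]) (a : Fin 4 → L[X]) : ℚ :=
  (Mq Λ x Q (a 1) (a 2) - Mq Λ x Q (a 2) (a 1)) - (Mq Λ x Q (a 1) (a 3) - Mq Λ x Q (a 3) (a 1)) -
    (Mq Λ x Q (a 0) (a 2) - Mq Λ x Q (a 2) (a 0)) + (Mq Λ x Q (a 0) (a 3) - Mq Λ x Q (a 3) (a 0))

/-- Four lines in good position at infinity. -/
structure Cfg (P : MvPolynomial (Fin 4) K) (x : L) (c : Fin 4 → K) (δ : Fin 4 → L) : Prop where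
  lc : ∀ i, MvPolynomial.eval ![0, 0, 1, c i] P ≠ 0
  fin : ∀ V : ValuationSubring L, (∀ a : K, algebraMap K L a ∈ V) → x ∈ V → ∀ i, δ i ∈ V
  inf : ∀ V : ValuationSubring L, (∀ a : K, algebraMap K L a ∈ V) → x ∉ V →
    V.valuation x < V.valuation (δ 2) ∧ V.valuation x < V.valuation (δ 3) ∧
      ∃ κ : K, κ ≠ 0 ∧ V.valuation (δ 2 / δ 3 - algebraMap K L κ) < 1

/-- The sections are reduced and the two pairs have no common component. -/
structure Trv (Q : L[X][X]) (a : Fin 4 → L[X]) : Prop where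
  sep : ∀ i, (Q.eval (a i)).Separable
  c02 : IsCoprime (Q.eval (a 0)) (a 0 - a 2)
  c03 : IsCoprime (Q.eval (a 0)) (a 0 - a 3)
  c12 : IsCoprime (Q.eval (a 1)) (a 1 - a 2)
  c13 : IsCoprime (Q.eval (a 1)) (a 1 - a 3)

open Classical in
/-- The contribution of a valuation. -/
noncomputable def Bs (Λ : Lm K) {F : Type} [Field F] [Algebra K F] [Algebra L F] (x : L) (t w : F)
    (a b : L[X]) (O : DV K F) : ℚ :=
  if (∀ z : L, algebraMap L F z ∈ O.O) ∧ t ∈ O.O ∧ w ∈ O.O then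
    (O.ord (w - aeval t a) : ℚ) * Λ O.K (O.red ![1, algebraMap L F x, t, w]) (O.res (w - aeval t b))
  else 0

/-- Constants are killed. -/
def Cst (P : MvPolynomial (Fin 4) K) (Λ : Lm K) : Prop :=
  ∀ (E : Type) [Field E] [Algebra K E], FF K E 1 → ∀ y : Fin 4 → E, y ≠ 0 →
    MvPolynomial.aeval y P = 0 → ∀ κ : K, κ ≠ 0 → Λ E y (algebraMap K E κ) = 0

end

/-- generic points exist -/
def SGen : Prop := ∀ (L : Type) [Field L] (π : L[X][X]), Prime π →
  ∃ (F : Type) (_ : Field F) (_ : Algebra L F) (t w : F), Gen π t w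

/-- the local ring at a transversal intersection -/
def SLoc : Prop := ∀ (L F : Type) [Field L] [Field F] [Algebra L F] (π : L[X][X]) (t w : F),
  Gen π t w → ∀ a : L[X], (π.eval a).Separable → w - aeval t a ≠ 0 ∧
    ∀ f ∈ Cq (π.eval a), ∀ z : F, z ≠ 0 → ∃ (n : ℤ) (p q : L[X][X]), ¬ f ∣ p.eval a ∧
      ¬ f ∣ q.eval a ∧ z * aevalAeval t w q = (w - aeval t a) ^ n * aevalAeval t w p

/-- the places over the section -/
def SHo1 : Prop := ∀ (L F : Type) [Field L] [Field F] [Algebra L F] (π : L[X][X]) (t w : F),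
  Gen π t w → ∀ a : L[X], (π.eval a).Separable → ∀ O : DV L F, t ∈ O.O →
    0 < O.ord (w - aeval t a) → O.ord (w - aeval t a) = 1 ∧
      minpoly L (O.res t) ∈ Cq (π.eval a) ∧ ∀ z : O.K, ∃ p : L[X], z = O.res (aeval t p)

/-- one place for each component -/
def SHo2 : Prop := ∀ (L F : Type) [Field L] [Field F] [Algebra L F] (π : L[X][X]) (t w : F),
  Gen π t w → ∀ a : L[X], (π.eval a).Separable → ∀ f ∈ Cq (π.eval a),
    ∃! O : DV L F, t ∈ O.O ∧ 0 < O.ord (w - aeval t a) ∧ minpoly L (O.res t) = f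

section
variable (K : Type) [Field K]

/-- the functional in any model of the component -/
def SMu : Prop := ∀ Λ : Lm K, Pre Λ → ∀ (L : Type) [Field L] [Algebra K L], FF K L 1 →
  ∀ (x : L) (a f u : L[X]), Irreducible f → ∀ (E : Type) [Field E] [Algebra K E]
    (ρ : L[X] →ₐ[K] E), Function.Surjective ρ → ρ f = 0 →
    mu0 Λ x a f u = Λ E ![1, ρ (C x), ρ X, ρ a] (ρ u)

/-- formal properties of the functional -/
def SMp : Prop := ∀ (P : MvPolynomial (Fin 4) K) (Λ : Lm K), GF {P} Λ → Cst P Λ →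
  ∀ (L : Type) [Field L] [Algebra K L], FF K L 1 → ∀ (x : L) (a f : L[X]), Irreducible f →
    f ∣ (PL P x).eval a →
    (∀ u u', ¬ f ∣ u → ¬ f ∣ u' → mu0 Λ x a f (u * u') = mu0 Λ x a f u + mu0 Λ x a f u') ∧
    (∀ u u', f ∣ u - u' → mu0 Λ x a f u = mu0 Λ x a f u') ∧
    ∀ κ : K, κ ≠ 0 → mu0 Λ x a f (C (algebraMap K L κ)) = 0

/-- the sum over the places -/
def SSum : Prop := ∀ Λ : Lm K, Pre Λ → ∀ (L F : Type) [Field L] [Field F] [Algebra K L]
  [Algebra K F] [Algebra L F] [IsScalarTower K L F], FF K L 1 →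
  ∀ (x : L) (π : L[X][X]) (t w : F), Gen π t w → ∀ a b : L[X], (π.eval a).Separable →
    (Function.support (Bs Λ x t w a b)).Finite ∧ ∑ᶠ O, Bs Λ x t w a b O = Mq Λ x π a b

/-- degenerate points -/
def SNd : Prop := ∀ (P : MvPolynomial (Fin 4) K) (d : ℕ), P.IsHomogeneous d →
  ∀ c : K, MvPolynomial.eval ![0, 0, 1, c] P ≠ 0 → ∀ (E : Type) [Field E] [Algebra K E],
    FF K E 1 → ∀ z : Fin 4 → E, MvPolynomial.aeval z P = 0 →
    (z 0 = 0 → z 1 = 0 → ¬ ND K z) ∧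
    (z 0 = 1 → IsAlgebraic K (z 1) → IsAlgebraic K (z 3 - algebraMap K E c * z 2) → ¬ ND K z)

/-- classification of the valuations -/
def SCls : Prop := ∀ (P : MvPolynomial (Fin 4) K) (d : ℕ), P.IsHomogeneous d →
  ∀ (L F : Type) [Field L] [Field F] [Algebra K L] [Algebra K F] [Algebra L F]
    [IsScalarTower K L F], FF K L 1 → FF K F 2 → ∀ (x : L) (t w : F),
    MvPolynomial.aeval ![1, algebraMap L F x, t, w] P = 0 →
    ∀ (c : Fin 4 → K) (δ : Fin 4 → L), Cfg P x c δ → (∀ i, w - aeval t (ln (c i) (δ i)) ≠ 0) →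
    ∀ O : DV K F, ND K (O.red ![1, algebraMap L F x, t, w]) →
      ((∀ z : L, algebraMap L F z ∈ O.O) ∧ t ∈ O.O ∧ w ∈ O.O) ∨
      (O.ord ((w - aeval t (ln (c 2) (δ 2))) / (w - aeval t (ln (c 3) (δ 3)))) = 0 ∧
        ∃ κ : K, κ ≠ 0 ∧
          O.tame ((w - aeval t (ln (c 1) (δ 1))) / (w - aeval t (ln (c 0) (δ 0))))
            ((w - aeval t (ln (c 2) (δ 2))) / (w - aeval t (ln (c 3) (δ 3)))) = algebraMap K O.K κ)

/-- expansion of a tame symbol -/
def STm : Prop := ∀ (F : Type) [Field F] [Algebra K F] (O : DV K F) (φ : O.K → ℚ),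
  (∀ u v, u ≠ 0 → v ≠ 0 → φ (u * v) = φ u + φ v) → ∀ l : Fin 4 → F, (∀ i, l i ≠ 0) →
    (O.ord (l 0) = 0 ∧ O.ord (l 1) = 0) ∨ (O.ord (l 2) = 0 ∧ O.ord (l 3) = 0) →
    φ (O.tame (l 1 / l 0) (l 2 / l 3)) =
      (O.ord (l 1) * φ (O.res (l 2)) - O.ord (l 2) * φ (O.res (l 1))) -
      (O.ord (l 1) * φ (O.res (l 3)) - O.ord (l 3) * φ (O.res (l 1))) -
      (O.ord (l 0) * φ (O.res (l 2)) - O.ord (l 2) * φ (O.res (l 0))) +
      (O.ord (l 0) * φ (O.res (l 3)) - O.ord (l 3) * φ (O.res (l 0)))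

/-- the generic point is a non-degenerate point of the surface -/
def SPt : Prop := ∀ (P : MvPolynomial (Fin 4) K) (L F : Type) [Field L] [Field F] [Algebra K L]
  [Algebra K F] [Algebra L F] [IsScalarTower K L F], FF K L 1 → ∀ x : L, Transcendental K x →
  ∀ (π : L[X][X]) (t w : F), Gen π t w → π ∣ PL P x →
    FF K F 2 ∧ MvPolynomial.aeval ![1, algebraMap L F x, t, w] P = 0 ∧
      ND K ![1, algebraMap L F x, t, w] ∧
      ∀ O : DV K F, (∀ z : L, algebraMap L F z ∈ O.O) → t ∈ O.O → w ∈ O.O → ∀ a b : L[X],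
        IsCoprime (π.eval a) (a - b) → O.ord (w - aeval t a) = 0 ∨ O.ord (w - aeval t b) = 0

/-- the relation on one component -/
def SRp : Prop := ∀ (P : MvPolynomial (Fin 4) K) (d : ℕ), P.IsHomogeneous d → ∀ Λ : Lm K,
  GF {P} Λ → Cst P Λ → ∀ (L : Type) [Field L] [Algebra K L], FF K L 1 → ∀ x : L,
    Transcendental K x → ∀ (c : Fin 4 → K) (δ : Fin 4 → L), Cfg P x c δ →
    ∀ π : L[X][X], Prime π → π ∣ PL P x → Trv π (fun i => ln (c i) (δ i)) →
      R8 Λ x π (fun i => ln (c i) (δ i)) = 0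

/-- additivity over the components -/
def SAdd : Prop := ∀ (Λ : Lm K) (L : Type) [Field L] [Algebra K L] (x : L) (Q : L[X][X])
  (a : Fin 4 → L[X]), (∀ π, Prime π → π ∣ Q → Trv π a → R8 Λ x π a = 0) → Trv Q a →
    R8 Λ x Q a = 0

/-- the affine equation -/
def SAf : Prop := ∀ (P : MvPolynomial (Fin 4) K) (d : ℕ), P.IsHomogeneous d →
  (aff P).totalDegree ≤ d ∧
  (∀ c : K, MP_a9d3bd_zz.pd (aff P) d c = MvPolynomial.eval ![0, 0, 1, c] P) ∧
  ∀ (L : Type) [Field L] [Algebra K L] (x : L) (a : L[X]),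
    MvPolynomial.aeval ![C x, X, a] (aff P) = (PL P x).eval a

/-- admissible curves are reduced -/
def SZ1 : Prop := ∀ (A ι : Type) [CommRing A] [IsDedekindDomain A] [Algebra K A] [Algebra K[X] A]
  [IsScalarTower K K[X] A] [Fintype ι] (m : ℕ) (S : MP_a9d3bd_zz.Su K A ι m),
    ∀ c g, S.Adm c g → (S.fL c g).Separable

/-- growth at infinity -/
def SZ2 : Prop := ∀ (A ι : Type) [CommRing A] [IsDedekindDomain A] [Algebra K A] [Algebra K[X] A]
  [IsScalarTower K K[X] A] [Module.Finite K[X] A] [Module.IsTorsionFree K[X] A] [Fintype ι]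
  (m : ℕ) (S : MP_a9d3bd_zz.Su K A ι m), Transcendental K (xL K A) ∧
    ∀ V : ValuationSubring (FractionRing A), (∀ a : K, algebraMap K _ a ∈ V) →
      (xL K A ∈ V → ∀ a : A, algebraMap A _ a ∈ V) ∧
      (xL K A ∉ V → ∀ g : Fin m × ι → K, V.valuation (MP_a9d3bd_zz.gam S.e
        (MP_a9d3bd_zz.Su.gp K A) fun v => algebraMap K _ (g v)) < V.valuation (xL K A ^ S.M))

/-- four admissible curves are lines in good position -/
def SCf : Prop := ∀ (P : MvPolynomial (Fin 4) K) (d : ℕ), P.IsHomogeneous d →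
  ∀ (A ι : Type) [CommRing A] [IsDedekindDomain A] [Algebra K A] [Algebra K[X] A]
  [IsScalarTower K K[X] A] [Module.Finite K[X] A] [Module.IsTorsionFree K[X] A] [Fintype ι]
  (m : ℕ) (S : MP_a9d3bd_zz.Su K A ι m), S.P = aff P → S.d = d → S.c0 = 0 → 2 ≤ S.M →
    ∀ (c : Fin 4 → K) (g : Fin 4 → Fin m × ι → K), (∀ i, S.Adm (c i) (g i)) → c 2 ≠ 0 → c 3 ≠ 0 →
      ∃ δ : Fin 4 → FractionRing A, Cfg P (xL K A) c δ ∧ ∀ i,
        S.wl (MP_a9d3bd_zz.Su.gp K A) (algebraMap K _ (c i)) (fun v => algebraMap K _ (g i v)) =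
          ln (c i) (δ i)

/-- the functional on the components is good -/
def SGd : Prop := ∀ (P : MvPolynomial (Fin 4) K) (d : ℕ), P.IsHomogeneous d → ∀ Λ : Lm K,
  GF {P} Λ → Cst P Λ →
  ∀ (A ι : Type) [CommRing A] [IsDedekindDomain A] [Algebra K A] [Algebra K[X] A]
  [IsScalarTower K K[X] A] [Module.Finite K[X] A] [Module.IsTorsionFree K[X] A] [Fintype ι]
  (m : ℕ) (S : MP_a9d3bd_zz.Su K A ι m), FF K (FractionRing A) 1 → S.P = aff P → S.d = d →
    S.c0 = 0 → 2 ≤ S.M → S.Good fun c g f u => (mu0 Λ (xL K A)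
      (S.wl (MP_a9d3bd_zz.Su.gp K A) (algebraMap K _ c) fun v => algebraMap K _ (g v)) f u : ℝ)

end

end Pool.Agent.MP_a9d3bd_yy
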