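import Pool.Agent.Mg.F53d700.G0241b4

/-! Reduction of a closed chain on a surface in projective space to sections over a curve. -/

namespace Pool.Agent.MP_a9d3bd_yy

open Polynomial IntermediateField Pool.Agent.MP_a9d3bd_q

/-- Functionals on points of projective space with a function. -/
abbrev Lm (K : Type) [Field K] : Type 1 :=
  ∀ (E : Type) [Field E] [Algebra K E], (Fin 4 → E) → E → ℚ

variable {K : Type} [Field K]

/-- The formal properties. -/
structure Pre (Λ : Lm K) : Prop where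
  ext : ∀ (E L : Type) [Field E] [Algebra K E] [Field L] [Algebra K L], FF K E 1 → FF K L 1 →
    ∀ (ψ : E →ₐ[K] L) (y : Fin 4 → E) (u : E),
      Λ L (fun i => ψ (y i)) (ψ u) = hdeg ψ * Λ E y u
  scale : ∀ (E : Type) [Field E] [Algebra K E], FF K E 1 → ∀ (c : E) (y : Fin 4 → E) (u : E),
    c ≠ 0 → Λ E (c • y) u = Λ E y u

/-- A constant matrix applied to a point. -/
def mv {E : Type} [Field E] [Algebra K E] (N : Matrix (Fin 4) (Fin 4) K) (y : Fin 4 → E) :
    Fin 4 → E := fun i => ∑ j, algebraMap K E (N i j) * y j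

/-- The functional in new coordinates. -/
def tw (N : Matrix (Fin 4) (Fin 4) K) (Λ : Lm K) : Lm K := fun E _ _ y u => Λ E (mv N y) u

/-- The equation in new coordinates. -/
noncomputable def twP (N : Matrix (Fin 4) (Fin 4) K) (P : MvPolynomial (Fin 4) K) :
    MvPolynomial (Fin 4) K :=
  MvPolynomial.aeval (fun i => ∑ j, MvPolynomial.C (N i j) * MvPolynomial.X j) P

/-- The affine equation. -/
noncomputable def aff (P : MvPolynomial (Fin 4) K) : MvPolynomial (Fin 3) K :=
  MvPolynomial.aeval ![1, MvPolynomial.X 0, MvPolynomial.X 1, MvPolynomial.X 2] P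

/-- The equation on the line through `(x0, 0, w0)` in the direction of the second axis. -/
noncomputable def fib (P : MvPolynomial (Fin 3) K) (x0 w0 : K) : K[X] :=
  MvPolynomial.aeval ![C x0, X, C w0] P

/-- The equation on the line through `p` in the direction `a`. -/
noncomputable def lin (P : MvPolynomial (Fin 4) K) (p a : Fin 4 → K) : K[X] :=
  MvPolynomial.aeval (fun i => C (p i) + X * C (a i)) P

/-- No singular point. -/
def NS (P : MvPolynomial (Fin 4) K) : Prop :=
  ∀ a : Fin 4 → K, a ≠ 0 → MvPolynomial.eval a P = 0 →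
    ∃ i, MvPolynomial.eval a (MvPolynomial.pderiv i P) ≠ 0

section
variable {E : Type} [Field E] [Algebra K E]

/-- `z` has the value `a` at the place. -/
def Near (O : ValuationSubring E) (z : E) (a : K) : Prop := O.valuation (z - algebraMap K E a) < 1

/-- The projective point `y` has the value `p` at the place. -/
def Ctr (O : ValuationSubring E) (y : Fin 4 → E) (p : Fin 4 → K) : Prop :=
  ∃ c : E, ∀ i, Near O (c * y i) (p i)

/-- General position of a parametrised curve `(x, t, w)` with a function `u`. -/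
structure Pos (P : MvPolynomial (Fin 3) K) (x t w u : E) : Prop where
  on : MvPolynomial.aeval ![x, t, w] P = 0
  ne : u ≠ 0
  tr : Transcendental K x
  int : ∀ O : DV K E, x ∈ O.O → t ∈ O.O ∧ w ∈ O.O
  inf : ∀ O : DV K E, x ∉ O.O → O.ord u = 0
  adm : ∃ (O : DV K E) (x0 w0 : K), Near O.O x x0 ∧ Near O.O w w0 ∧ (fib P x0 w0).Separable
  sep : ∀ O : DV K E, O.ord u ≠ 0 → ∀ x0 w0 : K, Near O.O x x0 → Near O.O w w0 →
    (fib P x0 w0).Separable

end

/-- The statement for closed chains in projective coordinates. -/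
def CoreP (P : MvPolynomial (Fin 4) K) (Λ : Lm K) : Prop :=
  ∀ (J : Type) [Fintype J] (E : J → Type) [∀ j, Field (E j)] [∀ j, Algebra K (E j)]
    (y : ∀ j, Fin 4 → E j) (u : ∀ j, E j) (r : J → ℚ), (∀ j, FF K (E j) 1) →
    (∀ j, MvPolynomial.aeval (y j) P = 0) → (∀ j, ND K (y j)) → (∀ j, u j ≠ 0) →
    (∀ p : Fin 4 → K, p ≠ 0 → ∑ j, r j * ∑ᶠ O : DV K (E j),
      (open Classical in if Ctr O.O (y j) p then (O.ord (u j) : ℚ) else 0) = 0) →
    ∑ j, r j * Λ (E j) (y j) (u j) = 0

/-- The statement in a good chart, the fields being separable over `K(x)`. -/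
def CoreF (P : MvPolynomial (Fin 3) K) (Λ : Lm K) : Prop :=
  ∀ (J : Type) [Fintype J] (E : J → Type) [∀ j, Field (E j)] [∀ j, Algebra K (E j)]
    (x t w u : ∀ j, E j) (r : J → ℚ), (∀ j, FF K (E j) 1) →
    (∀ j, Pos P (x j) (t j) (w j) (u j)) → (∀ j, Algebra.IsSeparable K⟮x j⟯ (E j)) →
    (∀ x0 t0 w0 : K, ∑ j, r j * ∑ᶠ O : DV K (E j),
      (open Classical in if Near O.O (x j) x0 ∧ Near O.O (t j) t0 ∧ Near O.O (w j) w0 then
        (O.ord (u j) : ℚ) else 0) = 0) →
    ∑ j, r j * Λ (E j) ![1, x j, t j, w j] (u j) = 0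

section
variable (K) (A : Type) [CommRing A] [Algebra K A] [Algebra K[X] A]

/-- The coordinate of the line. -/
noncomputable abbrev xA : A := algebraMap K[X] A X

/-- The coordinate of the line in the function field. -/
noncomputable abbrev xL : FractionRing A := algebraMap A _ (xA K A)

/-- `A` is a Galois cover of the line. -/
structure Gal : Prop where
  fin : Finite (A ≃ₐ[K[X]] A)
  inv : ∀ a : A, (∀ g : A ≃ₐ[K[X]] A, g a = a) → a ∈ Set.range (algebraMap K[X] A)
  norm : ∀ a : A, algebraMap K[X] A (Algebra.norm K[X] a) = ∏ᶠ g : A ≃ₐ[K[X]] A, g a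

variable {A} [IsDomain A]

/-- `u` has the divisor `ν`, which is supported on finite places. -/
def Dvs (u : FractionRing A) (ν : (A →ₐ[K] K) →₀ ℤ) : Prop :=
  u ≠ 0 ∧ ∀ O : ValuationSubring (FractionRing A), (∀ a : K, algebraMap K _ a ∈ O) →
    (algebraMap A _ (xA K A) ∉ O → O.valuation u = 1) ∧
    ∀ β : A →ₐ[K] K, (∀ a : A, O.valuation (algebraMap A _ (a - algebraMap K A (β a))) < 1) →
      ∀ π : A, β π = 0 → π ∉ RingHom.ker β ^ 2 →
        O.valuation u = O.valuation (algebraMap A _ π) ^ ν β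

variable {K}

/-- The place belongs to the point `β`. -/
def Pl (β : A →ₐ[K] K) (O : DV K (FractionRing A)) : Prop :=
  ∀ a : A, Near O.O (algebraMap A _ a) (β a)

end

/-- The statement for sections over a Galois cover of the line. -/
def CoreA (P : MvPolynomial (Fin 3) K) (Λ : Lm K) : Prop :=
  ∀ (A : Type) [CommRing A] [IsDedekindDomain A] [Algebra K A] [Algebra K[X] A]
    [IsScalarTower K K[X] A] [Module.Finite K[X] A] [Module.IsTorsionFree K[X] A], Gal K A →
    FF K (FractionRing A) 1 →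
    ∀ (J : Type) [Fintype J] (t w : J → A) (u : J → FractionRing A)
      (ν : J → (A →ₐ[K] K) →₀ ℤ) (r : J → ℚ),
    (∀ j, MvPolynomial.aeval ![xA K A, t j, w j] P = 0) → (∀ j, Dvs K (u j) (ν j)) →
    (∀ j, ((ν j).sum fun _ z => z) = 0) →
    (∀ j, ∃ β : A →ₐ[K] K, (fib P (β (xA K A)) (β (w j))).Separable) →
    (∀ j, ∀ β ∈ (ν j).support, (fib P (β (xA K A)) (β (w j))).Separable) →
    (∀ (β : A →ₐ[K] K) (t0 w0 : K), ∑ j, (open Classical in
      if β (t j) = t0 ∧ β (w j) = w0 then r j * (ν j β : ℚ) else 0) = 0) →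
    ∑ j, r j * Λ (FractionRing A) ![1, xL K A, algebraMap A _ (t j), algebraMap A _ (w j)] (u j) = 0

/-- The same with closedness over the points of the line only. -/
def CoreB (P : MvPolynomial (Fin 3) K) (Λ : Lm K) : Prop :=
  ∀ (A : Type) [CommRing A] [IsDedekindDomain A] [Algebra K A] [Algebra K[X] A]
    [IsScalarTower K K[X] A] [Module.Finite K[X] A] [Module.IsTorsionFree K[X] A], Gal K A →
    FF K (FractionRing A) 1 →
    ∀ (J : Type) [Fintype J] (t w : J → A) (u : J → FractionRing A)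
      (ν : J → (A →ₐ[K] K) →₀ ℤ) (r : J → ℚ),
    (∀ j, MvPolynomial.aeval ![xA K A, t j, w j] P = 0) → (∀ j, Dvs K (u j) (ν j)) →
    (∀ j, ((ν j).sum fun _ z => z) = 0) →
    (∀ j, ∃ β : A →ₐ[K] K, (fib P (β (xA K A)) (β (w j))).Separable) →
    (∀ j, ∀ β ∈ (ν j).support, (fib P (β (xA K A)) (β (w j))).Separable) →
    (∀ x0 t0 w0 : K, ∑ j, r j * ((ν j).sum fun β z => (open Classical in
      if β (xA K A) = x0 ∧ β (t j) = t0 ∧ β (w j) = w0 then (z : ℚ) else 0)) = 0) →
    ∑ j, r j * Λ (FractionRing A) ![1, xL K A, algebraMap A _ (t j), algebraMap A _ (w j)] (u j) = 0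

end Pool.Agent.MP_a9d3bd_yy
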