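import Pool.Agent.MP_a9d3bd_yy.St

namespace Pool.Agent.MP_a9d3bd_yy

open Polynomial IntermediateField Pool.Agent.MP_a9d3bd_q

noncomputable def sIrr_φ {K : Type} [Field K] :
    MvPolynomial (Fin 4) K →ₐ[K] (MvPolynomial (Fin 4) K)[X] :=
  MvPolynomial.aeval fun i => X * C (MvPolynomial.X i)

theorem sIrr_one {K : Type} [Field K] (A : MvPolynomial (Fin 4) K) :
    (sIrr_φ A).eval 1 = A := by
  induction A using MvPolynomial.induction_on with
  | C a => simp [sIrr_φ, Polynomial.algebraMap_apply]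
  | add p q hp hq => rw [map_add, eval_add, hp, hq]
  | mul_X p i hp =>
    rw [map_mul, eval_mul, hp]
    simp [sIrr_φ]

theorem sIrr_zero {K : Type} [Field K] (A : MvPolynomial (Fin 4) K) :
    (sIrr_φ A).eval 0 = MvPolynomial.C (MvPolynomial.eval 0 A) := by
  induction A using MvPolynomial.induction_on with
  | C a => simp [sIrr_φ, Polynomial.algebraMap_apply]
  | add p q hp hq => rw [map_add, eval_add, hp, hq, map_add, map_add]
  | mul_X p i hp =>
    rw [map_mul, eval_mul, hp]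
    simp [sIrr_φ]

theorem sIrr_mono {K : Type} [Field K] (s : Fin 4 →₀ ℕ) (c : K) :
    sIrr_φ (MvPolynomial.monomial s c) = X ^ s.degree * C (MvPolynomial.monomial s c) := by
  rw [sIrr_φ, MvPolynomial.aeval_monomial, MvPolynomial.monomial_eq, Finsupp.prod, Finsupp.prod,
    Finsupp.degree_apply, map_mul, map_prod, ← Finset.prod_pow_eq_pow_sum]
  simp only [mul_pow, Finset.prod_mul_distrib, map_pow]
  rw [Polynomial.algebraMap_apply, MvPolynomial.algebraMap_eq]
  ring

theorem sIrr_hom {K : Type} [Field K] {P : MvPolynomial (Fin 4) K} {d : ℕ}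
    (h : P.IsHomogeneous d) : sIrr_φ P = X ^ d * C P := by
  conv_lhs => rw [P.as_sum]
  conv_rhs => rw [P.as_sum]
  rw [map_sum, map_sum, Finset.mul_sum]
  refine Finset.sum_congr rfl fun s hs => ?_
  rw [sIrr_mono]
  have e : s.degree = d := by
    have := h (MvPolynomial.mem_support_iff.1 hs)
    rw [Finsupp.degree_eq_weight_one]
    exact this
  rw [e]

theorem sIrr_unit {K : Type} [Field K] {P A B : MvPolynomial (Fin 4) K} {d : ℕ}
    (h : P.IsHomogeneous d) (h0 : P ≠ 0) (e : P = A * B) (ha : MvPolynomial.eval 0 A ≠ 0) :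
    IsUnit A := by
  have e1 : sIrr_φ A * sIrr_φ B = X ^ d * C P := by rw [← map_mul, ← e, sIrr_hom h]
  have hn : ¬ (X : (MvPolynomial (Fin 4) K)[X]) ∣ sIrr_φ A := by
    rw [Polynomial.X_dvd_iff, Polynomial.coeff_zero_eq_eval_zero, sIrr_zero]
    exact fun hc => ha (MvPolynomial.C_eq_zero.1 hc)
  obtain ⟨Q, hQ⟩ : (X : (MvPolynomial (Fin 4) K)[X]) ^ d ∣ sIrr_φ B :=
    Polynomial.prime_X.pow_dvd_of_dvd_mul_left d hn ⟨C P, e1⟩
  have e2 : sIrr_φ A * Q = C P := by
    apply mul_left_cancel₀ (pow_ne_zero d (Polynomial.X_ne_zero (R := MvPolynomial (Fin 4) K)))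
    rw [← e1, hQ]
    ring
  have hd : (sIrr_φ A).natDegree = 0 := by
    have := Polynomial.natDegree_le_of_dvd (Dvd.intro _ e2) (Polynomial.C_ne_zero.2 h0)
    rw [natDegree_C] at this
    omega
  have e3 := Polynomial.eq_C_of_natDegree_eq_zero hd
  have e4 := sIrr_one A
  have e5 := sIrr_zero A
  rw [e3, eval_C] at e4 e5
  rw [← e4, e5]
  exact (IsUnit.mk0 _ ha).map MvPolynomial.C

theorem sIrr {K : Type} [Field K] [IsAlgClosed K] (h1 : SCz K) : SIrr K := by
  intro P d hd hP hN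
  have h0 : P ≠ 0 := by
    rintro rfl
    obtain ⟨i, hi⟩ := hN (fun _ => 1) (fun e => one_ne_zero (congrFun e 0)) (map_zero _)
    exact hi (by rw [map_zero, map_zero])
  have hz : MvPolynomial.eval 0 P = 0 := by
    have e1 := sIrr_zero P
    rw [sIrr_hom hP, eval_mul, eval_pow, eval_X, zero_pow hd.ne', zero_mul] at e1
    exact MvPolynomial.C_eq_zero.1 e1.symm
  refine ⟨fun hu => (hu.map (MvPolynomial.eval (0 : Fin 4 → K))).ne_zero hz, fun A B e => ?_⟩
  by_contra hc
  rw [not_or] at hc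
  have hA : MvPolynomial.eval 0 A = 0 := by
    by_contra h
    exact hc.1 (sIrr_unit hP h0 e h)
  have hB : MvPolynomial.eval 0 B = 0 := by
    by_contra h
    exact hc.2 (sIrr_unit hP h0 (e.trans (mul_comm A B)) h)
  obtain ⟨a, ha, hf⟩ := h1 (Fin 4) (Fin 2) (by simp) ![A, B] (by
    intro j
    fin_cases j
    · exact hA
    · exact hB)
  have a1 : MvPolynomial.eval a A = 0 := hf 0
  have a2 : MvPolynomial.eval a B = 0 := hf 1
  obtain ⟨i, hi⟩ := hN a ha (by rw [e, map_mul, a1, zero_mul])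
  apply hi
  rw [e, MvPolynomial.pderiv_mul, map_add, map_mul, map_mul, a1, a2]
  ring

end Pool.Agent.MP_a9d3bd_yy
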